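import Pool.Agent.Y122.MH.Final2
import Pool.Agent.W468.CFProd

/-! The polynomial `X^2 + 1`. -/

set_option autoImplicit false

namespace Pool.Agent.Y122.MH

open MeasureTheory Polynomial Filter Topology
open Pool.Agent.H305R2 (NN ff VV roughPart)
open Pool.Agent.W468.ConjF (PJ PJ_tendsto)

/-- the polynomial `X^2 + 1` -/
noncomputable def f1 : ℤ[X] := X ^ 2 + 1

lemma f1_eval (n : ℤ) : f1.eval n = n ^ 2 + 1 := by simp [f1]

lemma f1_natDegree : f1.natDegree = 2 := by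
  unfold f1
  rw [show (1 : ℤ[X]) = C 1 by simp]
  exact natDegree_X_pow_add_C

lemma f1_leadingCoeff : f1.leadingCoeff = 1 := by
  unfold f1
  rw [show (1 : ℤ[X]) = C 1 by simp]
  exact leadingCoeff_X_pow_add_C (by norm_num)

/-- the number of roots of `X ^ 2 + 1` modulo `p` -/
lemma card_roots {p : ℕ} (hp : p.Prime) (h2 : p ≠ 2) :
    (((Finset.range p).filter (fun n : ℕ => (p : ℤ) ∣ f1.eval (n : ℤ))).card : ℤ) = 1 + ZMod.χ₄ (p : ZMod 4) := by
  have : Fact p.Prime := ⟨hp⟩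
  have h1 := legendreSym.card_sqrts p h2 (-1)
  rw [legendreSym.at_neg_one h2] at h1
  rw [add_comm, ← h1]
  congr 1
  refine Finset.card_nbij' (fun n : ℕ => (n : ZMod p)) (fun x => x.val) ?_ ?_ ?_ ?_
  · intro n hn
    rw [Finset.mem_coe, Finset.mem_filter, f1_eval] at hn
    rw [Finset.mem_coe, Set.mem_toFinset]
    show ((n : ℕ) : ZMod p) ^ 2 = ((-1 : ℤ) : ZMod p)
    have h3 := (ZMod.intCast_zmod_eq_zero_iff_dvd ((n : ℤ) ^ 2 + 1) p).2 hn.2
    push_cast at h3 ⊢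
    linear_combination h3
  · intro x hx
    rw [Finset.mem_coe, Set.mem_toFinset] at hx
    have hx' : x ^ 2 = ((-1 : ℤ) : ZMod p) := hx
    rw [Finset.mem_coe, Finset.mem_filter, Finset.mem_range, f1_eval]
    refine ⟨ZMod.val_lt x, ?_⟩
    rw [← ZMod.intCast_zmod_eq_zero_iff_dvd]
    push_cast at hx' ⊢
    rw [ZMod.natCast_zmod_val, hx']
    ring
  · intro n hn
    rw [Finset.mem_coe, Finset.mem_filter, Finset.mem_range] at hn
    exact ZMod.val_cast_of_lt hn.1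
  · intro x _
    show ((x.val : ℕ) : ZMod p) = x
    exact ZMod.natCast_zmod_val x

lemma Sc_prime {p : ℕ} (hp : p.Prime) (h2 : p ≠ 2) :
    (Sc f1 p : ℝ) = p - (1 + ((ZMod.χ₄ (p : ZMod 4) : ℤ) : ℝ)) := by
  have h1 := card_roots hp h2
  have h3 : ((Finset.range p).filter (fun n : ℕ => (p : ℤ) ∣ f1.eval (n : ℤ))).card + Sc f1 p = p := by
    unfold Sc
    have h4 := Finset.card_filter_add_card_filter_not (s := Finset.range p) (fun n : ℕ => (p : ℤ) ∣ f1.eval (n : ℤ))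
    rw [Finset.card_range] at h4
    have h6 : (Finset.range p).filter (fun n => Cop f1 p n) =
        (Finset.range p).filter (fun n : ℕ => ¬ (p : ℤ) ∣ f1.eval (n : ℤ)) :=
      Finset.filter_congr fun n _ => Cop_prime f1 hp n
    rw [h6]
    exact h4
  have h5 : ((((Finset.range p).filter (fun n : ℕ => (p : ℤ) ∣ f1.eval (n : ℤ))).card : ℤ) : ℝ) + Sc f1 p = p := by
    exact_mod_cast h3
  rw [h1] at h5
  push_cast at h5
  linarith

lemma Sc_two : Sc f1 2 = 1 := by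
  unfold Sc
  rw [Finset.card_eq_one]
  refine ⟨0, ?_⟩
  ext n
  rw [Finset.mem_filter, Finset.mem_range, Finset.mem_singleton, Cop_prime f1 Nat.prime_two, f1_eval]
  constructor
  · rintro ⟨h1, h2⟩
    interval_cases n
    · rfl
    · norm_num at h2
  · rintro rfl
    norm_num

/-- the partial products -/
noncomputable def PP (x : ℕ) : ℝ :=
  ∏ p ∈ (Finset.range (x + 1)).filter (fun p => p.Prime ∧ Odd p),
            (1 - (((ZMod.χ₄ (p : ZMod 4) : ℤ) : ℝ)) / ((p : ℝ) - 1))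

lemma VV_eq (k : ℕ) : VV k = ∏ p ∈ (Finset.range (k + 1)).filter Nat.Prime, (1 - (p : ℝ)⁻¹)⁻¹ := by
  unfold Pool.Agent.H305R2.VV
  refine Finset.prod_congr ?_ fun _ _ => rfl
  ext p
  simp only [Finset.mem_filter, Finset.mem_Icc, Finset.mem_range]
  constructor
  · rintro ⟨⟨_, h1⟩, h2⟩
    exact ⟨by omega, h2⟩
  · rintro ⟨h1, h2⟩
    exact ⟨⟨h2.one_lt.le, by omega⟩, h2⟩

lemma DV_eq {k : ℕ} (hk : 2 ≤ k) : Dk f1 k * VV k = PP k := by
  rw [Dk_eq, VV_eq, ← Finset.prod_mul_distrib]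
  have h2 : 2 ∈ (Finset.range (k + 1)).filter Nat.Prime := by
    rw [Finset.mem_filter, Finset.mem_range]
    exact ⟨by omega, Nat.prime_two⟩
  rw [← Finset.mul_prod_erase _ _ h2, Sc_two]
  have h3 : ((1 : ℕ) : ℝ) / ((2 : ℕ) : ℝ) * (1 - ((2 : ℕ) : ℝ)⁻¹)⁻¹ = 1 := by norm_num
  rw [h3, one_mul]
  unfold PP
  refine Finset.prod_congr ?_ ?_
  · ext p
    simp only [Finset.mem_erase, Finset.mem_filter, Finset.mem_range]
    constructor
    · rintro ⟨h4, h5, h6⟩
      exact ⟨h5, h6, h6.odd_of_ne_two h4⟩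
    · rintro ⟨h5, h6, h7⟩
      refine ⟨?_, h5, h6⟩
      rintro rfl
      exact absurd h7 (by decide)
  · intro p hp
    rw [Finset.mem_filter] at hp
    have hp1 : (1 : ℝ) < p := by exact_mod_cast hp.2.1.one_lt
    have hp2 : p ≠ 2 := by
      rintro rfl
      exact absurd hp.2.2 (by decide)
    rw [Sc_prime hp.2.1 hp2]
    have h4 : (p : ℝ) - 1 ≠ 0 := by linarith
    have h5 : (p : ℝ) ≠ 0 := by linarith
    have h6 : (1 - (p : ℝ)⁻¹)⁻¹ = p / (p - 1) := by
      rw [show (1 - (p : ℝ)⁻¹) = (p - 1) / p by field_simp, inv_div]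
    rw [h6]
    field_simp
    ring

theorem PP_tendsto : ∃ L : ℝ, 0 < L ∧ Tendsto PP atTop (𝓝 L) := by
  have h0 : ¬ IsSquare (-1 : ℤ) := by
    rintro ⟨r, hr⟩
    nlinarith [mul_self_nonneg r]
  obtain ⟨L, hL, ht⟩ := PJ_tendsto (-1) h0 2 le_rfl
  refine ⟨L, hL, ht.congr fun x => ?_⟩
  unfold Pool.Agent.W468.ConjF.PJ PP
  refine Finset.prod_congr ?_ ?_
  · ext p
    simp only [Finset.mem_filter, Finset.mem_Ioc, Finset.mem_range]
    constructor
    · rintro ⟨⟨h1, h2⟩, h3⟩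
      exact ⟨by omega, h3, h3.odd_of_ne_two (by omega)⟩
    · rintro ⟨h1, h2, h3⟩
      have : p ≠ 2 := by rintro rfl; exact absurd h3 (by decide)
      have := h2.two_le
      exact ⟨⟨by omega, by omega⟩, h2⟩
  · intro p hp
    simp only [Finset.mem_filter] at hp
    rw [jacobiSym.at_neg_one hp.2.2]

theorem DV_tendsto {L : ℝ} (h : Tendsto PP atTop (𝓝 L)) : Tendsto (fun k => Dk f1 k * VV k) atTop (𝓝 L) := by
  refine h.congr' ?_
  filter_upwards [eventually_ge_atTop 2] with k hk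
  exact (DV_eq hk).symm

end Pool.Agent.Y122.MH
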