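import Pool.Agent.Y122.MH.Final2

/-! Translation: from logarithms to integer parts. -/

set_option autoImplicit false

namespace Pool.Agent.Y122.MH

open MeasureTheory Polynomial Filter Topology
open Pool.Agent.H305R2 (NN ff VV roughPart)

lemma NN_floor {v : ℝ} (hv : 0 < v) {α : ℝ} (hα0 : 0 < α) (hirr : Irrational (α * v)) :
    NN (Real.log v + Real.log α) = ⌊α * v⌋₊ := by
  unfold Pool.Agent.H305R2.NN
  rw [Real.exp_add, Real.exp_log hv, Real.exp_log hα0, mul_comm v α]
  set x := α * v with hx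
  have hx0 : 0 < x := by positivity
  have h1 : ⌈x⌉₊ = ⌊x⌋₊ + 1 := by
    rw [Nat.ceil_eq_iff (by omega)]
    constructor
    · rw [Nat.add_sub_cancel]
      refine lt_of_le_of_ne (Nat.floor_le hx0.le) fun h => ?_
      exact hirr ⟨(⌊x⌋₊ : ℚ), by push_cast; exact h⟩
    · push_cast
      exact (Nat.lt_floor_add_one x).le
  omega

lemma dim_exp {E : Set ℝ} (hE : dimH E < 1) : ∃ E' : Set ℝ, dimH E' < 1 ∧
    ∀ α : ℝ, α ∉ E' → Irrational α ∧ (0 < α → Real.log α ∉ E) := by
  refine ⟨Real.exp '' E ∪ Set.range ((↑) : ℚ → ℝ), ?_, ?_⟩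
  · rw [dimH_union, max_lt_iff]
    constructor
    · refine lt_of_le_of_lt ?_ hE
      exact (Real.contDiff_exp.contDiffOn (s := Set.univ) (n := 1)).dimH_image_le convex_univ
        (Set.subset_univ E)
    · rw [(Set.countable_range _).dimH_zero]
      exact zero_lt_one
  · intro α hα
    rw [Set.mem_union, not_or] at hα
    refine ⟨hα.2, fun h0 h => hα.1 ⟨Real.log α, h, Real.exp_log h0⟩⟩

lemma Cop_primorial (f : ℤ[X]) (k n : ℕ) :
    Cop f (primorial k) n ↔ ∀ p : ℕ, p.Prime → p ≤ k → ¬ (p : ℤ) ∣ f.eval (n : ℤ) := by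
  have h1 : Cop f (primorial k) n ↔ ∀ p ∈ (Finset.range (k + 1)).filter Nat.Prime,
      Nat.Coprime (f.eval (n : ℤ)).natAbs p := by
    unfold Cop primorial
    rw [Int.gcd, Int.natAbs_natCast]
    exact Nat.coprime_prod_right_iff
  rw [h1]
  constructor
  · intro h p hp hpk hd
    have h2 := h p (Finset.mem_filter.2 ⟨Finset.mem_range.2 (by omega), hp⟩)
    rw [Nat.coprime_comm, Nat.Prime.coprime_iff_not_dvd hp] at h2
    exact h2 (Int.natCast_dvd.1 hd)
  · intro h p hp
    rw [Finset.mem_filter, Finset.mem_range] at hp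
    rw [Nat.coprime_comm, Nat.Prime.coprime_iff_not_dvd hp.2]
    intro hd
    exact h p hp.2 (by omega) (Int.natCast_dvd.2 hd)

lemma rough_one {k m : ℕ} (hm : 1 ≤ m) :
    ((∀ p : ℕ, p.Prime → p ≤ k → ¬ p ∣ m) ∧ (roughPart k m).Prime) ↔ m.Prime ∧ k < m := by
  constructor
  · rintro ⟨h1, h2⟩
    have h3 : roughPart k m = m := by
      unfold Pool.Agent.H305R2.roughPart
      rw [List.filter_eq_self.2]
      · exact Nat.prod_primeFactorsList (by omega)
      · intro r hr
        have h4 := Nat.prime_of_mem_primeFactorsList hr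
        have h5 := Nat.dvd_of_mem_primeFactorsList hr
        rw [decide_eq_true_eq]
        by_contra h6
        exact h1 r h4 (by omega) h5
    rw [h3] at h2
    refine ⟨h2, ?_⟩
    by_contra h6
    exact h1 m h2 (by omega) dvd_rfl
  · rintro ⟨h1, h2⟩
    refine ⟨fun p hp hpk hd => ?_, ?_⟩
    · have := (Nat.prime_dvd_prime_iff_eq hp h1).1 hd
      omega
    · unfold Pool.Agent.H305R2.roughPart
      rw [Nat.primeFactorsList_prime h1]
      simp [h2, h1]

end Pool.Agent.Y122.MH
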