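import Pool.Agent.Y122.MH.Law
import Pool.Agent.H305R2.Rough

/-! Densities of the values of a polynomial without small prime factors. -/

set_option autoImplicit false

namespace Pool.Agent.Y122.MH

open Finset Polynomial

/-- sums over complete systems modulo coprime numbers (copied from `Pool.Agent.TH204.WR.W12`) -/
lemma crt_sum (p q : ℕ) (hpq : Nat.Coprime p q) (hp : 0 < p) (hq : 0 < q) (U V : ℕ → ℝ)
    (hU : ∀ n, U (n % p) = U n) (hV : ∀ n, V (n % q) = V n) :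
    ∑ s ∈ range (p * q), U s * V s = (∑ i ∈ range p, U i) * ∑ j ∈ range q, V j := by
  rw [sum_mul_sum, ← sum_product']
  refine sum_nbij' (fun s => (s % p, s % q)) (fun ij => (Nat.chineseRemainder hpq ij.1 ij.2 : ℕ)) ?_ ?_ ?_ ?_ ?_
  · intro s _
    rw [mem_product, mem_range, mem_range]
    exact ⟨Nat.mod_lt _ hp, Nat.mod_lt _ hq⟩
  · intro ij _
    rw [mem_range]
    exact Nat.chineseRemainder_lt_mul hpq _ _ hp.ne' hq.ne'
  · intro s hs
    rw [mem_range] at hs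
    have h1 := (Nat.chineseRemainder hpq (s % p) (s % q)).2
    have h2 := Nat.chineseRemainder_lt_mul hpq (s % p) (s % q) hp.ne' hq.ne'
    have h3 : (Nat.chineseRemainder hpq (s % p) (s % q) : ℕ) ≡ s [MOD p * q] := by
      rw [← Nat.modEq_and_modEq_iff_modEq_mul hpq]
      exact ⟨h1.1.trans (Nat.mod_modEq _ _), h1.2.trans (Nat.mod_modEq _ _)⟩
    exact Nat.ModEq.eq_of_lt_of_lt h3 h2 hs
  · intro ij hij
    rw [mem_product, mem_range, mem_range] at hij
    have h1 := (Nat.chineseRemainder hpq ij.1 ij.2).2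
    apply Prod.ext
    · show (Nat.chineseRemainder hpq ij.1 ij.2 : ℕ) % p = ij.1
      have := h1.1
      unfold Nat.ModEq at this
      rw [this, Nat.mod_eq_of_lt hij.1]
    · show (Nat.chineseRemainder hpq ij.1 ij.2 : ℕ) % q = ij.2
      have := h1.2
      unfold Nat.ModEq at this
      rw [this, Nat.mod_eq_of_lt hij.2]
  · intro s _
    show U s * V s = U (s % p) * V (s % q)
    rw [hU, hV]

/-- `f (n)` is prime to `Q` -/
def Cop (f : ℤ[X]) (Q n : ℕ) : Prop := Int.gcd (f.eval (n : ℤ)) Q = 1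

instance (f : ℤ[X]) (Q n : ℕ) : Decidable (Cop f Q n) := by unfold Cop; infer_instance

lemma Cop_mod (f : ℤ[X]) (Q n : ℕ) : Cop f Q (n % Q) ↔ Cop f Q n := by
  unfold Cop
  have h1 : (Q : ℤ) ∣ f.eval (n : ℤ) - f.eval ((n % Q : ℕ) : ℤ) := by
    refine dvd_trans ?_ (f.sub_dvd_eval_sub (n : ℤ) ((n % Q : ℕ) : ℤ))
    push_cast
    exact Int.dvd_self_sub_emod
  obtain ⟨c, hc⟩ := h1
  have h2 : f.eval (n : ℤ) = f.eval ((n % Q : ℕ) : ℤ) + Q * c := by linarith
  rw [h2]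
  simp

lemma Cop_mul (f : ℤ[X]) (p q n : ℕ) : Cop f (p * q) n ↔ Cop f p n ∧ Cop f q n := by
  unfold Cop
  rw [Int.gcd, Int.gcd, Int.gcd, Int.natAbs_natCast, Int.natAbs_natCast, Int.natAbs_natCast]
  exact Nat.coprime_mul_iff_right

lemma Cop_prime (f : ℤ[X]) {p : ℕ} (hp : p.Prime) (n : ℕ) : Cop f p n ↔ ¬ (p : ℤ) ∣ f.eval (n : ℤ) := by
  unfold Cop
  rw [Int.gcd, Int.natAbs_natCast, Nat.gcd_comm]
  rw [show ((p.gcd (f.eval (n : ℤ)).natAbs = 1) ↔ Nat.Coprime p (f.eval (n : ℤ)).natAbs) from Iff.rfl,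
    Nat.Prime.coprime_iff_not_dvd hp, Int.natCast_dvd]

/-- the number of classes modulo `Q` where `f` is prime to `Q` -/
def Sc (f : ℤ[X]) (Q : ℕ) : ℕ := ((range Q).filter (fun n => Cop f Q n)).card

lemma Sc_eq (f : ℤ[X]) (Q : ℕ) : (Sc f Q : ℝ) = ∑ n ∈ range Q, if Cop f Q n then (1 : ℝ) else 0 := by
  unfold Sc
  rw [← sum_filter]
  simp

lemma Sc_mul (f : ℤ[X]) {p q : ℕ} (hpq : Nat.Coprime p q) (hp : 0 < p) (hq : 0 < q) :
    (Sc f (p * q) : ℝ) = Sc f p * Sc f q := by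
  rw [Sc_eq, Sc_eq, Sc_eq, ← crt_sum p q hpq hp hq]
  · refine sum_congr rfl fun n _ => ?_
    by_cases h1 : Cop f p n
    · by_cases h2 : Cop f q n
      · rw [if_pos h1, if_pos h2, if_pos ((Cop_mul f p q n).2 ⟨h1, h2⟩), one_mul]
      · rw [if_neg h2, mul_zero, if_neg fun h => h2 ((Cop_mul f p q n).1 h).2]
    · rw [if_neg h1, zero_mul, if_neg fun h => h1 ((Cop_mul f p q n).1 h).1]
  · intro n
    simp only [Cop_mod]
  · intro n
    simp only [Cop_mod]

lemma Sc_one (f : ℤ[X]) : Sc f 1 = 1 := by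
  unfold Sc
  rw [card_eq_one]
  refine ⟨0, ?_⟩
  ext n
  simp [Cop]

lemma Sc_prod (f : ℤ[X]) (S : Finset ℕ) (hS : ∀ p ∈ S, p.Prime) :
    (Sc f (∏ p ∈ S, p) : ℝ) = ∏ p ∈ S, (Sc f p : ℝ) := by
  induction S using Finset.induction_on with
  | empty => simp [Sc_one]
  | insert p S hp ih =>
    rw [prod_insert hp, prod_insert hp, Sc_mul, ih fun q hq => hS q (mem_insert_of_mem hq)]
    · apply Nat.Coprime.prod_right
      intro q hq
      rw [Nat.coprime_primes (hS p (mem_insert_self p S)) (hS q (mem_insert_of_mem hq))]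
      rintro rfl
      exact hp hq
    · exact (hS p (mem_insert_self p S)).pos
    · exact prod_pos fun q hq => (hS q (mem_insert_of_mem hq)).pos

/-- the density of the `n` with `f n` free of primes `≤ k` -/
noncomputable def Dk (f : ℤ[X]) (k : ℕ) : ℝ := (Sc f (primorial k) : ℝ) / primorial k

lemma Dk_eq (f : ℤ[X]) (k : ℕ) : Dk f k = ∏ p ∈ (range (k + 1)).filter Nat.Prime, (Sc f p : ℝ) / p := by
  unfold Dk primorial
  rw [Sc_prod f _ fun p hp => (mem_filter.1 hp).2, prod_div_distrib]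
  push_cast
  rfl

end Pool.Agent.Y122.MH
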