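import Pool.Agent.Y122.MH.MainT
import Pool.Agent.Y122.MH.Dens

/-! Polynomial values without small prime factors, and prime rough parts: dyadic blocks. -/

set_option autoImplicit false

namespace Pool.Agent.Y122.MH

open MeasureTheory Polynomial Filter Topology
open Pool.Agent.H305R2 (NN ff VV measurable_ff ff_nonneg ff_le_one VV_nonneg roughPart)

/-- the real polynomial -/
noncomputable def gR (f : ℤ[X]) : ℝ[X] := f.map (Int.castRingHom ℝ)

lemma gR_eval (f : ℤ[X]) (n : ℕ) : (gR f).eval (n : ℝ) = ((f.eval (n : ℤ) : ℤ) : ℝ) := by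
  unfold gR
  rw [Polynomial.eval_map, show (n : ℝ) = (Int.castRingHom ℝ) (n : ℤ) by simp, Polynomial.eval₂_at_apply]
  rfl

lemma gR_natDegree (f : ℤ[X]) : (gR f).natDegree = f.natDegree :=
  natDegree_map_eq_of_injective (Int.castRingHom ℝ).injective_int f

lemma gR_leadingCoeff (f : ℤ[X]) : (gR f).leadingCoeff = (f.leadingCoeff : ℝ) := by
  unfold gR
  rw [leadingCoeff_map_of_injective (Int.castRingHom ℝ).injective_int]
  rfl

/-- the count -/
noncomputable def cn (f : ℤ[X]) (k : ℕ) (a : ℝ) (A B : ℕ) : ℕ :=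
  ((Finset.Ioc A B).filter (fun n => Cop f (primorial k) n ∧
    (roughPart k (NN (Real.log ((gR f).eval (n : ℝ)) + a))).Prime)).card

lemma primorial_pos' (k : ℕ) : 0 < primorial k := primorial_pos k

theorem block (f : ℤ[X]) (hd : 1 ≤ f.natDegree) (hlc : 0 < f.leadingCoeff) :
    ∃ η : ℝ, 0 < η ∧ η ≤ 1 / 2 ∧ ∃ E : Set ℝ, dimH E ≤ ENNReal.ofReal (1 - η) ∧ ∀ a : ℝ, a ∉ E →
    ∀ ε : ℝ, 0 < ε → ∀ᶠ i : ℕ in atTop, ∀ k : ℕ, 8 * k ≤ i → ∀ N : ℕ, 2 ^ i ≤ N → N ≤ 2 ^ (i + 1) →
      |(cn f k a (2 ^ i) N : ℝ) - Dk f k * (VV k / (f.natDegree * Real.log 2 * i) * ((N : ℝ) - 2 ^ i))| ≤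
        Dk f k * (ε * (VV k / i * 2 ^ i)) + 3 * ((2 : ℝ) ^ i) ^ (1 - η) := by
  classical
  have hd' : 1 ≤ (gR f).natDegree := by rw [gR_natDegree]; exact hd
  have hlc' : 0 < (gR f).leadingCoeff := by rw [gR_leadingCoeff]; exact_mod_cast hlc
  obtain ⟨η, hη, hη1, hlaw⟩ := law (gR f) hd' hlc'
  refine ⟨η, hη, hη1, ?_⟩
  have hM : ∀ᶠ i : ℕ in atTop, (((i / 8 + 1 : ℕ)) : ℝ) ≤ ((2 : ℝ) ^ i) ^ η := by
    have hr : (1 : ℝ) < 2 ^ η := Real.one_lt_rpow (by norm_num) hη
    have h1 := tendsto_pow_const_div_const_pow_of_one_lt 1 hr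
    have h2 := h1.eventually_lt_const (show (0 : ℝ) < 1 / 2 by norm_num)
    filter_upwards [h2, eventually_ge_atTop 1] with i h3 h4
    have h5 : (1 : ℝ) ≤ i := by exact_mod_cast h4
    have h6 : 0 < ((2 : ℝ) ^ η) ^ i := by positivity
    rw [pow_one, div_lt_iff₀ h6] at h3
    have h7 : ((2 : ℝ) ^ i) ^ η = ((2 : ℝ) ^ η) ^ i := by
      rw [← Real.rpow_natCast, ← Real.rpow_natCast, ← Real.rpow_mul (by norm_num),
        ← Real.rpow_mul (by norm_num), mul_comm]
    rw [h7]
    have h8 : (((i / 8 : ℕ)) : ℝ) ≤ i := by exact_mod_cast Nat.div_le_self i 8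
    push_cast
    linarith
  obtain ⟨E, hE, hlawE⟩ := hlaw (fun i => i / 8 + 1) (fun _ k => primorial k)
    (fun _ k => (Finset.range (primorial k)).filter (fun n => Cop f (primorial k) n))
    (fun _ k => {m | (roughPart k m).Prime}) hM
    (Eventually.of_forall fun i k _ => primorial_pos' k)
    (Eventually.of_forall fun i k hk => by
      have hk8 : 8 * k ≤ i := by omega
      calc (primorial k) ^ 4 ≤ (4 ^ k) ^ 4 := Nat.pow_le_pow_left (primorial_le_four_pow k) 4
        _ = 2 ^ (8 * k) := by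
            rw [show (4 : ℕ) = 2 ^ 2 by norm_num, ← pow_mul, ← pow_mul]
            congr 1
            ring
        _ ≤ 2 ^ i := Nat.pow_le_pow_right (by norm_num) hk8)
    (Eventually.of_forall fun i k _ => Finset.filter_subset _ _)
    (Eventually.of_forall fun i k _ => by
      show ¬ (roughPart k 0).Prime
      simp [Pool.Agent.H305R2.roughPart, Nat.not_prime_one])
  refine ⟨E, hE, fun a ha ε hε => ?_⟩
  have hmain := main_term (gR f) hd' hlc' a hε
  filter_upwards [hlawE a ha, hmain] with i h1 h2 k hk N hN1 hN2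
  have h3 := h1 k (by omega) N hN1 hN2
  have hN1r : (2 : ℝ) ^ i ≤ N := by exact_mod_cast hN1
  have hN2r : (N : ℝ) ≤ 2 * 2 ^ i := by
    have : (N : ℝ) ≤ (2 : ℝ) ^ (i + 1) := by exact_mod_cast hN2
    rw [pow_succ] at this
    linarith
  have h4 := h2 k (by omega) (N : ℝ) hN1r hN2r
  have hQ0 : (0 : ℝ) < primorial k := by exact_mod_cast primorial_pos' k
  have hhT : ∀ y : ℝ, hT {m | (roughPart k m).Prime} y = ff k y := fun y => by
    unfold hT Pool.Agent.H305R2.ff
    by_cases h : (roughPart k (NN y)).Prime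
    · rw [if_pos h, if_pos (show NN y ∈ {m | (roughPart k m).Prime} from h)]
    · rw [if_neg h, if_neg (show ¬ NN y ∈ {m | (roughPart k m).Prime} from h)]
  have e1 : EE (gR f) (2 ^ i) N (primorial k) ((Finset.range (primorial k)).filter
      (fun n => Cop f (primorial k) n)) {m | (roughPart k m).Prime} a =
      (cn f k a (2 ^ i) N : ℝ) - Dk f k * ∫ x in ((2 : ℝ) ^ i)..N, ff k (Real.log ((gR f).eval x) + a) := by
    unfold EE
    congr 1
    · unfold cn
      rw [← Finset.filter_filter, Finset.card_filter]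
      push_cast
      have e2 : (Finset.Ioc (2 ^ i) N).filter (fun n => n % primorial k ∈
          (Finset.range (primorial k)).filter (fun n => Cop f (primorial k) n)) =
          (Finset.Ioc (2 ^ i) N).filter (fun n => Cop f (primorial k) n) := by
        refine Finset.filter_congr fun n _ => ?_
        rw [Finset.mem_filter, Finset.mem_range, Cop_mod]
        exact and_iff_right (Nat.mod_lt _ (primorial_pos' k))
      rw [e2]
      refine Finset.sum_congr rfl fun n _ => ?_
      rw [hhT]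
      rfl
    · have e3 : (((Finset.range (primorial k)).filter (fun n => Cop f (primorial k) n)).card : ℝ) /
          primorial k = Dk f k := rfl
      rw [e3]
      congr 1
      push_cast
      exact intervalIntegral.integral_congr fun x _ => hhT _
  rw [e1] at h3
  rw [gR_natDegree] at h4
  have hD0 : 0 ≤ Dk f k := by unfold Dk; positivity
  set I := ∫ x in ((2 : ℝ) ^ i)..N, ff k (Real.log ((gR f).eval x) + a) with hI
  have e4 : (cn f k a (2 ^ i) N : ℝ) - Dk f k * (VV k / (f.natDegree * Real.log 2 * i) * ((N : ℝ) - 2 ^ i)) =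
      ((cn f k a (2 ^ i) N : ℝ) - Dk f k * I) +
        Dk f k * (I - VV k / (f.natDegree * Real.log 2 * i) * ((N : ℝ) - 2 ^ i)) := by ring
  rw [e4]
  refine (abs_add_le _ _).trans ?_
  rw [abs_mul, abs_of_nonneg hD0]
  have h5 := mul_le_mul_of_nonneg_left h4 hD0
  linarith

end Pool.Agent.Y122.MH
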