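import Pool.Agent.Y122.MH.Exp

/-! Derivatives of the logarithm of a polynomial. -/

set_option autoImplicit false

namespace Pool.Agent.Y122.MH

open Filter Topology Polynomial

/-- real part of the power sum of the numbers `1 / (x - ρ)` -/
noncomputable def Sg (s : Multiset ℂ) (m : ℕ) (x : ℝ) : ℝ :=
  ((s.map fun ρ => (((x : ℂ) - ρ)⁻¹) ^ m).sum).re

lemma hasDerivAt_term (ρ : ℂ) (m : ℕ) {x : ℝ} (hx : (x : ℂ) ≠ ρ) :
    HasDerivAt (fun x : ℝ => (((x : ℂ) - ρ)⁻¹) ^ m) (-(m : ℂ) * (((x : ℂ) - ρ)⁻¹) ^ (m + 1)) x := by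
  have h0 : (x : ℂ) - ρ ≠ 0 := sub_ne_zero.2 hx
  have h1 : HasDerivAt (fun z : ℂ => z - ρ) 1 (x : ℂ) := (hasDerivAt_id _).sub_const ρ
  have h2 := (h1.inv h0).pow m
  have h3 := h2.comp_ofReal
  refine h3.congr_deriv ?_
  rcases Nat.eq_zero_or_pos m with rfl | hm
  · simp
  · obtain ⟨k, rfl⟩ := Nat.exists_eq_add_of_lt hm
    simp only [zero_add, Nat.add_sub_cancel, Pi.inv_apply]
    have h5 : (-1 : ℂ) / ((x : ℂ) - ρ) ^ 2 = -(((x : ℂ) - ρ)⁻¹) ^ 2 := by
      rw [inv_pow, neg_div, one_div]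
    rw [h5]
    ring

lemma hasDerivAt_Sg (s : Multiset ℂ) (m : ℕ) {x : ℝ} (hx : ∀ ρ ∈ s, (x : ℂ) ≠ ρ) :
    HasDerivAt (Sg s m) (-(m : ℝ) * Sg s (m + 1) x) x := by
  have h1 : HasDerivAt (fun x : ℝ => (s.map fun ρ => (((x : ℂ) - ρ)⁻¹) ^ m).sum)
      (-(m : ℂ) * (s.map fun ρ => (((x : ℂ) - ρ)⁻¹) ^ (m + 1)).sum) x := by
    induction s using Multiset.induction_on with
    | empty =>
      simp only [Multiset.map_zero, Multiset.sum_zero, mul_zero]
      exact hasDerivAt_const _ _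
    | cons ρ s ih =>
      simp only [Multiset.map_cons, Multiset.sum_cons]
      have h2 := (hasDerivAt_term ρ m (hx ρ (Multiset.mem_cons_self ρ s))).add
        (ih fun ρ' h => hx ρ' (Multiset.mem_cons_of_mem h))
      refine h2.congr_deriv ?_
      ring
  have h2 := Complex.reCLM.hasFDerivAt.comp_hasDerivAt x h1
  refine h2.congr_deriv ?_
  show (-(m : ℂ) * (s.map fun ρ => (((x : ℂ) - ρ)⁻¹) ^ (m + 1)).sum).re = _
  rw [show (-(m : ℂ)) = ((-(m : ℝ) : ℝ) : ℂ) by push_cast; ring, Complex.re_ofReal_mul]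
  rfl

lemma tendsto_term (ρ : ℂ) (m : ℕ) :
    Tendsto (fun x : ℝ => ((x : ℂ) ^ m * (((x : ℂ) - ρ)⁻¹) ^ m)) atTop (𝓝 1) := by
  have h1 : Tendsto (fun x : ℝ => (x : ℂ) * ((x : ℂ) - ρ)⁻¹) atTop (𝓝 1) := by
    have h2 : Tendsto (fun x : ℝ => (1 - ρ * (x : ℂ)⁻¹)⁻¹) atTop (𝓝 1) := by
      have h3 : Tendsto (fun x : ℝ => (x : ℂ)⁻¹) atTop (𝓝 0) := by
        have h4 := (Complex.continuous_ofReal.tendsto 0).comp tendsto_inv_atTop_zero
        simp only [Complex.ofReal_zero] at h4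
        refine h4.congr fun x => ?_
        simp
      have h5 := ((tendsto_const_nhds (x := (1 : ℂ))).sub (h3.const_mul ρ)).inv₀ (by simp)
      simpa using h5
    refine h2.congr' ?_
    filter_upwards [eventually_gt_atTop 0] with x hx
    have hx0 : (x : ℂ) ≠ 0 := by exact_mod_cast hx.ne'
    rw [show (1 : ℂ) - ρ * (x : ℂ)⁻¹ = ((x : ℂ) - ρ) * (x : ℂ)⁻¹ by field_simp, mul_inv, inv_inv,
      mul_comm]
  have h2 := h1.pow m
  rw [one_pow] at h2
  refine h2.congr fun x => ?_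
  rw [mul_pow]

lemma tendsto_Sg (s : Multiset ℂ) (m : ℕ) :
    Tendsto (fun x : ℝ => x ^ m * Sg s m x) atTop (𝓝 (Multiset.card s)) := by
  have h1 : Tendsto (fun x : ℝ => (x : ℂ) ^ m * (s.map fun ρ => (((x : ℂ) - ρ)⁻¹) ^ m).sum) atTop
      (𝓝 (Multiset.card s)) := by
    induction s using Multiset.induction_on with
    | empty => simp
    | cons ρ s ih =>
      simp only [Multiset.map_cons, Multiset.sum_cons, Multiset.card_cons, mul_add]
      have := (tendsto_term ρ m).add ih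
      push_cast
      rw [add_comm (Multiset.card s : ℂ)]
      exact this
  have h2 := (Complex.continuous_re.tendsto _).comp h1
  rw [Complex.natCast_re] at h2
  refine h2.congr fun x => ?_
  show ((x : ℂ) ^ m * (s.map fun ρ => (((x : ℂ) - ρ)⁻¹) ^ m).sum).re = _
  rw [← Complex.ofReal_pow, Complex.re_ofReal_mul]
  rfl

/-- the chain of derivatives of `log g` -/
noncomputable def Fc (g : ℝ[X]) : ℕ → ℝ → ℝ
  | 0 => fun x => Real.log (g.eval x)
  | m + 1 => fun x => (-1) ^ m * (m.factorial : ℝ) * Sg (g.map (algebraMap ℝ ℂ)).roots (m + 1) x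

theorem chain (g : ℝ[X]) (hd : 1 ≤ g.natDegree) (hlc : 0 < g.leadingCoeff) (M : ℕ) :
    ∃ c0 C0 X0 : ℝ, 0 < c0 ∧ 0 ≤ C0 ∧ 1 ≤ X0 ∧ (∀ x, X0 ≤ x → 1 ≤ g.eval x) ∧
    (∀ m ≤ M + 4, ∀ x, X0 ≤ x → HasDerivAt (Fc g m) (Fc g (m + 1) x) x) ∧
    (∀ m, 1 ≤ m → m ≤ M + 4 → ∀ x, X0 ≤ x →
      c0 ≤ (-1) ^ (m + 1) * Fc g m x * x ^ m ∧ (-1) ^ (m + 1) * Fc g m x * x ^ m ≤ C0) := by
  set s := (g.map (algebraMap ℝ ℂ)).roots with hs
  have hg0 : g ≠ 0 := fun h => by rw [h] at hd; simp at hd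
  have hinj : Function.Injective (algebraMap ℝ ℂ) := (algebraMap ℝ ℂ).injective
  have hg0' : g.map (algebraMap ℝ ℂ) ≠ 0 := (Polynomial.map_ne_zero_iff hinj).2 hg0
  have hcard : Multiset.card s = g.natDegree := by
    rw [hs, ← (IsAlgClosed.splits (g.map (algebraMap ℝ ℂ))).natDegree_eq_card_roots, natDegree_map]
  -- eventually no root, positive value
  have hpos : ∀ᶠ x : ℝ in atTop, 1 ≤ g.eval x := by
    have h1 : Tendsto (fun x => g.eval x) atTop atTop := by
      rw [Polynomial.tendsto_atTop_iff_leadingCoeff_nonneg]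
      exact ⟨Polynomial.natDegree_pos_iff_degree_pos.1 hd, hlc.le⟩
    exact h1.eventually_ge_atTop 1
  have hev : ∀ᶠ x : ℝ in atTop, ∀ m ≤ M + 4, (g.natDegree : ℝ) / 2 ≤ x ^ m * Sg s m x ∧
      x ^ m * Sg s m x ≤ 2 * g.natDegree := by
    have hd0 : (0 : ℝ) < g.natDegree := by exact_mod_cast hd
    rw [← hcard] at hd0 ⊢
    have h2 : ∀ m ∈ Finset.range (M + 5), ∀ᶠ x : ℝ in atTop,
        ((Multiset.card s : ℕ) : ℝ) / 2 ≤ x ^ m * Sg s m x ∧
      x ^ m * Sg s m x ≤ 2 * (Multiset.card s : ℕ) := by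
      intro m _
      have h3 := tendsto_Sg s m
      filter_upwards [h3.eventually_const_lt (show ((Multiset.card s : ℕ) : ℝ) / 2 <
        (Multiset.card s : ℕ) by linarith), h3.eventually_lt_const
        (show ((Multiset.card s : ℕ) : ℝ) < 2 * (Multiset.card s : ℕ) by linarith)] with x h4 h5
      exact ⟨h4.le, h5.le⟩
    have h4 := (Finset.eventually_all (Finset.range (M + 5))).2 h2
    filter_upwards [h4] with x hx m hm
    exact hx m (Finset.mem_range.2 (by omega))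
  obtain ⟨X0, hX0⟩ := (hpos.and (hev.and (eventually_ge_atTop (1 : ℝ)))).exists_forall_of_atTop
  have hd1 : (1 : ℝ) ≤ g.natDegree := by exact_mod_cast hd
  have hroot : ∀ x, max X0 1 ≤ x → ∀ ρ ∈ s, (x : ℂ) ≠ ρ := by
    intro x hx ρ hρ h
    have h1 := (hX0 x ((le_max_left _ _).trans hx)).1
    rw [hs, mem_roots hg0', IsRoot.def, ← h] at hρ
    have h2 : (g.map (algebraMap ℝ ℂ)).eval ((x : ℝ) : ℂ) = ((g.eval x : ℝ) : ℂ) := by
      have := Polynomial.eval_map_algebraMap (B := ℂ) g ((x : ℝ) : ℂ)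
      rw [this]
      exact (Polynomial.aeval_algebraMap_apply ℂ x g)
    rw [h2] at hρ
    have h3 : g.eval x = 0 := by exact_mod_cast hρ
    linarith
  refine ⟨(g.natDegree : ℝ) / 2, 2 * g.natDegree * ((M + 4).factorial : ℝ), max X0 1, by positivity,
    by positivity, le_max_right _ _, fun x hx => (hX0 x ((le_max_left _ _).trans hx)).1, ?_, ?_⟩
  · intro m hm x hx
    cases m with
    | zero =>
      have hgx := (hX0 x ((le_max_left _ _).trans hx)).1
      have h1 : HasDerivAt (fun x => Real.log (g.eval x)) (g.derivative.eval x / g.eval x) x :=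
        (g.hasDerivAt x).log (by linarith)
      show HasDerivAt (fun x => Real.log (g.eval x))
        ((-1) ^ 0 * ((Nat.factorial 0 : ℕ) : ℝ) * Sg s (0 + 1) x) x
      refine h1.congr_deriv ?_
      have h2 : (g.map (algebraMap ℝ ℂ)).eval ((x : ℝ) : ℂ) = ((g.eval x : ℝ) : ℂ) := by
        have := Polynomial.eval_map_algebraMap (B := ℂ) g ((x : ℝ) : ℂ)
        rw [this]
        exact (Polynomial.aeval_algebraMap_apply ℂ x g)
      have h3 : (g.map (algebraMap ℝ ℂ)).derivative.eval ((x : ℝ) : ℂ) =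
          ((g.derivative.eval x : ℝ) : ℂ) := by
        rw [Polynomial.derivative_map]
        have := Polynomial.eval_map_algebraMap (B := ℂ) g.derivative ((x : ℝ) : ℂ)
        rw [this]
        exact (Polynomial.aeval_algebraMap_apply ℂ x g.derivative)
      have h4 : (g.map (algebraMap ℝ ℂ)).eval ((x : ℝ) : ℂ) ≠ 0 := by
        rw [h2]
        have : g.eval x ≠ 0 := by linarith
        exact_mod_cast this
      have h5 := (IsAlgClosed.splits (g.map (algebraMap ℝ ℂ))).eval_derivative_div_eval_of_ne_zero h4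
      rw [h2, h3] at h5
      unfold Sg
      simp only [Nat.factorial_zero, Nat.cast_one, pow_zero, one_mul, zero_add, pow_one]
      have h6 : (s.map fun ρ => (((x : ℝ) : ℂ) - ρ)⁻¹).sum =
          ((g.derivative.eval x / g.eval x : ℝ) : ℂ) := by
        push_cast
        rw [h5]
        simp [hs]
      rw [h6, Complex.ofReal_re]
    | succ m =>
      show HasDerivAt (fun x => (-1) ^ m * (m.factorial : ℝ) * Sg s (m + 1) x)
        ((-1) ^ (m + 1) * ((m + 1).factorial : ℝ) * Sg s (m + 1 + 1) x) x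
      refine ((hasDerivAt_Sg s (m + 1) (hroot x hx)).const_mul _).congr_deriv ?_
      rw [Nat.factorial_succ]
      push_cast
      ring
  · intro m hm1 hm2 x hx
    obtain ⟨k, rfl⟩ := Nat.exists_eq_add_of_le' hm1
    have h1 := (hX0 x ((le_max_left _ _).trans hx)).2.1 (k + 1) hm2
    have e1 : (-1) ^ (k + 1 + 1) * Fc g (k + 1) x * x ^ (k + 1) =
        (k.factorial : ℝ) * (x ^ (k + 1) * Sg s (k + 1) x) := by
      show (-1) ^ (k + 1 + 1) * ((-1) ^ k * (k.factorial : ℝ) * Sg s (k + 1) x) * x ^ (k + 1) = _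
      have : ((-1 : ℝ)) ^ (k + 1 + 1) * (-1) ^ k = 1 := by
        rw [← pow_add]
        exact Even.neg_one_pow ⟨k + 1, by ring⟩
      calc _ = ((-1 : ℝ) ^ (k + 1 + 1) * (-1) ^ k) * ((k.factorial : ℝ) * (x ^ (k + 1) * Sg s (k + 1) x)) := by ring
        _ = _ := by rw [this, one_mul]
    rw [e1]
    have hk1 : (1 : ℝ) ≤ (k.factorial : ℝ) := by exact_mod_cast Nat.one_le_iff_ne_zero.2 (Nat.factorial_ne_zero k)
    have hk2 : (k.factorial : ℝ) ≤ ((M + 4).factorial : ℝ) := by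
      exact_mod_cast Nat.factorial_le (by omega)
    constructor
    · nlinarith [h1.1]
    · calc (k.factorial : ℝ) * (x ^ (k + 1) * Sg s (k + 1) x) ≤
          ((M + 4).factorial : ℝ) * (2 * g.natDegree) := by
            refine mul_le_mul hk2 h1.2 ?_ (by positivity)
            linarith [h1.1]
        _ = _ := by ring

end Pool.Agent.Y122.MH
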