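import Pool.Agent.Y122.MH.Prog
import Pool.Agent.Y122.MH.Chain

/-! The mean square law in short intervals, with conditions modulo `Q`. -/

set_option autoImplicit false

namespace Pool.Agent.Y122.MH

open MeasureTheory Polynomial
open Pool.Agent.H305R2 (NN measurable_NN mem_Ioc_log ind_eq_sum)

lemma Ph_of {g : ℝ[X]} {M : ℕ} {c0 C0 X0 : ℝ} (hc0 : 0 < c0) (_hC0 : 0 ≤ C0) (_hX1 : 1 ≤ X0)
    (h1 : ∀ m ≤ M + 4, ∀ x, X0 ≤ x → HasDerivAt (Fc g m) (Fc g (m + 1) x) x)
    (h2 : ∀ m, 1 ≤ m → m ≤ M + 4 → ∀ x, X0 ≤ x →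
      c0 ≤ (-1) ^ (m + 1) * Fc g m x * x ^ m ∧ (-1) ^ (m + 1) * Fc g m x * x ^ m ≤ C0)
    {Q : ℝ} (hQ : 0 < Q) {J : ℕ} (hJ : 1 ≤ J) (hX : X0 ≤ Q * J) :
    Ph (c0 / 3 ^ (M + 4)) C0 M J (fun m t => Q ^ m * Fc g m (Q * t)) := by
  have hJ0 : (0 : ℝ) < J := by exact_mod_cast hJ
  have hx : ∀ t ∈ Set.Icc (J : ℝ) (3 * J), X0 ≤ Q * t := fun t ht =>
    hX.trans (mul_le_mul_of_nonneg_left ht.1 hQ.le)
  constructor
  · intro m hm t ht
    have h3 := h1 m hm (Q * t) (hx t ht)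
    have h4 : HasDerivAt (fun t : ℝ => Q * t) Q t := by
      simpa using (hasDerivAt_id t).const_mul Q
    have h5 := (h3.comp t h4).const_mul (Q ^ m)
    refine h5.congr_deriv ?_
    ring
  · intro m hm1 hm2 t ht
    obtain ⟨h3, h4⟩ := h2 m hm1 hm2 (Q * t) (hx t ht)
    have ht0 : 0 < t := lt_of_lt_of_le hJ0 ht.1
    set y := (-1) ^ (m + 1) * Fc g m (Q * t) * (Q * t) ^ m with hy
    have e1 : (-1) ^ (m + 1) * (Q ^ m * Fc g m (Q * t)) * (J : ℝ) ^ m = y * (J / t) ^ m := by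
      rw [hy, div_pow, mul_pow]
      field_simp
    have h5 : (J : ℝ) / t ≤ 1 := by
      rw [div_le_one ht0]
      exact ht.1
    have h6 : 1 / 3 ≤ (J : ℝ) / t := by
      rw [div_le_div_iff₀ (by norm_num) ht0]
      linarith [ht.2]
    have h7 : ((J : ℝ) / t) ^ m ≤ 1 := pow_le_one₀ (by positivity) h5
    have h8 : (1 / 3 : ℝ) ^ (M + 4) ≤ ((J : ℝ) / t) ^ m :=
      (pow_le_pow_of_le_one (by norm_num) (by norm_num) hm2).trans (pow_le_pow_left₀ (by norm_num) h6 m)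
    have hy0 : 0 < y := lt_of_lt_of_le hc0 h3
    show c0 / 3 ^ (M + 4) ≤ (-1) ^ (m + 1) * (Q ^ m * Fc g m (Q * t)) * (J : ℝ) ^ m ∧
      (-1) ^ (m + 1) * (Q ^ m * Fc g m (Q * t)) * (J : ℝ) ^ m ≤ C0
    rw [e1]
    constructor
    · calc c0 / 3 ^ (M + 4) = c0 * (1 / 3) ^ (M + 4) := by rw [one_div, inv_pow]; rfl
        _ ≤ y * (J / t) ^ m := mul_le_mul h3 h8 (by positivity) hy0.le
    · calc y * (J / t) ^ m ≤ y * 1 := mul_le_mul_of_nonneg_left h7 hy0.le
        _ ≤ C0 := by linarith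

/-- the terms of a progression in an interval -/
lemma sum_prog {A B Q r : ℕ} (hQ : 0 < Q) (hr : r < Q) (hrA : r ≤ A) (G : ℕ → ℝ) :
    ∑ n ∈ (Finset.Ioc A B).filter (fun n => n % Q = r), G n =
      ∑ j ∈ Finset.range ((B - r) / Q - (A - r) / Q), G (Q * ((A - r) / Q + 1 + j) + r) := by
  rw [show ∑ j ∈ Finset.range ((B - r) / Q - (A - r) / Q), G (Q * ((A - r) / Q + 1 + j) + r) =
    ∑ j ∈ Finset.Ioc ((A - r) / Q) ((B - r) / Q), G (Q * j + r) from ?_]
  · symm
    refine Finset.sum_nbij (fun j => Q * j + r) ?_ ?_ ?_ (fun _ _ => rfl)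
    · intro j hj
      rw [Finset.mem_Ioc] at hj
      rw [Finset.mem_filter, Finset.mem_Ioc]
      have h1 : A - r < j * Q := (Nat.div_lt_iff_lt_mul hQ).1 hj.1
      have h2 : j * Q ≤ B - r := (Nat.le_div_iff_mul_le hQ).1 hj.2
      have h3 : 0 < j * Q := by omega
      rw [Nat.mul_add_mod, Nat.mod_eq_of_lt hr]
      rw [mul_comm Q j]
      refine ⟨⟨by omega, by omega⟩, rfl⟩
    · intro i _ j _ h
      have h' : Q * i + r = Q * j + r := h
      have := Nat.add_right_cancel h'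
      exact Nat.eq_of_mul_eq_mul_left hQ this
    · intro n hn
      rw [Finset.mem_coe, Finset.mem_filter, Finset.mem_Ioc] at hn
      have h1 := Nat.div_add_mod n Q
      rw [hn.2] at h1
      refine ⟨n / Q, ?_, h1⟩
      rw [Finset.mem_coe, Finset.mem_Ioc]
      constructor
      · rw [Nat.div_lt_iff_lt_mul hQ, mul_comm]
        omega
      · rw [Nat.le_div_iff_mul_le hQ, mul_comm]
        omega
  · rw [Finset.range_eq_Ico, Finset.sum_Ico_eq_sum_range, Nat.sub_zero]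
    rw [← Finset.Ico_add_one_add_one_eq_Ioc, Finset.sum_Ico_eq_sum_range]
    rw [Nat.add_sub_add_right]
    refine Finset.sum_congr rfl fun j _ => ?_
    congr 2
    ring

/-- measurability of the phase -/
lemma measurable_lg (g : ℝ[X]) : Measurable (fun x : ℝ => Real.log (g.eval x)) :=
  Real.measurable_log.comp g.continuous.measurable

lemma ii_of_bdd {f : ℝ → ℝ} (hf : Measurable f) (h0 : ∀ x, 0 ≤ f x) (h1 : ∀ x, f x ≤ 1) (a b : ℝ) :
    IntervalIntegrable f volume a b := by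
  rw [intervalIntegrable_iff]
  refine Measure.integrableOn_of_bounded (M := 1) (by simp) hf.aestronglyMeasurable ?_
  refine Filter.Eventually.of_forall fun t => ?_
  rw [Real.norm_of_nonneg (h0 t)]
  exact h1 t

lemma ii_shift {f : ℝ → ℝ} (hf : Measurable f) (h0 : ∀ x, 0 ≤ f x) (h1 : ∀ x, f x ≤ 1)
    (a b c d : ℝ) : |(∫ x in a..b, f x) - ∫ x in c..d, f x| ≤ |a - c| + |b - d| := by
  have hI := ii_of_bdd hf h0 h1
  rw [intervalIntegral.integral_interval_sub_interval_comm (hI _ _) (hI _ _) (hI _ _)]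
  have h2 : ∀ x y : ℝ, |∫ t in x..y, f t| ≤ |y - x| := fun x y => by
    have := intervalIntegral.norm_integral_le_of_norm_le_const (a := x) (b := y) (f := f) (C := 1)
      (fun t _ => by rw [Real.norm_of_nonneg (h0 t)]; exact h1 t)
    rwa [one_mul, Real.norm_eq_abs] at this
  refine (abs_sub _ _).trans ?_
  have h3 := h2 a c
  have h4 := h2 b d
  rw [abs_sub_comm c a] at h3
  rw [abs_sub_comm d b] at h4
  linarith

lemma meas_par (F : Finset ℕ) (g : ℝ[X]) (A B : ℝ) :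
    Measurable (fun a : ℝ => ∫ x in A..B, hF F (Real.log (g.eval x) + a)) := by
  have h1 : Measurable (fun z : ℝ × ℝ => hF F (Real.log (g.eval z.2) + z.1)) :=
    (measurable_hF F).comp (((measurable_lg g).comp measurable_snd).add measurable_fst)
  have h2 : ∀ s : Set ℝ, Measurable (fun a : ℝ => ∫ x in s, hF F (Real.log (g.eval x) + a)) := fun s =>
    (h1.stronglyMeasurable.integral_prod_right (ν := volume.restrict s)).measurable
  unfold intervalIntegral
  exact (h2 _).sub (h2 _)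

end Pool.Agent.Y122.MH
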