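import Pool.Agent.Y122.MH.Cell

/-! One residue class. -/

set_option autoImplicit false

namespace Pool.Agent.Y122.MH

open MeasureTheory Polynomial
open Pool.Agent.H305R2 (NN measurable_NN mem_Ioc_log ind_eq_sum)

theorem class_bound (g : ℝ[X]) (hd : 1 ≤ g.natDegree) (hlc : 0 < g.leadingCoeff) :
    ∃ κ : ℝ, 0 < κ ∧ κ ≤ 1 / 2 ∧ ∃ C : ℝ, 1 ≤ C ∧ ∃ A0 : ℕ, ∀ (A B Q : ℕ), A0 ≤ A → A ≤ B →
    2 * B ≤ 3 * A → 1 ≤ Q → Q ^ 4 ≤ A → ∀ r < Q, ∀ F : Finset ℕ, (∀ m ∈ F, 1 ≤ m) →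
    (∀ m ∈ F, m ≤ A ^ (g.natDegree + 1)) →
    ∃ D : ℝ → ℝ, Integrable (fun a => D a ^ 2) ∧
      ∫ a, D a ^ 2 ≤ C * ((A : ℝ) / Q) ^ (2 - 2 * κ) * Real.log A ∧
      ∀ a, |(∑ n ∈ (Finset.Ioc A B).filter (fun n => n % Q = r), hF F (Real.log (g.eval (n : ℝ)) + a)) -
        (Q : ℝ)⁻¹ * (∫ x in (A : ℝ)..B, hF F (Real.log (g.eval x) + a)) - D a| ≤ 2 := by
  set d := g.natDegree with hdd
  obtain ⟨c0, C0, X0, hc0, hC0, hX0, hpos, hder, hbd⟩ := chain g hd hlc (2 * d + 6)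
  obtain ⟨κ, hκ, hκ1, C, hC, hprog⟩ := prog (2 * d + 6) (c0 / 3 ^ (2 * d + 6 + 4)) C0 (by positivity) hC0
  refine ⟨κ, hκ, hκ1, 2 * C ^ 2 * (d + 2) + 16, by nlinarith,
    max (max 256 ⌈2 * X0⌉₊) (4 * (4 ^ (d + 2)) ^ 2), ?_⟩
  intro A B Q hA hAB hBA hQ hQA r hr F hF1 hFm
  have hA256 : 256 ≤ A := ((le_max_left _ _).trans (le_max_left _ _)).trans hA
  have hAX : 2 * X0 ≤ A := (Nat.le_ceil _).trans (by
    exact_mod_cast ((le_max_right _ _).trans (le_max_left _ _)).trans hA)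
  have hAd : 4 * (4 ^ (d + 2)) ^ 2 ≤ A := (le_max_right _ _).trans hA
  have hQ0 : 0 < Q := hQ
  have hQ4 : 4 * Q ≤ A := by
    rcases Nat.lt_or_ge Q 4 with h | h
    · omega
    · calc 4 * Q ≤ Q * Q := Nat.mul_le_mul_right _ h
        _ = Q ^ 2 := by ring
        _ ≤ Q ^ 4 := Nat.pow_le_pow_right hQ0 (by norm_num)
        _ ≤ A := hQA
  set J := A / Q with hJ
  have hJ1 : 1 ≤ J := (Nat.le_div_iff_mul_le hQ0).2 (by omega)
  have hJ4 : 4 ≤ J := (Nat.le_div_iff_mul_le hQ0).2 (by omega)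
  have hJA : Q * J ≤ A := Nat.mul_div_le A Q
  have hAJ : A < Q * (J + 1) := by
    have := Nat.lt_mul_div_succ A hQ0
    simpa using this
  -- real versions
  have hQr : (0 : ℝ) < Q := by exact_mod_cast hQ0
  have hJr : (1 : ℝ) ≤ J := by exact_mod_cast hJ1
  have hJr0 : (0 : ℝ) < J := by linarith
  have hAr : (256 : ℝ) ≤ A := by exact_mod_cast hA256
  -- `A ≤ 4 J ^ 2`
  have hA4 : A ≤ 4 * J ^ 2 := by
    have h1 : A * A < (Q * (J + 1)) * (Q * (J + 1)) := Nat.mul_lt_mul'' hAJ hAJ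
    have h2 : (Q * (J + 1)) * (Q * (J + 1)) = Q ^ 2 * (J + 1) ^ 2 := by ring
    have h3 : Q ^ 2 * Q ^ 2 ≤ A := by rw [← pow_add]; exact hQA
    have h4 : Q ^ 2 * Q ^ 2 ≤ A * A := h3.trans (Nat.le_mul_self A)
    -- `A^2 < Q^2 (J+1)^2`, `Q^4 ≤ A`
    by_contra h5
    have h6 : (J + 1) ^ 2 ≤ 4 * J ^ 2 := by nlinarith
    have h7 : (J + 1) ^ 2 < A := by omega
    have h8 : Q ^ 2 ≤ A := (Nat.pow_le_pow_right hQ0 (by norm_num)).trans hQA
    have h9 : Q ^ 2 * (J + 1) ^ 2 ≤ A * A := Nat.mul_le_mul h8 h7.le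
    omega
  have hJd : 4 ^ (d + 2) ≤ J := by
    by_contra h5
    have h6 : J ^ 2 < (4 ^ (d + 2)) ^ 2 := Nat.pow_lt_pow_left (by omega) (by norm_num)
    omega
  have hm1 : 2 * (((A ^ (d + 1) : ℕ) : ℝ) + 1) * (J : ℝ) ^ 3 ≤ (J : ℝ) ^ (2 * d + 6) := by
    have h1 : 2 * (A ^ (d + 1) + 1) * J ^ 3 ≤ J ^ (2 * d + 6) := by
      have h2 : A ^ (d + 1) ≤ (4 * J ^ 2) ^ (d + 1) := Nat.pow_le_pow_left hA4 _
      have h3 : 1 ≤ (4 * J ^ 2) ^ (d + 1) := Nat.one_le_pow _ _ (by positivity)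
      calc 2 * (A ^ (d + 1) + 1) * J ^ 3 ≤ 2 * ((4 * J ^ 2) ^ (d + 1) + (4 * J ^ 2) ^ (d + 1)) * J ^ 3 := by
            gcongr
        _ = 4 ^ (d + 2) * J ^ (2 * d + 5) := by ring
        _ ≤ J * J ^ (2 * d + 5) := Nat.mul_le_mul_right _ hJd
        _ = _ := by ring
    exact_mod_cast h1
  have hXJ : X0 ≤ (Q : ℝ) * J := by
    have h1 : (A : ℝ) < Q * (J + 1) := by exact_mod_cast hAJ
    have h2 : (4 : ℝ) * Q ≤ A := by exact_mod_cast hQ4
    linarith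
  have hPh := Ph_of (g := g) (M := 2 * d + 6) hc0 hC0 hX0 hder hbd hQr hJ1 hXJ
  -- the progression
  set ar := (A - r) / Q with har
  set br := (B - r) / Q with hbr
  have hrA : r ≤ A := by omega
  have hrB : r ≤ B := by omega
  have ha1 : Q * ar ≤ A - r := Nat.mul_div_le _ Q
  have ha2 : A - r < Q * (ar + 1) := by
    have := Nat.lt_mul_div_succ (A - r) hQ0
    simpa using this
  have hb1 : Q * br ≤ B - r := Nat.mul_div_le _ Q
  have hb2 : B - r < Q * (br + 1) := by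
    have := Nat.lt_mul_div_succ (B - r) hQ0
    simpa using this
  have hab : ar ≤ br := Nat.div_le_div_right (by omega)
  set L := br - ar with hL
  have hbL : br = ar + L := by omega
  set u : ℝ := ar + 1 + r / Q with hu
  have hQu : (Q : ℝ) * u = Q * (ar + 1) + r := by
    rw [hu]
    field_simp
  have hQuA : (A : ℝ) ≤ Q * u := by
    rw [hQu]
    have : A ≤ Q * (ar + 1) + r := by omega
    exact_mod_cast this
  have hQuA' : (Q : ℝ) * u ≤ A + Q := by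
    rw [hQu]
    have : Q * (ar + 1) + r ≤ A + Q := by
      rw [mul_add, mul_one]
      omega
    exact_mod_cast this
  have hQuB : (Q : ℝ) * (u + L) ≤ B + Q := by
    rw [mul_add, hQu]
    have : Q * (ar + 1) + r + Q * L ≤ B + Q := by
      have : Q * (ar + 1) + Q * L = Q * br + Q := by rw [hbL]; ring
      omega
    exact_mod_cast this
  have hQuB' : (B : ℝ) ≤ (Q : ℝ) * (u + L) := by
    rw [mul_add, hQu]
    have : B ≤ Q * (ar + 1) + r + Q * L := by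
      have : Q * (ar + 1) + Q * L = Q * (br + 1) := by rw [hbL]; ring
      omega
    exact_mod_cast this
  have hJu : (J : ℝ) ≤ u := by
    have h1 : (Q : ℝ) * J ≤ A := by exact_mod_cast hJA
    have h2 : (Q : ℝ) * J ≤ Q * u := h1.trans hQuA
    exact le_of_mul_le_mul_left h2 hQr
  have hLJ : L ≤ J := by
    -- Q L ≤ B - A + Q
    have h1 : Q * L ≤ B - A + Q := by
      have : Q * (ar + 1) + Q * L = Q * br + Q := by rw [hbL]; ring
      have : Q * (ar + 1) = Q * ar + Q := by ring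
      omega
    have h2 : Q * (J + 1) = Q * J + Q := by ring
    have h3 : Q * L < Q * (J + 1) := by omega
    exact Nat.lt_succ_iff.1 (Nat.lt_of_mul_lt_mul_left h3)
  have huL : u + L ≤ 3 * J := by
    have h1 : (2 : ℝ) * B ≤ 3 * A := by exact_mod_cast hBA
    have h2 : (A : ℝ) < Q * (J + 1) := by exact_mod_cast hAJ
    have h3 : (4 : ℝ) ≤ J := by exact_mod_cast hJ4
    have h4 : (Q : ℝ) * (u + L) ≤ Q * (3 * J) := by nlinarith
    exact le_of_mul_le_mul_left h4 hQr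
  have hpr := hprog J L u (fun m t => (Q : ℝ) ^ m * Fc g m (Q * t)) F (A ^ (d + 1)) hJ1 hJu hLJ huL hPh hF1
    hFm hm1
  set D : ℝ → ℝ := fun a => ∑ n ∈ Finset.range L, hF F ((Q : ℝ) ^ 0 * Fc g 0 (Q * (u + n)) + a) -
      ∫ t in Set.Ioc (0 : ℝ) L, hF F ((Q : ℝ) ^ 0 * Fc g 0 (Q * (u + t)) + a) with hD
  refine ⟨D, hpr.1, hpr.2.trans ?_, ?_⟩
  · -- the bound
    have h1 : (J : ℝ) ≤ A / Q := by
      rw [le_div_iff₀ hQr, mul_comm]
      exact_mod_cast hJA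
    have h2 : (C * (J : ℝ) ^ (1 - κ)) ^ 2 ≤ C ^ 2 * ((A : ℝ) / Q) ^ (2 - 2 * κ) := by
      rw [mul_pow, ← Real.rpow_natCast ((J : ℝ) ^ (1 - κ)) 2, ← Real.rpow_mul hJr0.le]
      refine mul_le_mul_of_nonneg_left ?_ (by positivity)
      rw [show (1 - κ) * ((2 : ℕ) : ℝ) = 2 - 2 * κ by push_cast; ring]
      exact Real.rpow_le_rpow hJr0.le h1 (by linarith)
    have h3 : Real.log ((A ^ (d + 1) + 1 : ℕ) : ℝ) ≤ (d + 2) * Real.log A := by
      have h4 : (((A ^ (d + 1) + 1 : ℕ) : ℕ) : ℝ) ≤ (A : ℝ) ^ (d + 2) := by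
        have : A ^ (d + 1) + 1 ≤ A ^ (d + 2) := by
          have h5 : 1 ≤ A ^ (d + 1) := Nat.one_le_pow _ _ (by omega)
          calc A ^ (d + 1) + 1 ≤ A ^ (d + 1) * 2 := by omega
            _ ≤ A ^ (d + 1) * A := Nat.mul_le_mul_left _ (by omega)
            _ = _ := by ring
        exact_mod_cast this
      calc Real.log ((A ^ (d + 1) + 1 : ℕ) : ℝ) ≤ Real.log ((A : ℝ) ^ (d + 2)) :=
            Real.log_le_log (by positivity) h4
        _ = _ := by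
            rw [Real.log_pow]
            push_cast
            ring
    have hlog : 1 ≤ Real.log A := by
      rw [Real.le_log_iff_exp_le (by linarith)]
      linarith [Real.exp_one_lt_d9]
    have h4 : 1 ≤ ((A : ℝ) / Q) ^ (2 - 2 * κ) := Real.one_le_rpow (hJr.trans h1) (by linarith)
    calc 2 * (C * (J : ℝ) ^ (1 - κ)) ^ 2 * Real.log ((A ^ (d + 1) + 1 : ℕ) : ℝ) + 16 ≤
        2 * (C ^ 2 * ((A : ℝ) / Q) ^ (2 - 2 * κ)) * ((d + 2) * Real.log A) +
          16 * (((A : ℝ) / Q) ^ (2 - 2 * κ) * Real.log A) := by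
          have h6 : 0 ≤ Real.log ((A ^ (d + 1) + 1 : ℕ) : ℝ) := Real.log_natCast_nonneg _
          have h7 : 1 ≤ ((A : ℝ) / Q) ^ (2 - 2 * κ) * Real.log A := by nlinarith
          have h8 : 2 * (C * (J : ℝ) ^ (1 - κ)) ^ 2 * Real.log ((A ^ (d + 1) + 1 : ℕ) : ℝ) ≤
              2 * (C ^ 2 * ((A : ℝ) / Q) ^ (2 - 2 * κ)) * ((d + 2) * Real.log A) := by
            gcongr
          linarith
      _ = _ := by ring
  · intro a
    have e1 : ∑ n ∈ (Finset.Ioc A B).filter (fun n => n % Q = r), hF F (Real.log (g.eval (n : ℝ)) + a) =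
        ∑ n ∈ Finset.range L, hF F ((Q : ℝ) ^ 0 * Fc g 0 (Q * (u + n)) + a) := by
      rw [sum_prog hQ0 hr hrA (fun n => hF F (Real.log (g.eval (n : ℝ)) + a))]
      refine Finset.sum_congr rfl fun j _ => ?_
      rw [pow_zero, one_mul]
      show _ = hF F (Real.log (g.eval ((Q : ℝ) * (u + j))) + a)
      have h9 : (((Q * (ar + 1 + j) + r : ℕ)) : ℝ) = (Q : ℝ) * (u + j) := by
        rw [mul_add (Q : ℝ) u j, hQu]
        push_cast
        ring
      rw [← h9]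
    have e2 : ∫ t in Set.Ioc (0 : ℝ) L, hF F ((Q : ℝ) ^ 0 * Fc g 0 (Q * (u + t)) + a) =
        (Q : ℝ)⁻¹ * ∫ x in (Q * u)..(Q * (u + L)), hF F (Real.log (g.eval x) + a) := by
      rw [← intervalIntegral.integral_of_le (by positivity)]
      have h1 := intervalIntegral.integral_comp_mul_add (a := (0 : ℝ)) (b := L)
        (fun x => hF F (Real.log (g.eval x) + a)) hQr.ne' (Q * u)
      rw [smul_eq_mul, mul_zero, zero_add] at h1
      rw [show (Q : ℝ) * (u + L) = Q * L + Q * u by ring, ← h1]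
      refine intervalIntegral.integral_congr fun t _ => ?_
      show hF F ((Q : ℝ) ^ 0 * Real.log (g.eval (Q * (u + t))) + a) = _
      rw [pow_zero, one_mul]
      ring_nf
    rw [e1, hD]
    simp only
    rw [e2]
    have hm : Measurable (fun x : ℝ => hF F (Real.log (g.eval x) + a)) :=
      (measurable_hF F).comp ((measurable_lg g).add_const a)
    have h1 := ii_shift hm (fun x => hF_nonneg F _) (fun x => hF_le_one F _) (Q * u) (Q * (u + L)) A B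
    have h2 : |(Q : ℝ) * u - A| ≤ Q := by rw [abs_le]; constructor <;> linarith
    have h3 : |(Q : ℝ) * (u + L) - B| ≤ Q := by rw [abs_le]; constructor <;> linarith
    set I1 := ∫ x in (Q * u)..(Q * (u + L)), hF F (Real.log (g.eval x) + a) with hI1
    set I2 := ∫ x in (A : ℝ)..B, hF F (Real.log (g.eval x) + a) with hI2
    set S := ∑ n ∈ Finset.range L, hF F ((Q : ℝ) ^ 0 * Fc g 0 (Q * (u + n)) + a) with hS
    have e3 : S - (Q : ℝ)⁻¹ * I2 - (S - (Q : ℝ)⁻¹ * I1) = (Q : ℝ)⁻¹ * (I1 - I2) := by ring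
    rw [e3, abs_mul, abs_of_pos (inv_pos.2 hQr)]
    calc (Q : ℝ)⁻¹ * |I1 - I2| ≤ (Q : ℝ)⁻¹ * (Q + Q) := by
          refine mul_le_mul_of_nonneg_left (h1.trans (by linarith)) (by positivity)
      _ = 2 := by field_simp; norm_num

end Pool.Agent.Y122.MH
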