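import Pool.Agent.Y122.MH.Cell2

/-! The mean square law in short intervals, with conditions modulo `Q`, for arbitrary target sets. -/

set_option autoImplicit false

namespace Pool.Agent.Y122.MH

open MeasureTheory Polynomial Filter Topology
open Pool.Agent.H305R2 (NN measurable_NN mem_Ioc_log ind_eq_sum)

open Classical in
/-- indicator of `NN y ∈ T` -/
noncomputable def hT (T : Set ℕ) (y : ℝ) : ℝ := if NN y ∈ T then 1 else 0

lemma measurable_hT (T : Set ℕ) : Measurable (hT T) := by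
  classical
  exact (measurable_from_nat (f := fun n : ℕ => if n ∈ T then (1 : ℝ) else 0)).comp measurable_NN

lemma hT_nonneg (T : Set ℕ) (y : ℝ) : 0 ≤ hT T y := by unfold hT; split_ifs <;> norm_num

lemma hT_le_one (T : Set ℕ) (y : ℝ) : hT T y ≤ 1 := by unfold hT; split_ifs <;> norm_num

/-- the error term in a short interval -/
noncomputable def EE (g : ℝ[X]) (A B Q : ℕ) (R : Finset ℕ) (T : Set ℕ) (a : ℝ) : ℝ :=
  (∑ n ∈ (Finset.Ioc A B).filter (fun n => n % Q ∈ R), hT T (Real.log (g.eval (n : ℝ)) + a)) -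
    (R.card : ℝ) / Q * ∫ x in (A : ℝ)..B, hT T (Real.log (g.eval x) + a)

lemma NN_le {y : ℝ} {m : ℕ} (h : Real.exp y ≤ m) : NN y ≤ m := by
  unfold NN
  have := Nat.ceil_le.2 h
  omega

lemma rpow_help {κ : ℝ} (hκ : 0 < κ) {A Q : ℕ} (hA : 1 ≤ A) (hQ : 1 ≤ Q)
    (hQA : Q ^ 4 ≤ A) : (Q : ℝ) ^ 2 * (((A : ℝ) / Q) ^ (2 - 2 * κ) * Real.log A) ≤
      (4 / κ) * (A : ℝ) ^ (2 - κ) := by
  have hA0 : (0 : ℝ) < A := by exact_mod_cast hA
  have hA1 : (1 : ℝ) ≤ A := by exact_mod_cast hA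
  have hQ0 : (0 : ℝ) < Q := by exact_mod_cast hQ
  have hQ4 : (Q : ℝ) ≤ (A : ℝ) ^ (1 / 4 : ℝ) := by
    have h1 : (Q : ℝ) ^ (4 : ℕ) ≤ A := by exact_mod_cast hQA
    calc (Q : ℝ) = ((Q : ℝ) ^ (4 : ℕ)) ^ (1 / 4 : ℝ) := by
          rw [← Real.rpow_natCast, ← Real.rpow_mul hQ0.le]
          norm_num
      _ ≤ _ := Real.rpow_le_rpow (by positivity) h1 (by norm_num)
  have h1 : (Q : ℝ) ^ 2 * ((A : ℝ) / Q) ^ (2 - 2 * κ) = (Q : ℝ) ^ (2 * κ) * (A : ℝ) ^ (2 - 2 * κ) := by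
    rw [Real.div_rpow hA0.le hQ0.le, ← Real.rpow_natCast]
    have : (Q : ℝ) ^ ((2 : ℕ) : ℝ) = (Q : ℝ) ^ (2 * κ) * (Q : ℝ) ^ (2 - 2 * κ) := by
      rw [← Real.rpow_add hQ0]
      congr 1
      push_cast
      ring
    rw [this]
    have h2 : (Q : ℝ) ^ (2 - 2 * κ) ≠ 0 := (Real.rpow_pos_of_pos hQ0 _).ne'
    field_simp
  have h2 : (Q : ℝ) ^ (2 * κ) ≤ (A : ℝ) ^ (κ / 2) := by
    calc (Q : ℝ) ^ (2 * κ) ≤ ((A : ℝ) ^ (1 / 4 : ℝ)) ^ (2 * κ) :=
          Real.rpow_le_rpow hQ0.le hQ4 (by linarith)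
      _ = _ := by
          rw [← Real.rpow_mul hA0.le]
          congr 1
          ring
  have h3 : Real.log A ≤ (A : ℝ) ^ (κ / 4) / (κ / 4) :=
    Real.log_le_rpow_div hA0.le (by positivity)
  have h4 : 0 ≤ Real.log A := Real.log_nonneg hA1
  calc (Q : ℝ) ^ 2 * (((A : ℝ) / Q) ^ (2 - 2 * κ) * Real.log A) =
      ((Q : ℝ) ^ (2 * κ) * (A : ℝ) ^ (2 - 2 * κ)) * Real.log A := by rw [← mul_assoc, h1]
    _ ≤ ((A : ℝ) ^ (κ / 2) * (A : ℝ) ^ (2 - 2 * κ)) * ((A : ℝ) ^ (κ / 4) / (κ / 4)) := by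
        gcongr
    _ = (4 / κ) * ((A : ℝ) ^ (κ / 2) * (A : ℝ) ^ (2 - 2 * κ) * (A : ℝ) ^ (κ / 4)) := by
        field_simp
    _ = (4 / κ) * (A : ℝ) ^ (2 - 5 * κ / 4) := by
        rw [← Real.rpow_add hA0, ← Real.rpow_add hA0]
        congr 2
        ring
    _ ≤ _ := by
        refine mul_le_mul_of_nonneg_left (Real.rpow_le_rpow_of_exponent_le hA1 (by linarith)) (by positivity)

/-- **The mean square law in short intervals.** -/
theorem cell (g : ℝ[X]) (hd : 1 ≤ g.natDegree) (hlc : 0 < g.leadingCoeff) :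
    ∃ κ : ℝ, 0 < κ ∧ κ ≤ 1 / 2 ∧ ∃ C : ℝ, 0 < C ∧ ∀ a0 : ℝ, ∃ A0 : ℕ, ∀ (A B Q : ℕ), A0 ≤ A → A ≤ B →
    2 * B ≤ 3 * A → 1 ≤ Q → Q ^ 4 ≤ A → ∀ R ⊆ Finset.range Q, ∀ T : Set ℕ, 0 ∉ T →
    IntegrableOn (fun a => EE g A B Q R T a ^ 2) (Set.Ioc a0 (a0 + 1)) ∧
    ∫ a in Set.Ioc a0 (a0 + 1), EE g A B Q R T a ^ 2 ≤ C * (A : ℝ) ^ (2 - κ) := by
  classical
  obtain ⟨κ, hκ, hκ1, C, hC, A1, hcls⟩ := class_bound g hd hlc
  refine ⟨κ, hκ, hκ1, 2 * C * (4 / κ) + 8, by positivity, ?_⟩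
  intro a0
  set d := g.natDegree with hdd
  -- growth
  have hgrow : ∀ᶠ x : ℝ in atTop, g.eval x * (Real.exp (a0 + 1) * (3 / 2) ^ (d + 1)) ≤ x ^ (d + 1) := by
    have h1 : Tendsto (fun x : ℝ => g.eval x / (X ^ (d + 1) : ℝ[X]).eval x) atTop (𝓝 0) := by
      refine Polynomial.div_tendsto_atTop_zero_of_degree_lt _ _ ?_
      rw [degree_X_pow]
      have hg0 : g ≠ 0 := fun h => by rw [h] at hlc; simp at hlc
      rw [Polynomial.degree_eq_natDegree hg0, ← hdd]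
      exact_mod_cast Nat.lt_succ_self d
    have h2 := h1.eventually_lt_const (show (0 : ℝ) < (Real.exp (a0 + 1) * (3 / 2) ^ (d + 1))⁻¹ by positivity)
    filter_upwards [h2, eventually_gt_atTop 0] with x h3 hx
    rw [eval_pow, eval_X, div_lt_iff₀ (by positivity)] at h3
    have h4 : 0 < Real.exp (a0 + 1) * (3 / 2) ^ (d + 1) := by positivity
    calc g.eval x * (Real.exp (a0 + 1) * (3 / 2) ^ (d + 1)) ≤
        ((Real.exp (a0 + 1) * (3 / 2) ^ (d + 1))⁻¹ * x ^ (d + 1)) * (Real.exp (a0 + 1) * (3 / 2) ^ (d + 1)) :=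
          mul_le_mul_of_nonneg_right h3.le h4.le
      _ = _ := by field_simp
  have hpos : ∀ᶠ x : ℝ in atTop, 1 ≤ g.eval x := by
    have h1 : Tendsto (fun x => g.eval x) atTop atTop := by
      rw [Polynomial.tendsto_atTop_iff_leadingCoeff_nonneg]
      exact ⟨Polynomial.natDegree_pos_iff_degree_pos.1 hd, hlc.le⟩
    exact h1.eventually_ge_atTop 1
  obtain ⟨X1, hX1⟩ := (hgrow.and hpos).exists_forall_of_atTop
  refine ⟨max (max 1 A1) ⌈X1⌉₊, ?_⟩
  intro A B Q hA hAB hBA hQ hQA R hR T hT0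
  have hA1 : 1 ≤ A := ((le_max_left _ _).trans (le_max_left _ _)).trans hA
  have hAA1 : A1 ≤ A := ((le_max_right _ _).trans (le_max_left _ _)).trans hA
  have hAX : X1 ≤ A := (Nat.le_ceil _).trans (by exact_mod_cast (le_max_right _ _).trans hA)
  have hA0 : (0 : ℝ) < A := by exact_mod_cast hA1
  have hA1r : (1 : ℝ) ≤ A := by exact_mod_cast hA1
  have hQ0 : (0 : ℝ) < Q := by exact_mod_cast hQ
  set F : Finset ℕ := (Finset.Icc 1 (A ^ (d + 1))).filter (fun m => m ∈ T) with hFdef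
  have hF1 : ∀ m ∈ F, 1 ≤ m := fun m hm => (Finset.mem_Icc.1 (Finset.mem_filter.1 hm).1).1
  have hFm : ∀ m ∈ F, m ≤ A ^ (d + 1) := fun m hm => (Finset.mem_Icc.1 (Finset.mem_filter.1 hm).1).2
  -- replacing `T` by `F`
  have hTF : ∀ a ∈ Set.Ioc a0 (a0 + 1), ∀ x : ℝ, (A : ℝ) ≤ x → x ≤ B →
      hT T (Real.log (g.eval x) + a) = hF F (Real.log (g.eval x) + a) := by
    intro a ha x hx1 hx2
    obtain ⟨h1, h2⟩ := hX1 x (hAX.trans hx1)
    have hx0 : 0 < x := by linarith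
    have h3 : NN (Real.log (g.eval x) + a) ≤ A ^ (d + 1) := by
      apply NN_le
      rw [Real.exp_add, Real.exp_log (by linarith)]
      have h4 : x ≤ 3 / 2 * A := by
        have : (2 : ℝ) * B ≤ 3 * A := by exact_mod_cast hBA
        linarith
      have h5 : x ^ (d + 1) ≤ (3 / 2 * (A : ℝ)) ^ (d + 1) := pow_le_pow_left₀ hx0.le h4 _
      have h6 : Real.exp a ≤ Real.exp (a0 + 1) := Real.exp_le_exp.2 ha.2
      have h7 : g.eval x * Real.exp (a0 + 1) * (3 / 2) ^ (d + 1) ≤ (3 / 2) ^ (d + 1) * (A : ℝ) ^ (d + 1) := by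
        rw [← mul_pow, mul_assoc]
        exact h1.trans h5
      have h8 : g.eval x * Real.exp (a0 + 1) ≤ (A : ℝ) ^ (d + 1) := by
        have h9 : (0 : ℝ) < (3 / 2) ^ (d + 1) := by positivity
        rw [mul_comm ((3 / 2 : ℝ) ^ (d + 1))] at h7
        exact le_of_mul_le_mul_right h7 h9
      push_cast
      calc g.eval x * Real.exp a ≤ g.eval x * Real.exp (a0 + 1) := by gcongr
        _ ≤ _ := h8
    have h4 : NN (Real.log (g.eval x) + a) ∈ T ↔ NN (Real.log (g.eval x) + a) ∈ F := by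
      rw [hFdef, Finset.mem_filter, Finset.mem_Icc]
      constructor
      · intro h
        refine ⟨⟨?_, h3⟩, h⟩
        rcases Nat.eq_zero_or_pos (NN (Real.log (g.eval x) + a)) with h0 | h0
        · rw [h0] at h
          exact absurd h hT0
        · exact h0
      · exact fun h => h.2
    unfold hT hF
    by_cases h5 : NN (Real.log (g.eval x) + a) ∈ T
    · rw [if_pos h5, if_pos (h4.1 h5)]
    · rw [if_neg h5, if_neg (fun h => h5 (h4.2 h))]
  -- the function with `F`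
  set E1 : ℝ → ℝ := fun a => (∑ n ∈ (Finset.Ioc A B).filter (fun n => n % Q ∈ R),
      hF F (Real.log (g.eval (n : ℝ)) + a)) -
    (R.card : ℝ) / Q * ∫ x in (A : ℝ)..B, hF F (Real.log (g.eval x) + a) with hE1
  have hABr : (A : ℝ) ≤ B := by exact_mod_cast hAB
  have hEE : ∀ a ∈ Set.Ioc a0 (a0 + 1), EE g A B Q R T a = E1 a := by
    intro a ha
    unfold EE
    rw [hE1]
    simp only
    congr 1
    · refine Finset.sum_congr rfl fun n hn => ?_
      rw [Finset.mem_filter, Finset.mem_Ioc] at hn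
      exact hTF a ha n (by exact_mod_cast hn.1.1.le) (by exact_mod_cast hn.1.2)
    · congr 1
      refine intervalIntegral.integral_congr fun x hx => ?_
      rw [Set.uIcc_of_le hABr] at hx
      exact hTF a ha x hx.1 hx.2
  have hcl : ∀ r ∈ R, ∃ D : ℝ → ℝ, Integrable (fun a => D a ^ 2) ∧
      ∫ a, D a ^ 2 ≤ C * ((A : ℝ) / Q) ^ (2 - 2 * κ) * Real.log A ∧
      ∀ a, |(∑ n ∈ (Finset.Ioc A B).filter (fun n => n % Q = r), hF F (Real.log (g.eval (n : ℝ)) + a)) -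
        (Q : ℝ)⁻¹ * (∫ x in (A : ℝ)..B, hF F (Real.log (g.eval x) + a)) - D a| ≤ 2 := fun r hr =>
    hcls A B Q hAA1 hAB hBA hQ hQA r (Finset.mem_range.1 (hR hr)) F hF1 hFm
  choose! D hD1 hD2 hD3 using hcl
  have hcard : (R.card : ℝ) ≤ Q := by
    have := Finset.card_le_card hR
    rw [Finset.card_range] at this
    exact_mod_cast this
  have hsplit : ∀ a, |E1 a - ∑ r ∈ R, D r a| ≤ 2 * Q := by
    intro a
    have e1 : ∑ n ∈ (Finset.Ioc A B).filter (fun n => n % Q ∈ R), hF F (Real.log (g.eval (n : ℝ)) + a) =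
        ∑ r ∈ R, ∑ n ∈ (Finset.Ioc A B).filter (fun n => n % Q = r),
          hF F (Real.log (g.eval (n : ℝ)) + a) := by
      rw [← Finset.sum_fiberwise_of_maps_to (s := (Finset.Ioc A B).filter (fun n => n % Q ∈ R)) (t := R)
        (g := fun n => n % Q) (fun n hn => (Finset.mem_filter.1 hn).2)]
      refine Finset.sum_congr rfl fun r hr => ?_
      refine Finset.sum_congr ?_ fun _ _ => rfl
      ext n
      simp only [Finset.mem_filter]
      constructor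
      · rintro ⟨⟨h1, h2⟩, h3⟩
        exact ⟨h1, h3⟩
      · rintro ⟨h1, h3⟩
        exact ⟨⟨h1, h3 ▸ hr⟩, h3⟩
    have e2 : E1 a - ∑ r ∈ R, D r a = ∑ r ∈ R,
        ((∑ n ∈ (Finset.Ioc A B).filter (fun n => n % Q = r), hF F (Real.log (g.eval (n : ℝ)) + a)) -
        (Q : ℝ)⁻¹ * (∫ x in (A : ℝ)..B, hF F (Real.log (g.eval x) + a)) - D r a) := by
      rw [Finset.sum_sub_distrib, Finset.sum_sub_distrib, ← e1, Finset.sum_const, nsmul_eq_mul, hE1]
      simp only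
      ring
    rw [e2]
    calc _ ≤ ∑ r ∈ R, (2 : ℝ) := (Finset.abs_sum_le_sum_abs _ _).trans
          (Finset.sum_le_sum fun r hr => hD3 r hr a)
      _ = R.card * 2 := by rw [Finset.sum_const, nsmul_eq_mul]
      _ ≤ _ := by linarith
  have hpt : ∀ a, E1 a ^ 2 ≤ 2 * Q * (∑ r ∈ R, D r a ^ 2) + 8 * (Q : ℝ) ^ 2 := by
    intro a
    have h1 := hsplit a
    have h2 : (∑ r ∈ R, D r a) ^ 2 ≤ R.card * ∑ r ∈ R, D r a ^ 2 := sq_sum_le_card_mul_sum_sq
    have h3 : (R.card : ℝ) * ∑ r ∈ R, D r a ^ 2 ≤ Q * ∑ r ∈ R, D r a ^ 2 :=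
      mul_le_mul_of_nonneg_right hcard (Finset.sum_nonneg fun _ _ => sq_nonneg _)
    have h4 : (E1 a - ∑ r ∈ R, D r a) ^ 2 ≤ (2 * Q) ^ 2 := by
      rw [← sq_abs]
      exact pow_le_pow_left₀ (abs_nonneg _) h1 2
    nlinarith [sq_nonneg (E1 a - 2 * ∑ r ∈ R, D r a)]
  have hmeasE1 : Measurable E1 := by
    refine (Finset.measurable_sum _ fun n _ => ?_).sub ((meas_par F g A B).const_mul _)
    exact (measurable_hF F).comp (measurable_const.add measurable_id)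
  have hRI : IntegrableOn (fun a => 2 * Q * (∑ r ∈ R, D r a ^ 2) + 8 * (Q : ℝ) ^ 2) (Set.Ioc a0 (a0 + 1)) := by
    refine ((integrable_finsetSum _ fun r hr => hD1 r hr).const_mul _).integrableOn.add ?_
    exact integrableOn_const (by simp)
  have hI1 : IntegrableOn (fun a => E1 a ^ 2) (Set.Ioc a0 (a0 + 1)) := by
    refine hRI.mono' (hmeasE1.pow_const 2).aestronglyMeasurable (Filter.Eventually.of_forall fun a => ?_)
    rw [Real.norm_of_nonneg (sq_nonneg _)]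
    exact hpt a
  have hI2 : IntegrableOn (fun a => EE g A B Q R T a ^ 2) (Set.Ioc a0 (a0 + 1)) := by
    refine hI1.congr_fun (fun a ha => ?_) measurableSet_Ioc
    show E1 a ^ 2 = EE g A B Q R T a ^ 2
    rw [hEE a ha]
  refine ⟨hI2, ?_⟩
  calc ∫ a in Set.Ioc a0 (a0 + 1), EE g A B Q R T a ^ 2 = ∫ a in Set.Ioc a0 (a0 + 1), E1 a ^ 2 :=
        setIntegral_congr_fun measurableSet_Ioc fun a ha => by
          show EE g A B Q R T a ^ 2 = E1 a ^ 2
          rw [hEE a ha]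
    _ ≤ ∫ a in Set.Ioc a0 (a0 + 1), (2 * Q * (∑ r ∈ R, D r a ^ 2) + 8 * (Q : ℝ) ^ 2) :=
        setIntegral_mono hI1 hRI fun a => hpt a
    _ = 2 * Q * (∫ a in Set.Ioc a0 (a0 + 1), ∑ r ∈ R, D r a ^ 2) + 8 * (Q : ℝ) ^ 2 := by
        rw [integral_add ((integrable_finsetSum _ fun r hr => hD1 r hr).const_mul _).integrableOn
          (integrableOn_const (by simp)), integral_const_mul, setIntegral_const, smul_eq_mul,
          Real.volume_real_Ioc_of_le (by linarith)]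
        ring
    _ ≤ 2 * Q * (∑ r ∈ R, ∫ a, D r a ^ 2) + 8 * (Q : ℝ) ^ 2 := by
        rw [← integral_finsetSum _ fun r hr => hD1 r hr]
        gcongr
        · exact Filter.Eventually.of_forall fun a => Finset.sum_nonneg fun _ _ => sq_nonneg _
        · exact integrable_finsetSum _ fun r hr => hD1 r hr
        · exact Measure.restrict_le_self
    _ ≤ 2 * Q * (∑ r ∈ R, C * ((A : ℝ) / Q) ^ (2 - 2 * κ) * Real.log A) + 8 * (Q : ℝ) ^ 2 := by
        gcongr with r hr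
        exact hD2 r hr
    _ = 2 * Q * (R.card * (C * ((A : ℝ) / Q) ^ (2 - 2 * κ) * Real.log A)) + 8 * (Q : ℝ) ^ 2 := by
        rw [Finset.sum_const, nsmul_eq_mul]
    _ ≤ 2 * Q * (Q * (C * ((A : ℝ) / Q) ^ (2 - 2 * κ) * Real.log A)) + 8 * (Q : ℝ) ^ 2 := by
        have : 0 ≤ Real.log A := Real.log_nonneg hA1r
        gcongr
    _ = 2 * C * ((Q : ℝ) ^ 2 * (((A : ℝ) / Q) ^ (2 - 2 * κ) * Real.log A)) + 8 * (Q : ℝ) ^ 2 := by ring
    _ ≤ 2 * C * ((4 / κ) * (A : ℝ) ^ (2 - κ)) + 8 * (A : ℝ) ^ (2 - κ) := by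
        have h1 := rpow_help hκ hA1 hQ hQA
        have h2 : (Q : ℝ) ^ 2 ≤ (A : ℝ) ^ (2 - κ) := by
          have h3 : (Q : ℝ) ^ 2 ≤ A := by
            have : Q ^ 2 ≤ A := (Nat.pow_le_pow_right hQ (by norm_num)).trans hQA
            exact_mod_cast this
          calc (Q : ℝ) ^ 2 ≤ A := h3
            _ = (A : ℝ) ^ (1 : ℝ) := (Real.rpow_one _).symm
            _ ≤ _ := Real.rpow_le_rpow_of_exponent_le hA1r (by linarith)
        gcongr
    _ = _ := by ring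

end Pool.Agent.Y122.MH
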