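import Pool.Agent.Helper76.HPlanch
import Pool.Agent.H469R2.NK.KL

/-! Averages of translates with respect to finite measures: Plancherel. -/

set_option autoImplicit false

namespace Pool.Agent.Y122.MH

open MeasureTheory FourierTransform
open Pool.Agent.H469R2.NK (e norm_e e_add)
open scoped ENNReal

/-- average of translates -/
noncomputable def cv (h : ℝ → ℂ) (μ : Measure ℝ) (a : ℝ) : ℂ := ∫ y, h (y + a) ∂μ

/-- the exponential sum of a measure -/
noncomputable def ch (μ : Measure ℝ) (ξ : ℝ) : ℂ := ∫ y, e (ξ * y) ∂μ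

lemma continuous_e : Continuous e := by
  unfold Pool.Agent.H469R2.NK.e
  fun_prop

lemma four_eq (h : ℝ → ℂ) (ξ : ℝ) : 𝓕 h ξ = ∫ s : ℝ, h s * e (-(ξ * s)) := by
  rw [Real.fourier_real_eq_integral_exp_smul]
  refine integral_congr_ae (Filter.Eventually.of_forall fun s => ?_)
  simp only [e, smul_eq_mul]
  rw [mul_comm]
  congr 2
  push_cast
  ring

section

variable {h : ℝ → ℂ} {μ : Measure ℝ} [IsFiniteMeasure μ]

lemma integrable_shift (hi : Integrable h) :
    Integrable (fun z : ℝ × ℝ => h (z.1 + z.2)) (μ.prod volume) := by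
  have h1 : Integrable (fun z : ℝ × ℝ => h z.2) (μ.prod volume) := hi.comp_snd μ
  exact (measurePreserving_prod_add μ volume).integrable_comp_of_integrable h1

lemma integrable_cv (hi : Integrable h) : Integrable (cv h μ) := by
  have h1 := (integrable_shift (μ := μ) hi).integral_prod_right
  exact h1

lemma norm_cv_le {M : ℝ} (hb : ∀ x, ‖h x‖ ≤ M) (a : ℝ) : ‖cv h μ a‖ ≤ M * μ.real Set.univ := by
  unfold cv
  exact norm_integral_le_of_norm_le_const (Filter.Eventually.of_forall fun y => hb _)

lemma memLp_two {f : ℝ → ℂ} (hi : Integrable f) {M : ℝ} (hb : ∀ x, ‖f x‖ ≤ M) : MemLp f 2 := by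
  rw [memLp_two_iff_integrable_sq_norm hi.1]
  refine (hi.norm.const_mul M).mono' (hi.1.norm.pow 2) (Filter.Eventually.of_forall fun x => ?_)
  rw [Real.norm_of_nonneg (by positivity), sq]
  exact mul_le_mul_of_nonneg_right (hb x) (norm_nonneg _)

lemma fourier_cv (hi : Integrable h) (ξ : ℝ) : 𝓕 (cv h μ) ξ = 𝓕 h ξ * ch μ ξ := by
  rw [four_eq, four_eq]
  have h1 : ∀ a : ℝ, cv h μ a * e (-(ξ * a)) = ∫ y, h (y + a) * e (-(ξ * a)) ∂μ := fun a => by
    unfold cv
    rw [integral_mul_const]
  simp only [h1]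
  have hint : Integrable (fun z : ℝ × ℝ => h (z.1 + z.2) * e (-(ξ * z.2))) (μ.prod volume) := by
    refine (integrable_shift (μ := μ) hi).mul_bdd (c := 1) ?_ ?_
    · exact (continuous_e.comp (by fun_prop)).aestronglyMeasurable
    · exact Filter.Eventually.of_forall fun z => (norm_e _).le
  rw [← integral_integral_swap hint]
  have h2 : ∀ y : ℝ, ∫ a : ℝ, h (y + a) * e (-(ξ * a)) = (∫ s : ℝ, h s * e (-(ξ * s))) * e (ξ * y) := by
    intro y
    rw [← integral_add_left_eq_self (fun s => h s * e (-(ξ * s))) y, ← integral_mul_const]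
    refine integral_congr_ae (Filter.Eventually.of_forall fun s => ?_)
    simp only
    rw [mul_assoc, ← e_add]
    congr 2
    ring
  simp only [h2]
  rw [integral_const_mul]
  rfl

end

lemma norm_ch_le (μ : Measure ℝ) [IsFiniteMeasure μ] (ξ : ℝ) : ‖ch μ ξ‖ ≤ μ.real Set.univ := by
  unfold ch
  have := norm_integral_le_of_norm_le_const (μ := μ) (f := fun y => e (ξ * y)) (C := 1)
    (Filter.Eventually.of_forall fun y => (norm_e _).le)
  simpa using this

end Pool.Agent.Y122.MH
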