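import Pool.Agent.Y122.MH.Conv

/-! Mean squares of differences of averages of translates. -/

set_option autoImplicit false

namespace Pool.Agent.Y122.MH

open MeasureTheory FourierTransform
open Pool.Agent.H469R2.NK (e norm_e e_add)
open scoped ENNReal

/-- uniform distribution on `(0, η]` -/
noncomputable def un (η : ℝ) : Measure ℝ := (ENNReal.ofReal η)⁻¹ • volume.restrict (Set.Ioc 0 η)

lemma un_univ {η : ℝ} (hη : 0 < η) : un η Set.univ = 1 := by
  unfold un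
  rw [Measure.smul_apply, Measure.restrict_apply_univ, Real.volume_Ioc, sub_zero, smul_eq_mul]
  exact ENNReal.inv_mul_cancel (by simpa using hη) ENNReal.ofReal_ne_top

lemma un_prob {η : ℝ} (hη : 0 < η) : IsProbabilityMeasure (un η) := ⟨un_univ hη⟩

lemma integral_un {η : ℝ} (hη : 0 < η) {E : Type} [NormedAddCommGroup E] [NormedSpace ℝ E]
    (f : ℝ → E) : ∫ y, f y ∂(un η) = η⁻¹ • ∫ y in Set.Ioc 0 η, f y := by
  unfold un
  rw [integral_smul_measure, ENNReal.toReal_inv, ENNReal.toReal_ofReal hη.le]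

lemma ae_un {η : ℝ} (hη : 0 < η) : ∀ᵐ y ∂(un η), y ∈ Set.Ioc 0 η := by
  unfold un
  exact Measure.ae_smul_measure (ae_restrict_mem measurableSet_Ioc) _

lemma norm_ch_un {η : ℝ} (hη : 0 < η) {ξ : ℝ} (hξ : ξ ≠ 0) :
    ‖ch (un η) ξ‖ ≤ 1 / (Real.pi * |ξ| * η) := by
  unfold ch
  rw [integral_un hη, norm_smul, norm_inv, Real.norm_of_nonneg hη.le]
  have hc : ((2 * Real.pi * ξ : ℝ) : ℂ) * Complex.I ≠ 0 := by
    simp [Real.pi_ne_zero, hξ]
  have h1 : ∫ y in Set.Ioc 0 η, e (ξ * y) =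
      ∫ y in (0 : ℝ)..η, Complex.exp ((((2 * Real.pi * ξ : ℝ) : ℂ) * Complex.I) * y) := by
    rw [intervalIntegral.integral_of_le hη.le]
    refine setIntegral_congr_fun measurableSet_Ioc fun y _ => ?_
    unfold Pool.Agent.H469R2.NK.e
    congr 1
    push_cast
    ring
  rw [h1, integral_exp_mul_complex hc, norm_div]
  have h2 : ‖Complex.exp ((((2 * Real.pi * ξ : ℝ) : ℂ) * Complex.I) * (η : ℂ)) -
      Complex.exp ((((2 * Real.pi * ξ : ℝ) : ℂ) * Complex.I) * ((0 : ℝ) : ℂ))‖ ≤ 2 := by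
    refine (norm_sub_le _ _).trans ?_
    have h3 : ∀ y : ℝ, ‖Complex.exp ((((2 * Real.pi * ξ : ℝ) : ℂ) * Complex.I) * (y : ℂ))‖ = 1 := by
      intro y
      rw [show (((2 * Real.pi * ξ : ℝ) : ℂ) * Complex.I) * (y : ℂ) =
        ((2 * Real.pi * ξ * y : ℝ) : ℂ) * Complex.I by push_cast; ring]
      exact Complex.norm_exp_ofReal_mul_I _
    rw [h3, h3]
    norm_num
  have h4 : ‖((2 * Real.pi * ξ : ℝ) : ℂ) * Complex.I‖ = 2 * Real.pi * |ξ| := by
    rw [norm_mul, Complex.norm_I, mul_one, Complex.norm_real, Real.norm_eq_abs, abs_mul,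
      abs_of_pos (by positivity)]
  rw [h4]
  have hx : 0 < |ξ| := abs_pos.2 hξ
  have hpi := Real.pi_pos
  calc η⁻¹ * (_ / (2 * Real.pi * |ξ|)) ≤ η⁻¹ * (2 / (2 * Real.pi * |ξ|)) := by gcongr
    _ = 1 / (Real.pi * |ξ| * η) := by field_simp

lemma norm_ch_un_le {η : ℝ} (hη : 0 < η) (ξ : ℝ) : ‖ch (un η) ξ‖ ≤ 1 := by
  have := un_prob hη
  simpa using norm_ch_le (un η) ξ

section

variable {h : ℝ → ℂ}

lemma int_diff_le (hi : Integrable h) {V η : ℝ} (hη : 0 < η)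
    (hvar : ∀ s, 0 ≤ s → s ≤ η → ∫ x, ‖h x - h (s + x)‖ ≤ V * η) :
    ∫ a, ‖h a - cv h (un η) a‖ ≤ V * η := by
  have hP := un_prob hη
  have hI : Integrable (fun z : ℝ × ℝ => h z.2 - h (z.1 + z.2)) ((un η).prod volume) :=
    (hi.comp_snd _).sub (integrable_shift hi)
  have h1 : ∀ᵐ a : ℝ, ‖h a - cv h (un η) a‖ ≤ ∫ y, ‖h a - h (y + a)‖ ∂(un η) := by
    have h2 : ∀ᵐ a : ℝ, Integrable (fun y => h (y + a)) (un η) :=
      (integrable_shift (μ := un η) hi).prod_left_ae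
    filter_upwards [h2] with a ha
    have e1 : h a - cv h (un η) a = ∫ y, (h a - h (y + a)) ∂(un η) := by
      rw [integral_sub (integrable_const _) ha]
      simp [cv]
    rw [e1]
    exact norm_integral_le_integral_norm _
  calc ∫ a, ‖h a - cv h (un η) a‖ ≤ ∫ a, (∫ y, ‖h a - h (y + a)‖ ∂(un η)) := by
        refine integral_mono_ae (hi.sub (integrable_cv hi)).norm ?_ h1
        exact hI.norm.integral_prod_right
    _ = ∫ y, (∫ a, ‖h a - h (y + a)‖) ∂(un η) := by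
        exact (integral_integral_swap (f := fun y a => ‖h a - h (y + a)‖) hI.norm).symm
    _ ≤ ∫ y, V * η ∂(un η) := by
        refine integral_mono_ae ?_ (integrable_const _) ?_
        · exact hI.norm.integral_prod_left
        · filter_upwards [ae_un hη] with y hy
          exact hvar y hy.1.le hy.2
    _ = V * η := by simp

lemma norm_cv_le' {μ : Measure ℝ} [IsFiniteMeasure μ] {M J : ℝ} (hM : 0 ≤ M)
    (hb : ∀ x, ‖h x‖ ≤ M) (hJ : μ.real Set.univ ≤ J) (a : ℝ) : ‖cv h μ a‖ ≤ M * J :=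
  (norm_cv_le hb a).trans (mul_le_mul_of_nonneg_left hJ hM)

lemma int_cv_le {μ : Measure ℝ} [IsFiniteMeasure μ] (hi : Integrable h) {J : ℝ}
    (hJ : μ.real Set.univ ≤ J) : ∫ a, ‖cv h μ a‖ ≤ J * ∫ x, ‖h x‖ := by
  have hI := integrable_shift (μ := μ) hi
  calc ∫ a, ‖cv h μ a‖ ≤ ∫ a, (∫ y, ‖h (y + a)‖ ∂μ) := by
        refine integral_mono_ae (integrable_cv hi).norm hI.norm.integral_prod_right ?_
        exact Filter.Eventually.of_forall fun a => norm_integral_le_integral_norm _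
    _ = ∫ y, (∫ a, ‖h (y + a)‖) ∂μ :=
        (integral_integral_swap (f := fun y a => ‖h (y + a)‖) hI.norm).symm
    _ = ∫ y, (∫ x, ‖h x‖) ∂μ := by
        refine integral_congr_ae (Filter.Eventually.of_forall fun y => ?_)
        exact integral_add_left_eq_self (fun x => ‖h x‖) y
    _ = μ.real Set.univ * ∫ x, ‖h x‖ := by simp
    _ ≤ _ := mul_le_mul_of_nonneg_right hJ (integral_nonneg fun x => norm_nonneg _)

/-- Plancherel, in terms of integrals -/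
lemma planch_le {f g : ℝ → ℂ} (hf : Integrable f) (hf2 : MemLp f 2) (hg : Integrable g)
    (hg2 : MemLp g 2) {B : ℝ} (hB : 0 ≤ B) (h : ∀ ξ, ‖𝓕 f ξ‖ ≤ B * ‖𝓕 g ξ‖) :
    ∫ x, ‖f x‖ ^ 2 ≤ B ^ 2 * ∫ x, ‖g x‖ ^ 2 := by
  have h1 := Pool.Agent.Helper76.NormalHP.plancherel_lintegral f hf hf2
  have h2 := Pool.Agent.Helper76.NormalHP.plancherel_lintegral g hg hg2
  have h3 : ∫⁻ t, ‖f t‖ₑ ^ 2 ≤ ENNReal.ofReal (B ^ 2) * ∫⁻ t, ‖g t‖ₑ ^ 2 := by
    rw [← h1, ← h2, ← lintegral_const_mul' _ _ ENNReal.ofReal_ne_top]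
    refine lintegral_mono fun ξ => ?_
    rw [ENNReal.ofReal_pow hB, ← mul_pow]
    gcongr
    rw [← ofReal_norm, ← ofReal_norm, ← ENNReal.ofReal_mul hB]
    exact ENNReal.ofReal_le_ofReal (h ξ)
  have h4 : ∀ u : ℝ → ℂ, MemLp u 2 → ∫ x, ‖u x‖ ^ 2 = (∫⁻ t, ‖u t‖ₑ ^ 2).toReal := by
    intro u hu
    have hm : AEStronglyMeasurable (fun x => ‖u x‖ ^ 2) volume := hu.1.norm.pow 2
    rw [integral_eq_lintegral_of_nonneg_ae (Filter.Eventually.of_forall fun x => sq_nonneg _) hm]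
    congr 1
    refine lintegral_congr fun x => ?_
    rw [ENNReal.ofReal_pow (norm_nonneg _), ofReal_norm]
  have h5 : ∀ u : ℝ → ℂ, MemLp u 2 → ∫⁻ t, ‖u t‖ₑ ^ 2 ≠ ⊤ := by
    intro u hu
    have h6 := (memLp_two_iff_integrable_sq_norm hu.1).1 hu
    have h7 := h6.2
    rw [HasFiniteIntegral] at h7
    refine ne_of_lt (lt_of_le_of_lt (lintegral_mono fun x => ?_) h7)
    rw [enorm_pow, enorm_norm]
  rw [h4 f hf2, h4 g hg2, ← ENNReal.toReal_ofReal (sq_nonneg B), ← ENNReal.toReal_mul]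
  exact ENNReal.toReal_mono (ENNReal.mul_ne_top ENNReal.ofReal_ne_top (h5 g hg2)) h3

end

end Pool.Agent.Y122.MH
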