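import Pool.Agent.Y122.MH.Conv2

/-! The mean square of the difference of two averages of translates. -/

set_option autoImplicit false

namespace Pool.Agent.Y122.MH

open MeasureTheory FourierTransform
open Pool.Agent.H469R2.NK (e norm_e e_add)
open scoped ENNReal

lemma fourier_sub' {f g : ℝ → ℂ} (hf : Integrable f) (hg : Integrable g) (ξ : ℝ) :
    𝓕 (fun x => f x - g x) ξ = 𝓕 f ξ - 𝓕 g ξ := by
  rw [four_eq, four_eq, four_eq, ← integral_sub]
  · refine integral_congr_ae (Filter.Eventually.of_forall fun s => ?_)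
    simp only
    ring
  · refine hf.mul_bdd (c := 1) (continuous_e.comp (by fun_prop)).aestronglyMeasurable ?_
    exact Filter.Eventually.of_forall fun z => (norm_e _).le
  · refine hg.mul_bdd (c := 1) (continuous_e.comp (by fun_prop)).aestronglyMeasurable ?_
    exact Filter.Eventually.of_forall fun z => (norm_e _).le

lemma int_sq_le {f : ℝ → ℂ} (hf : Integrable f) {M : ℝ} (hb : ∀ x, ‖f x‖ ≤ M) :
    ∫ x, ‖f x‖ ^ 2 ≤ M * ∫ x, ‖f x‖ := by
  rw [← integral_const_mul]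
  refine integral_mono ((memLp_two_iff_integrable_sq_norm hf.1).1 (memLp_two hf hb))
    (hf.norm.const_mul M) fun x => ?_
  simp only
  rw [sq]
  exact mul_le_mul_of_nonneg_right (hb x) (norm_nonneg _)

theorem mean_sq {h : ℝ → ℂ} (hi : Integrable h) (hb : ∀ x, ‖h x‖ ≤ 1) {W V J Bd : ℝ}
    (hW : ∫ x, ‖h x‖ ≤ W) (hV : 1 ≤ V) (hvar : ∀ s, 0 ≤ s → ∫ x, ‖h x - h (s + x)‖ ≤ V * s)
    (hJ : 1 ≤ J) {μ ν : Measure ℝ} [IsFiniteMeasure μ] [IsFiniteMeasure ν]
    (hμ : μ.real Set.univ ≤ J) (hν : ν.real Set.univ ≤ J) (hBd : 1 ≤ Bd)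
    (hbound : ∀ ξ, |ξ| ≤ V * J ^ 3 → ‖ch μ ξ - ch ν ξ‖ ≤ Bd) :
    Integrable (fun a => ‖cv h μ a - cv h ν a‖ ^ 2) ∧
    ∫ a, ‖cv h μ a - cv h ν a‖ ^ 2 ≤ 2 * Bd ^ 2 * W + 16 := by
  have hV0 : 0 < V := by linarith
  have hJ0 : 0 < J := by linarith
  set η : ℝ := 1 / (V * J ^ 2) with hη
  have hη0 : 0 < η := by positivity
  have hP := un_prob hη0
  set g : ℝ → ℂ := cv h (un η) with hg
  have hgi : Integrable g := integrable_cv hi
  have hgb : ∀ x, ‖g x‖ ≤ 1 := fun x => by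
    have := norm_cv_le (μ := un η) hb x
    simpa using this
  set k : ℝ → ℂ := fun x => h x - g x with hk
  have hki : Integrable k := hi.sub hgi
  have hkb : ∀ x, ‖k x‖ ≤ 2 := fun x => by
    refine (norm_sub_le _ _).trans ?_
    have := hb x
    have := hgb x
    linarith
  set D1 : ℝ → ℂ := fun a => cv g μ a - cv g ν a with hD1
  set D2 : ℝ → ℂ := fun a => cv k μ a - cv k ν a with hD2
  have hD1i : Integrable D1 := (integrable_cv hgi).sub (integrable_cv hgi)
  have hD2i : Integrable D2 := (integrable_cv hki).sub (integrable_cv hki)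
  have hD1b : ∀ a, ‖D1 a‖ ≤ 2 * J := fun a => by
    refine (norm_sub_le _ _).trans ?_
    have h1 := norm_cv_le' (μ := μ) zero_le_one hgb hμ a
    have h2 := norm_cv_le' (μ := ν) zero_le_one hgb hν a
    linarith
  have hD2b : ∀ a, ‖D2 a‖ ≤ 4 * J := fun a => by
    refine (norm_sub_le _ _).trans ?_
    have h1 := norm_cv_le' (μ := μ) zero_le_two hkb hμ a
    have h2 := norm_cv_le' (μ := ν) zero_le_two hkb hν a
    linarith
  have hsplit : ∀ (ρ : Measure ℝ) [IsFiniteMeasure ρ], ∀ᵐ a : ℝ, cv h ρ a = cv g ρ a + cv k ρ a := by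
    intro ρ _
    have h2 : ∀ᵐ a : ℝ, Integrable (fun y => h (y + a)) ρ := (integrable_shift (μ := ρ) hi).prod_left_ae
    have h3 : ∀ᵐ a : ℝ, Integrable (fun y => g (y + a)) ρ := (integrable_shift (μ := ρ) hgi).prod_left_ae
    filter_upwards [h2, h3] with a h2 h3
    have h4 : Integrable (fun y => k (y + a)) ρ := h2.sub h3
    unfold cv
    rw [← integral_add h3 h4]
    refine integral_congr_ae (Filter.Eventually.of_forall fun y => ?_)
    simp only [hk]
    ring
  have hae : ∀ᵐ a : ℝ, cv h μ a - cv h ν a = D1 a + D2 a := by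
    filter_upwards [hsplit μ, hsplit ν] with a h1 h2
    rw [h1, h2, hD1, hD2]
    ring
  -- first part
  have hF : ∀ ξ, ‖𝓕 D1 ξ‖ ≤ Bd * ‖𝓕 h ξ‖ := by
    intro ξ
    have e1 : 𝓕 D1 ξ = 𝓕 h ξ * (ch (un η) ξ * (ch μ ξ - ch ν ξ)) := by
      rw [hD1, fourier_sub' (integrable_cv hgi) (integrable_cv hgi), fourier_cv hgi, fourier_cv hgi,
        hg, fourier_cv hi]
      ring
    rw [e1, norm_mul, norm_mul, mul_comm]
    refine mul_le_mul_of_nonneg_right ?_ (norm_nonneg _)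
    rcases le_or_gt |ξ| (V * J ^ 3) with h1 | h1
    · calc ‖ch (un η) ξ‖ * ‖ch μ ξ - ch ν ξ‖ ≤ 1 * Bd := by
            refine mul_le_mul (norm_ch_un_le hη0 ξ) (hbound ξ h1) (norm_nonneg _) zero_le_one
        _ = Bd := one_mul _
    · have h2 : 0 < V * J ^ 3 := by positivity
      have h3 : ξ ≠ 0 := by
        intro h4
        rw [h4, abs_zero] at h1
        linarith
      have h4 : ‖ch μ ξ - ch ν ξ‖ ≤ 2 * J := by
        refine (norm_sub_le _ _).trans ?_
        have h5 := (norm_ch_le μ ξ).trans hμ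
        have h6 := (norm_ch_le ν ξ).trans hν
        linarith
      calc ‖ch (un η) ξ‖ * ‖ch μ ξ - ch ν ξ‖ ≤ (1 / (Real.pi * |ξ| * η)) * (2 * J) :=
            mul_le_mul (norm_ch_un hη0 h3) h4 (norm_nonneg _) (by positivity)
        _ ≤ (1 / (2 * (V * J ^ 3) * η)) * (2 * J) := by
            have hpi := Real.pi_gt_three
            gcongr
            linarith
        _ = 1 := by
            rw [hη]
            field_simp
        _ ≤ Bd := hBd
  have hI1 : ∫ x, ‖D1 x‖ ^ 2 ≤ Bd ^ 2 * W := by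
    refine (planch_le hD1i (memLp_two hD1i hD1b) hi (memLp_two hi hb) (by linarith) hF).trans ?_
    refine mul_le_mul_of_nonneg_left ?_ (sq_nonneg _)
    have := int_sq_le hi hb
    linarith
  have hI2 : ∫ x, ‖D2 x‖ ^ 2 ≤ 8 := by
    have h1 := int_sq_le hD2i hD2b
    have h2 : ∫ x, ‖D2 x‖ ≤ 2 * J * ∫ x, ‖k x‖ := by
      calc ∫ x, ‖D2 x‖ ≤ ∫ x, (‖cv k μ x‖ + ‖cv k ν x‖) := by
            refine integral_mono hD2i.norm ((integrable_cv hki).norm.add (integrable_cv hki).norm)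
              fun x => norm_sub_le _ _
        _ = (∫ x, ‖cv k μ x‖) + ∫ x, ‖cv k ν x‖ :=
            integral_add (integrable_cv hki).norm (integrable_cv hki).norm
        _ ≤ J * (∫ x, ‖k x‖) + J * ∫ x, ‖k x‖ := add_le_add (int_cv_le hki hμ) (int_cv_le hki hν)
        _ = _ := by ring
    have h3 : ∫ x, ‖k x‖ ≤ V * η := by
      refine int_diff_le hi hη0 fun s hs hs2 => (hvar s hs).trans ?_
      exact mul_le_mul_of_nonneg_left hs2 hV0.le
    calc ∫ x, ‖D2 x‖ ^ 2 ≤ 4 * J * ∫ x, ‖D2 x‖ := h1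
      _ ≤ 4 * J * (2 * J * (V * η)) := by
          refine mul_le_mul_of_nonneg_left (h2.trans ?_) (by positivity)
          exact mul_le_mul_of_nonneg_left h3 (by positivity)
      _ = 8 := by
          rw [hη]
          field_simp
          norm_num
  have hsq1 : Integrable (fun x => ‖D1 x‖ ^ 2) :=
    (memLp_two_iff_integrable_sq_norm hD1i.1).1 (memLp_two hD1i hD1b)
  have hsq2 : Integrable (fun x => ‖D2 x‖ ^ 2) :=
    (memLp_two_iff_integrable_sq_norm hD2i.1).1 (memLp_two hD2i hD2b)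
  have hD : Integrable (fun a => cv h μ a - cv h ν a) := (integrable_cv hi).sub (integrable_cv hi)
  have hDb : ∀ a, ‖cv h μ a - cv h ν a‖ ≤ 2 * J := fun a => by
    refine (norm_sub_le _ _).trans ?_
    have h1 := norm_cv_le' (μ := μ) zero_le_one hb hμ a
    have h2 := norm_cv_le' (μ := ν) zero_le_one hb hν a
    linarith
  have hsq : Integrable (fun a => ‖cv h μ a - cv h ν a‖ ^ 2) :=
    (memLp_two_iff_integrable_sq_norm hD.1).1 (memLp_two hD hDb)
  refine ⟨hsq, ?_⟩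
  calc ∫ a, ‖cv h μ a - cv h ν a‖ ^ 2 ≤ ∫ a, (2 * ‖D1 a‖ ^ 2 + 2 * ‖D2 a‖ ^ 2) := by
        refine integral_mono_ae hsq ((hsq1.const_mul 2).add (hsq2.const_mul 2)) ?_
        filter_upwards [hae] with a ha
        rw [ha]
        have h1 := norm_add_le (D1 a) (D2 a)
        have h2 : 0 ≤ ‖D1 a + D2 a‖ := norm_nonneg _
        nlinarith [sq_nonneg (‖D1 a‖ - ‖D2 a‖), norm_nonneg (D1 a), norm_nonneg (D2 a)]
    _ = 2 * (∫ a, ‖D1 a‖ ^ 2) + 2 * ∫ a, ‖D2 a‖ ^ 2 := by
        rw [integral_add (hsq1.const_mul 2) (hsq2.const_mul 2), integral_const_mul, integral_const_mul]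
    _ ≤ 2 * (Bd ^ 2 * W) + 2 * 8 := by linarith
    _ = _ := by ring

end Pool.Agent.Y122.MH
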