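import Mathlib

/-! Change of variables and pieces. -/

set_option autoImplicit false

namespace Pool.Agent.Y122.MH

open MeasureTheory Filter Topology

/-- change of variables with bounds for the derivative -/
lemma cov_bounds {u v p P : ℝ} {y y' : ℝ → ℝ} (huv : u ≤ v) (hp : 0 < p)
    (hder : ∀ x ∈ Set.Icc u v, HasDerivAt y (y' x) x)
    (hb : ∀ x ∈ Set.Icc u v, p ≤ y' x ∧ y' x ≤ P) {F : ℝ → ℝ} (hF : Measurable F)
    (hF0 : ∀ x, 0 ≤ F x) (hF1 : ∀ x, F x ≤ 1) :
    p * (v - u) ≤ y v - y u ∧ y v - y u ≤ P * (v - u) ∧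
    p * ∫ x in Set.Ioc u v, F (y x) ≤ ∫ t in Set.Ioc (y u) (y v), F t ∧
    ∫ t in Set.Ioc (y u) (y v), F t ≤ P * ∫ x in Set.Ioc u v, F (y x) := by
  have hcont : ContinuousOn y (Set.Icc u v) := fun t ht => (hder t ht).continuousAt.continuousWithinAt
  have hmvt : ∀ s t : ℝ, u ≤ s → s ≤ t → t ≤ v → p * (t - s) ≤ y t - y s ∧ y t - y s ≤ P * (t - s) := by
    intro s t hs hst ht
    rcases hst.eq_or_lt with rfl | hlt
    · simp
    · obtain ⟨c, hc, he⟩ := exists_hasDerivAt_eq_slope y y' hlt
        (hcont.mono (Set.Icc_subset_Icc hs ht))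
        (fun x hx => hder x ⟨hs.trans hx.1.le, hx.2.le.trans ht⟩)
      have h1 := hb c ⟨hs.trans hc.1.le, hc.2.le.trans ht⟩
      have h2 : 0 < t - s := by linarith
      have h3 : y t - y s = y' c * (t - s) := by rw [he]; field_simp
      rw [h3]
      exact ⟨mul_le_mul_of_nonneg_right h1.1 h2.le, mul_le_mul_of_nonneg_right h1.2 h2.le⟩
  have hstrict : StrictMonoOn y (Set.Icc u v) := by
    intro s hs t ht hst
    have h1 := (hmvt s t hs.1 hst.le ht.2).1
    have h2 : 0 < p * (t - s) := mul_pos hp (by linarith)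
    linarith
  have himg : y '' Set.Ioc u v = Set.Ioc (y u) (y v) := by
    have hsI : u ∈ Set.Icc u v := ⟨le_rfl, huv⟩
    have htI : v ∈ Set.Icc u v := ⟨huv, le_rfl⟩
    ext w
    constructor
    · rintro ⟨x, hx, rfl⟩
      have hxI : x ∈ Set.Icc u v := ⟨hx.1.le, hx.2⟩
      exact ⟨hstrict hsI hxI hx.1, hstrict.monotoneOn hxI htI hx.2⟩
    · intro hw
      obtain ⟨x, hx, he⟩ := intermediate_value_Icc huv hcont (Set.Ioc_subset_Icc_self hw)
      refine ⟨x, ⟨lt_of_le_of_ne hx.1 ?_, hx.2⟩, he⟩
      rintro rfl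
      rw [he] at hw
      exact lt_irrefl _ hw.1
  have hsub : Set.Ioc u v ⊆ Set.Icc u v := Set.Ioc_subset_Icc_self
  have hymeas : AEStronglyMeasurable (fun x => F (y x)) (volume.restrict (Set.Ioc u v)) := by
    have h1 : AEMeasurable y (volume.restrict (Set.Ioc u v)) :=
      (hcont.mono hsub).aemeasurable measurableSet_Ioc
    exact (hF.comp_aemeasurable h1).aestronglyMeasurable
  have hint : IntegrableOn (fun x => F (y x)) (Set.Ioc u v) := by
    refine Integrable.of_bound hymeas 1 ?_
    exact Eventually.of_forall fun x => by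
      rw [Real.norm_eq_abs, abs_of_nonneg (hF0 _)]; exact hF1 _
  have hIoc : IntegrableOn F (Set.Ioc (y u) (y v)) := by
    refine Measure.integrableOn_of_bounded (M := 1) (by simp) hF.aestronglyMeasurable ?_
    exact Eventually.of_forall fun x => by
      rw [Real.norm_eq_abs, abs_of_nonneg (hF0 _)]; exact hF1 _
  have hder' : ∀ x ∈ Set.Ioc u v, HasDerivWithinAt y (y' x) (Set.Ioc u v) x :=
    fun x hx => (hder x (hsub hx)).hasDerivWithinAt
  have hinj : Set.InjOn y (Set.Ioc u v) := hstrict.injOn.mono hsub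
  have hint2 : IntegrableOn (fun x => |y' x| • F (y x)) (Set.Ioc u v) := by
    rw [← integrableOn_image_iff_integrableOn_abs_deriv_smul measurableSet_Ioc hder' hinj, himg]
    exact hIoc
  have hcov := integral_image_eq_integral_abs_deriv_smul measurableSet_Ioc hder' hinj F
  rw [himg] at hcov
  have habs : ∀ x ∈ Set.Ioc u v, p ≤ |y' x| ∧ |y' x| ≤ P := by
    intro x hx
    have h1 := hb x (hsub hx)
    rw [abs_of_pos (lt_of_lt_of_le hp h1.1)]
    exact h1
  obtain ⟨h1, h2⟩ := hmvt u v le_rfl huv le_rfl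
  refine ⟨h1, h2, ?_⟩
  rw [hcov, ← integral_const_mul, ← integral_const_mul]
  constructor
  · refine setIntegral_mono_on (hint.const_mul _) hint2 measurableSet_Ioc fun x hx => ?_
    rw [smul_eq_mul]
    exact mul_le_mul_of_nonneg_right (habs x hx).1 (hF0 _)
  · refine setIntegral_mono_on hint2 (hint.const_mul _) measurableSet_Ioc fun x hx => ?_
    rw [smul_eq_mul]
    exact mul_le_mul_of_nonneg_right (habs x hx).2 (hF0 _)

/-- from the pieces to all `v` -/
lemma pieces {F : ℝ → ℝ} (hF0 : ∀ x, 0 ≤ F x) (hI : ∀ a b : ℝ, IntervalIntegrable F volume a b)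
    {X c e : ℝ} (hX : 0 < X) (hc : 0 ≤ c) {m : ℕ} (hm : 0 < m)
    (h : ∀ j < m, |(∫ x in (X + j * (X / m))..(X + (j + 1 : ℕ) * (X / m)), F x) - c * (X / m)| ≤ e)
    {v : ℝ} (hv1 : X ≤ v) (hv2 : v ≤ 2 * X) :
    |(∫ x in X..v, F x) - c * (v - X)| ≤ c * (X / m) + m * e := by
  have hm0 : (0 : ℝ) < m := by exact_mod_cast hm
  have hXm : 0 < X / m := by positivity
  have hpart : ∀ j ≤ m, |(∫ x in X..(X + j * (X / m)), F x) - c * (j * (X / m))| ≤ j * e := by
    intro j
    induction j with
    | zero => intro _; simp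
    | succ j ih =>
      intro hj
      have h1 := ih (by omega)
      have h2 := h j (by omega)
      rw [← intervalIntegral.integral_add_adjacent_intervals (hI X (X + j * (X / m))) (hI _ _)]
      have e1 : (∫ x in X..(X + j * (X / m)), F x) +
          (∫ x in (X + j * (X / m))..(X + (j + 1 : ℕ) * (X / m)), F x) - c * ((j + 1 : ℕ) * (X / m)) =
          ((∫ x in X..(X + j * (X / m)), F x) - c * (j * (X / m))) +
          ((∫ x in (X + j * (X / m))..(X + (j + 1 : ℕ) * (X / m)), F x) - c * (X / m)) := by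
        push_cast
        ring
      rw [e1]
      refine (abs_add_le _ _).trans ?_
      push_cast at h2 ⊢
      linarith
  have he : 0 ≤ e := (abs_nonneg _).trans (h 0 hm)
  have hmono : ∀ a b : ℝ, X ≤ a → a ≤ b → ∫ x in X..a, F x ≤ ∫ x in X..b, F x := by
    intro a b _ hab
    rw [← intervalIntegral.integral_add_adjacent_intervals (hI X a) (hI a b)]
    have := intervalIntegral.integral_nonneg (μ := volume) hab fun x _ => hF0 x
    linarith
  set j := ⌊(v - X) / (X / m)⌋₊ with hj
  have hq0 : 0 ≤ (v - X) / (X / m) := div_nonneg (by linarith) hXm.le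
  have hj1 : (j : ℝ) * (X / m) ≤ v - X := by
    have := Nat.floor_le hq0
    rwa [le_div_iff₀ hXm] at this
  have hj2 : v - X < ((j : ℝ) + 1) * (X / m) := by
    have := Nat.lt_floor_add_one ((v - X) / (X / m))
    rwa [div_lt_iff₀ hXm] at this
  have hmX : (m : ℝ) * (X / m) = X := by field_simp
  have hjm : j ≤ m := by
    have h1 : (j : ℝ) * (X / m) ≤ m * (X / m) := by linarith
    have h2 : (j : ℝ) ≤ m := le_of_mul_le_mul_right h1 hXm
    exact_mod_cast h2
  have hjm' : (j : ℝ) ≤ m := by exact_mod_cast hjm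
  have hlow := abs_le.1 (hpart j hjm)
  have hje : (j : ℝ) * e ≤ m * e := mul_le_mul_of_nonneg_right hjm' he
  have h1 := hmono (X + j * (X / m)) v (by have : 0 ≤ (j : ℝ) * (X / m) := by positivity
                                           linarith) (by linarith)
  have hup : ∫ x in X..v, F x ≤ c * (v - X) + c * (X / m) + m * e := by
    rcases Nat.lt_or_ge j m with h2 | h2
    · have h3 := abs_le.1 (hpart (j + 1) h2)
      have h4 := hmono v (X + (j + 1 : ℕ) * (X / m)) hv1 (by push_cast; linarith)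
      have h5 : (((j + 1 : ℕ)) : ℝ) * e ≤ m * e := by
        refine mul_le_mul_of_nonneg_right ?_ he
        exact_mod_cast h2
      have h6 : c * (((j + 1 : ℕ) : ℝ) * (X / m)) ≤ c * (v - X) + c * (X / m) := by
        push_cast
        have : c * ((j : ℝ) * (X / m)) ≤ c * (v - X) := mul_le_mul_of_nonneg_left hj1 hc
        linarith
      linarith
    · have h3 : j = m := le_antisymm hjm h2
      have h4 : v = X + j * (X / m) := by
        rw [h3, hmX] at hj1 ⊢
        linarith
      have h5 : c * ((j : ℝ) * (X / m)) = c * (v - X) := by rw [h4]; ring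
      rw [← h4] at hlow
      have : 0 ≤ c * (X / m) := by positivity
      linarith
  have hlw : c * (v - X) - c * (X / m) - m * e ≤ ∫ x in X..v, F x := by
    have h6 : c * (v - X) ≤ c * (((j : ℝ) + 1) * (X / m)) := mul_le_mul_of_nonneg_left hj2.le hc
    linarith
  rw [abs_le]
  constructor <;> linarith

end Pool.Agent.Y122.MH
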