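import Pool.Agent.Y122.MH.Cell3

/-! Covering the set of bad parameters. -/

set_option autoImplicit false

namespace Pool.Agent.Y122.MH

open MeasureTheory Polynomial Filter Topology
open Pool.Agent.H305R2 (NN measurable_NN mem_Ioc_log ind_eq_sum)

lemma NN_mono : Monotone NN := by
  intro a b h
  unfold NN
  have := Nat.ceil_mono (Real.exp_le_exp.2 h)
  omega

/-- indicator of a change of the value -/
noncomputable def Dn (a b y : ℝ) : ℝ := if NN (y + a) < NN (y + b) then 1 else 0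

lemma Dn_nonneg (a b y : ℝ) : 0 ≤ Dn a b y := by unfold Dn; split_ifs <;> norm_num

lemma Dn_le_one (a b y : ℝ) : Dn a b y ≤ 1 := by unfold Dn; split_ifs <;> norm_num

lemma measurable_Dn (a b : ℝ) : Measurable (Dn a b) := by
  unfold Dn
  refine Measurable.ite ?_ measurable_const measurable_const
  exact measurableSet_lt (measurable_NN.comp (measurable_id.add_const a))
    (measurable_NN.comp (measurable_id.add_const b))

lemma hT_diff (T : Set ℕ) {a b c y : ℝ} (h1 : a ≤ c) (h2 : c ≤ b) :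
    |hT T (y + c) - hT T (y + a)| ≤ Dn a b y := by
  classical
  have h3 : NN (y + a) ≤ NN (y + c) := NN_mono (by linarith)
  have h4 : NN (y + c) ≤ NN (y + b) := NN_mono (by linarith)
  unfold Dn
  split_ifs with h
  · have h5 := hT_nonneg T (y + c)
    have h6 := hT_le_one T (y + c)
    have h7 := hT_nonneg T (y + a)
    have h8 := hT_le_one T (y + a)
    rw [abs_le]
    constructor <;> linarith
  · have h5 : NN (y + c) = NN (y + a) := by omega
    unfold hT
    rw [h5, sub_self, abs_zero]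

/-- the oscillation -/
noncomputable def Uo (g : ℝ[X]) (A B : ℕ) (a b : ℝ) : ℝ :=
  (∑ n ∈ Finset.Ioc A B, Dn a b (Real.log (g.eval (n : ℝ)))) +
    ∫ x in (A : ℝ)..B, Dn a b (Real.log (g.eval x))

lemma Uo_nonneg (g : ℝ[X]) {A B : ℕ} (hAB : A ≤ B) (a b : ℝ) : 0 ≤ Uo g A B a b := by
  unfold Uo
  refine add_nonneg (Finset.sum_nonneg fun _ _ => Dn_nonneg _ _ _) ?_
  exact intervalIntegral.integral_nonneg (by exact_mod_cast hAB) fun _ _ => Dn_nonneg _ _ _

lemma EE_osc (g : ℝ[X]) {A B Q : ℕ} (hAB : A ≤ B) (hQ : 1 ≤ Q) {R : Finset ℕ}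
    (hR : R ⊆ Finset.range Q) (T : Set ℕ) {a b c : ℝ} (h1 : a ≤ c) (h2 : c ≤ b) :
    |EE g A B Q R T c - EE g A B Q R T a| ≤ Uo g A B a b := by
  have hQ0 : (0 : ℝ) < Q := by exact_mod_cast hQ
  have hABr : (A : ℝ) ≤ B := by exact_mod_cast hAB
  have hcard : (R.card : ℝ) / Q ≤ 1 := by
    rw [div_le_one hQ0]
    have := Finset.card_le_card hR
    rw [Finset.card_range] at this
    exact_mod_cast this
  have hI : ∀ t : ℝ, IntervalIntegrable (fun x => hT T (Real.log (g.eval x) + t)) volume A B := fun t =>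
    ii_of_bdd ((measurable_hT T).comp ((measurable_lg g).add_const t)) (fun _ => hT_nonneg T _)
      (fun _ => hT_le_one T _) _ _
  have hID : IntervalIntegrable (fun x => Dn a b (Real.log (g.eval x))) volume A B :=
    ii_of_bdd ((measurable_Dn a b).comp (measurable_lg g)) (fun _ => Dn_nonneg _ _ _)
      (fun _ => Dn_le_one _ _ _) _ _
  have e1 : EE g A B Q R T c - EE g A B Q R T a =
      (∑ n ∈ (Finset.Ioc A B).filter (fun n => n % Q ∈ R),
        (hT T (Real.log (g.eval (n : ℝ)) + c) - hT T (Real.log (g.eval (n : ℝ)) + a))) -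
      (R.card : ℝ) / Q * ∫ x in (A : ℝ)..B, (hT T (Real.log (g.eval x) + c) -
        hT T (Real.log (g.eval x) + a)) := by
    unfold EE
    rw [Finset.sum_sub_distrib, intervalIntegral.integral_sub (hI c) (hI a)]
    ring
  rw [e1]
  unfold Uo
  refine (abs_sub _ _).trans (add_le_add ?_ ?_)
  · refine (Finset.abs_sum_le_sum_abs _ _).trans ?_
    refine (Finset.sum_le_sum fun n _ => hT_diff T h1 h2).trans ?_
    exact Finset.sum_le_sum_of_subset_of_nonneg (Finset.filter_subset _ _) fun _ _ _ => Dn_nonneg _ _ _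
  · rw [abs_mul, abs_of_nonneg (by positivity)]
    have h3 : |∫ x in (A : ℝ)..B, (hT T (Real.log (g.eval x) + c) -
        hT T (Real.log (g.eval x) + a))| ≤ ∫ x in (A : ℝ)..B, Dn a b (Real.log (g.eval x)) := by
      refine (intervalIntegral.abs_integral_le_integral_abs hABr).trans ?_
      exact intervalIntegral.integral_mono hABr ((hI c).sub (hI a)).abs hID fun x => hT_diff T h1 h2
    calc _ ≤ 1 * |∫ x in (A : ℝ)..B, (hT T (Real.log (g.eval x) + c) -
        hT T (Real.log (g.eval x) + a))| := mul_le_mul_of_nonneg_right hcard (abs_nonneg _)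
      _ ≤ _ := by rw [one_mul]; exact h3

/-- telescoping -/
lemma sum_Dn (t : ℕ → ℝ) (ht : Monotone t) (K : ℕ) (y : ℝ) :
    ∑ k ∈ Finset.range K, Dn (t k) (t (k + 1)) y ≤ NN (y + t K) := by
  have h1 : ∀ k, Dn (t k) (t (k + 1)) y ≤ (NN (y + t (k + 1)) : ℝ) - NN (y + t k) := by
    intro k
    have h3 : NN (y + t k) ≤ NN (y + t (k + 1)) := NN_mono (by linarith [ht (Nat.le_succ k)])
    unfold Dn
    split_ifs with h
    · have : NN (y + t k) + 1 ≤ NN (y + t (k + 1)) := h
      have h4 : ((NN (y + t k) : ℕ) : ℝ) + 1 ≤ NN (y + t (k + 1)) := by exact_mod_cast this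
      linarith
    · have h4 : ((NN (y + t k) : ℕ) : ℝ) ≤ NN (y + t (k + 1)) := by exact_mod_cast h3
      linarith
  calc _ ≤ ∑ k ∈ Finset.range K, ((NN (y + t (k + 1)) : ℝ) - NN (y + t k)) :=
        Finset.sum_le_sum fun k _ => h1 k
    _ = (NN (y + t K) : ℝ) - NN (y + t 0) := Finset.sum_range_sub (fun k => (NN (y + t k) : ℝ)) K
    _ ≤ _ := by
        have : (0 : ℝ) ≤ NN (y + t 0) := Nat.cast_nonneg _
        linarith

lemma sum_Uo (g : ℝ[X]) {A B : ℕ} (hAB : A ≤ B) (t : ℕ → ℝ) (ht : Monotone t) (K : ℕ) {m1 : ℝ}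
    (hm : ∀ x : ℝ, (A : ℝ) ≤ x → x ≤ B → (NN (Real.log (g.eval x) + t K) : ℝ) ≤ m1) :
    ∑ k ∈ Finset.range K, Uo g A B (t k) (t (k + 1)) ≤ 2 * (((B : ℝ) - A) * m1) := by
  have hABr : (A : ℝ) ≤ B := by exact_mod_cast hAB
  have hID : ∀ a b : ℝ, IntervalIntegrable (fun x => Dn a b (Real.log (g.eval x))) volume A B := fun a b =>
    ii_of_bdd ((measurable_Dn a b).comp (measurable_lg g)) (fun _ => Dn_nonneg _ _ _)
      (fun _ => Dn_le_one _ _ _) _ _
  unfold Uo
  rw [Finset.sum_add_distrib, two_mul]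
  refine add_le_add ?_ ?_
  · rw [Finset.sum_comm]
    calc _ ≤ ∑ n ∈ Finset.Ioc A B, m1 := by
          refine Finset.sum_le_sum fun n hn => (sum_Dn t ht K _).trans ?_
          rw [Finset.mem_Ioc] at hn
          exact hm n (by exact_mod_cast hn.1.le) (by exact_mod_cast hn.2)
      _ = _ := by
          rw [Finset.sum_const, Nat.card_Ioc, nsmul_eq_mul, Nat.cast_sub hAB]
  · rw [← intervalIntegral.integral_finsetSum fun k _ => hID _ _]
    calc _ ≤ ∫ x in (A : ℝ)..B, m1 := by
          refine intervalIntegral.integral_mono_on hABr ?_ intervalIntegrable_const fun x hx =>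
            (sum_Dn t ht K _).trans (hm x hx.1 hx.2)
          have h9 := IntervalIntegrable.sum (Finset.range K) (f := fun k x =>
            Dn (t k) (t (k + 1)) (Real.log (g.eval x))) fun k _ => hID _ _
          have h10 : (fun x => ∑ k ∈ Finset.range K, Dn (t k) (t (k + 1)) (Real.log (g.eval x))) =
              ∑ k ∈ Finset.range K, fun x => Dn (t k) (t (k + 1)) (Real.log (g.eval x)) := by
            funext x
            rw [Finset.sum_apply]
          rw [h10]
          exact h9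
      _ = _ := by rw [intervalIntegral.integral_const, smul_eq_mul]

/-- **Counting the bad intervals.** -/
theorem count_bad (g : ℝ[X]) {A B Q : ℕ} (hAB : A ≤ B) (hQ : 1 ≤ Q) {R : Finset ℕ}
    (hR : R ⊆ Finset.range Q) (T : Set ℕ) (a0 : ℝ) {m1 : ℝ}
    (hm : ∀ x : ℝ, (A : ℝ) ≤ x → x ≤ B → (NN (Real.log (g.eval x) + (a0 + 1)) : ℝ) ≤ m1)
    (hI : IntegrableOn (fun a => EE g A B Q R T a ^ 2) (Set.Ioc a0 (a0 + 1))) {K : ℕ} (hK : 1 ≤ K)
    {lam : ℝ} (hlam : 0 < lam) (S : Finset ℕ) (hSK : S ⊆ Finset.range K)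
    (hS : ∀ k ∈ S, ∃ a ∈ Set.Ioc (a0 + k / K) (a0 + (k + 1 : ℕ) / K), lam < |EE g A B Q R T a|) :
    (S.card : ℝ) ≤ 4 / lam * (2 * (((B : ℝ) - A) * m1)) +
      4 * K / lam ^ 2 * ∫ a in Set.Ioc a0 (a0 + 1), EE g A B Q R T a ^ 2 := by
  have hK0 : (0 : ℝ) < K := by exact_mod_cast hK
  set t : ℕ → ℝ := fun k => a0 + k / K with ht
  have htm : Monotone t := fun i j h => by
    simp only [ht]
    gcongr
  have htK : t K = a0 + 1 := by
    simp only [ht]
    rw [div_self hK0.ne']
  have ht0 : t 0 = a0 := by simp [ht]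
  set Φ : ℕ → ℝ := fun k => ∫ a in (t k)..(t (k + 1)), EE g A B Q R T a ^ 2 with hΦ
  have hII : ∀ i j : ℕ, i ≤ j → j ≤ K → IntervalIntegrable (fun a => EE g A B Q R T a ^ 2) volume (t i) (t j) := by
    intro i j hij hj
    rw [intervalIntegrable_iff_integrableOn_Ioc_of_le (htm hij)]
    refine hI.mono_set (Set.Ioc_subset_Ioc ?_ ?_)
    · rw [← ht0]; exact htm (Nat.zero_le _)
    · rw [← htK]; exact htm hj
  have hΦsum : ∑ k ∈ Finset.range K, Φ k = ∫ a in Set.Ioc a0 (a0 + 1), EE g A B Q R T a ^ 2 := by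
    rw [hΦ, intervalIntegral.sum_integral_adjacent_intervals fun k hk => hII k (k + 1) (Nat.le_succ k) hk,
      ht0, htK, intervalIntegral.integral_of_le (by linarith)]
  have hΦ0 : ∀ k, 0 ≤ Φ k := fun k =>
    intervalIntegral.integral_nonneg (htm (Nat.le_succ k)) fun _ _ => sq_nonneg _
  have hone : ∀ k ∈ S, (1 : ℝ) ≤ 4 / lam * Uo g A B (t k) (t (k + 1)) + 4 * K / lam ^ 2 * Φ k := by
    intro k hk
    have hkK : k < K := Finset.mem_range.1 (hSK hk)
    obtain ⟨a, ha, hal⟩ := hS k hk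
    have hU0 := Uo_nonneg g hAB (t k) (t (k + 1))
    rcases le_or_gt (lam / 4) (Uo g A B (t k) (t (k + 1))) with h | h
    · have h1 : 1 ≤ 4 / lam * Uo g A B (t k) (t (k + 1)) := by
        rw [div_mul_eq_mul_div, le_div_iff₀ hlam]
        linarith
      have h2 : 0 ≤ 4 * K / lam ^ 2 * Φ k := mul_nonneg (by positivity) (hΦ0 k)
      linarith
    · have h1 : ∀ b ∈ Set.Icc (t k) (t (k + 1)), lam ^ 2 / 4 ≤ EE g A B Q R T b ^ 2 := by
        intro b hb
        have h2 := EE_osc g hAB hQ hR T (a := t k) (b := t (k + 1)) (c := b) hb.1 hb.2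
        have h3 := EE_osc g hAB hQ hR T (a := t k) (b := t (k + 1)) (c := a) ha.1.le ha.2
        have h4 : |EE g A B Q R T a| ≤ |EE g A B Q R T b| + |EE g A B Q R T b - EE g A B Q R T (t k)| +
            |EE g A B Q R T a - EE g A B Q R T (t k)| := by
          have := abs_add_three (EE g A B Q R T b) (-(EE g A B Q R T b - EE g A B Q R T (t k)))
            (EE g A B Q R T a - EE g A B Q R T (t k))
          rw [abs_neg] at this
          calc |EE g A B Q R T a| = |EE g A B Q R T b + -(EE g A B Q R T b - EE g A B Q R T (t k)) +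
              (EE g A B Q R T a - EE g A B Q R T (t k))| := by congr 1; ring
            _ ≤ _ := this
        have h5 : lam / 2 ≤ |EE g A B Q R T b| := by linarith
        calc lam ^ 2 / 4 = (lam / 2) ^ 2 := by ring
          _ ≤ |EE g A B Q R T b| ^ 2 := pow_le_pow_left₀ (by positivity) h5 2
          _ = _ := sq_abs _
      have h2 : lam ^ 2 / (4 * K) ≤ Φ k := by
        have h3 : ∫ a in (t k)..(t (k + 1)), lam ^ 2 / 4 ≤ Φ k :=
          intervalIntegral.integral_mono_on (htm (Nat.le_succ k)) intervalIntegrable_const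
            (hII k (k + 1) (Nat.le_succ k) hkK) h1
        rw [intervalIntegral.integral_const, smul_eq_mul] at h3
        refine le_trans (le_of_eq ?_) h3
        simp only [ht]
        push_cast
        field_simp
        ring
      have h3 : 1 ≤ 4 * K / lam ^ 2 * Φ k := by
        calc (1 : ℝ) = 4 * K / lam ^ 2 * (lam ^ 2 / (4 * K)) := by field_simp
          _ ≤ _ := mul_le_mul_of_nonneg_left h2 (by positivity)
      have h4 : 0 ≤ 4 / lam * Uo g A B (t k) (t (k + 1)) := by positivity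
      linarith
  calc (S.card : ℝ) = ∑ k ∈ S, (1 : ℝ) := by simp
    _ ≤ ∑ k ∈ S, (4 / lam * Uo g A B (t k) (t (k + 1)) + 4 * K / lam ^ 2 * Φ k) := Finset.sum_le_sum hone
    _ ≤ ∑ k ∈ Finset.range K, (4 / lam * Uo g A B (t k) (t (k + 1)) + 4 * K / lam ^ 2 * Φ k) := by
        refine Finset.sum_le_sum_of_subset_of_nonneg hSK fun k _ _ => ?_
        have h1 := Uo_nonneg g hAB (t k) (t (k + 1))
        have h2 := hΦ0 k
        positivity
    _ = 4 / lam * (∑ k ∈ Finset.range K, Uo g A B (t k) (t (k + 1))) +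
        4 * K / lam ^ 2 * ∑ k ∈ Finset.range K, Φ k := by
        rw [Finset.sum_add_distrib, Finset.mul_sum, Finset.mul_sum]
    _ ≤ _ := by
        rw [hΦsum]
        have := sum_Uo g hAB t htm K (m1 := m1) (by rw [htK]; exact hm)
        gcongr

end Pool.Agent.Y122.MH
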