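import Mathlib

/-! Hausdorff dimension of an upper limit set (adapted from `Pool.Agent.Y854.PS.Fam`). -/

set_option autoImplicit false

namespace Pool.Agent.Y122.MH

open MeasureTheory Filter Topology
open scoped ENNReal NNReal

theorem dim_limsup (B : ℕ → Set ℝ) {D ρ q C : ℝ} (hD : 0 < D) (hρ : 0 < ρ) (hρ1 : ρ < 1) (hq : 0 < q)
    (hq1 : q < 1) (hC : 0 ≤ C)
    (h : ∃ i0 : ℕ, ∀ i : ℕ, i0 ≤ i → ∃ S : Finset ℝ, (S.card : ℝ) * (ρ ^ i) ^ D ≤ C * q ^ i ∧
      B i ⊆ ⋃ x ∈ S, Set.Icc x (x + ρ ^ i)) :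
    dimH {c : ℝ | ∀ i1 : ℕ, ∃ i : ℕ, i1 ≤ i ∧ c ∈ B i} ≤ ENNReal.ofReal D := by
  obtain ⟨i0, h⟩ := h
  choose! S hS1 hS2 using h
  have hDn : ((Real.toNNReal D : ℝ≥0) : ℝ) = D := Real.coe_toNNReal D hD.le
  have hgoal : ENNReal.ofReal D = ((Real.toNNReal D : ℝ≥0) : ℝ≥0∞) := rfl
  rw [hgoal]
  apply dimH_le_of_hausdorffMeasure_ne_top
  rw [hDn]
  have hr : Tendsto (fun n : ℕ => ENNReal.ofReal (ρ ^ n)) atTop (𝓝 0) := by
    have h1 := tendsto_pow_atTop_nhds_zero_of_lt_one hρ.le hρ1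
    have h2 := ENNReal.tendsto_ofReal h1
    simpa using h2
  have hd : ∀ (n : ℕ) (p : Σ i : ℕ, (S (n + i0 + i))),
      Metric.ediam (Set.Icc ((p.2 : ℝ)) ((p.2 : ℝ) + ρ ^ (n + i0 + p.1))) =
        ENNReal.ofReal (ρ ^ (n + i0 + p.1)) := by
    intro n p
    rw [Real.ediam_Icc]
    congr 1
    ring
  have key := Measure.hausdorffMeasure_le_liminf_tsum (X := ℝ) (β := ℕ)
    (ι := fun n => Σ i : ℕ, (S (n + i0 + i))) D {c : ℝ | ∀ i1 : ℕ, ∃ i : ℕ, i1 ≤ i ∧ c ∈ B i}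
    (l := atTop) (fun n : ℕ => ENNReal.ofReal (ρ ^ n)) hr
    (fun n p => Set.Icc ((p.2 : ℝ)) ((p.2 : ℝ) + ρ ^ (n + i0 + p.1)))
    (Eventually.of_forall fun n p => by
      rw [hd n p]
      apply ENNReal.ofReal_le_ofReal
      exact pow_le_pow_of_le_one hρ.le hρ1.le (by omega))
    (Eventually.of_forall fun n c hc => by
      obtain ⟨i, hi1, hi2⟩ := hc (n + i0)
      have h3 := hS2 i (by omega) hi2
      simp only [Set.mem_iUnion] at h3
      obtain ⟨x, hx, hxc⟩ := h3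
      obtain ⟨k, rfl⟩ := Nat.exists_eq_add_of_le hi1
      rw [Set.mem_iUnion]
      exact ⟨⟨k, ⟨x, hx⟩⟩, hxc⟩)
  refine ne_top_of_le_ne_top ?_ key
  have hbound : ∀ n : ℕ, (∑' p : Σ i : ℕ, (S (n + i0 + i)),
      Metric.ediam (Set.Icc ((p.2 : ℝ)) ((p.2 : ℝ) + ρ ^ (n + i0 + p.1))) ^ D) ≤
      ENNReal.ofReal (C * (1 / (1 - q))) := by
    intro n
    rw [ENNReal.tsum_sigma']
    calc (∑' i : ℕ, ∑' x : (S (n + i0 + i)),
        Metric.ediam (Set.Icc ((x : ℝ)) ((x : ℝ) + ρ ^ (n + i0 + i))) ^ D)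
        ≤ ∑' i : ℕ, ENNReal.ofReal (C * q ^ i) := by
          apply ENNReal.tsum_le_tsum
          intro i
          have h1 : ∀ x : (S (n + i0 + i)),
              Metric.ediam (Set.Icc ((x : ℝ)) ((x : ℝ) + ρ ^ (n + i0 + i))) ^ D =
                ENNReal.ofReal ((ρ ^ (n + i0 + i)) ^ D) := by
            intro x
            rw [hd n ⟨i, x⟩, ENNReal.ofReal_rpow_of_pos (by positivity)]
          simp only [h1]
          rw [tsum_fintype]
          simp only [Finset.sum_const, Finset.card_univ, Fintype.card_coe, nsmul_eq_mul]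
          rw [← ENNReal.ofReal_natCast, ← ENNReal.ofReal_mul (by positivity)]
          apply ENNReal.ofReal_le_ofReal
          refine (hS1 (n + i0 + i) (by omega)).trans ?_
          exact mul_le_mul_of_nonneg_left (pow_le_pow_of_le_one hq.le hq1.le (by omega)) hC
      _ = ENNReal.ofReal (∑' i : ℕ, C * q ^ i) := by
          rw [ENNReal.ofReal_tsum_of_nonneg (fun i => by positivity)
            ((summable_geometric_of_lt_one hq.le hq1).mul_left C)]
      _ = ENNReal.ofReal (C * (1 / (1 - q))) := by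
          rw [tsum_mul_left, tsum_geometric_of_lt_one hq.le hq1, one_div]
  refine ne_top_of_le_ne_top (ENNReal.ofReal_ne_top (r := C * (1 / (1 - q)))) ?_
  apply Filter.liminf_le_of_le
  · isBoundedDefault
  · intro b hb
    obtain ⟨n, hn⟩ := hb.exists
    exact hn.trans (hbound n)

end Pool.Agent.Y122.MH
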