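import Pool.Agent.H221R2.FB_VdcGen
import Pool.Agent.Y122.MH.Conv

/-! Exponential sums and exponential integrals with the same smooth phase. -/

set_option autoImplicit false

namespace Pool.Agent.Y122.MH

open MeasureTheory
open Pool.Agent.H469R2.NK (e norm_e e_add)

lemma norm_e_sub_le (x y : ℝ) : ‖e x - e y‖ ≤ 2 * Real.pi * |x - y| := by
  have h1 : e x - e y = e y * (e (x - y) - 1) := by
    rw [mul_sub, ← e_add, mul_one]
    congr 2
    ring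
  rw [h1, norm_mul, norm_e, one_mul]
  have h2 := Real.norm_exp_I_mul_ofReal_sub_one_le (x := 2 * Real.pi * (x - y))
  have h3 : e (x - y) = Complex.exp (Complex.I * ((2 * Real.pi * (x - y) : ℝ) : ℂ)) := by
    unfold Pool.Agent.H469R2.NK.e
    rw [mul_comm]
  rw [h3]
  refine h2.trans (le_of_eq ?_)
  rw [Real.norm_eq_abs, abs_mul, abs_of_pos (by positivity)]

lemma hasDerivAt_e {f : ℝ → ℝ} {f' x : ℝ} (hf : HasDerivAt f f' x) :
    HasDerivAt (fun t => e (f t)) (((2 * Real.pi * f' : ℝ) : ℂ) * Complex.I * e (f x)) x := by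
  unfold Pool.Agent.H469R2.NK.e
  have h1 : HasDerivAt (fun t => (((2 * Real.pi * f t : ℝ) : ℂ)) * Complex.I)
      (((2 * Real.pi * f' : ℝ) : ℂ) * Complex.I) x :=
    ((hf.const_mul (2 * Real.pi)).ofReal_comp).mul_const _
  have h2 := h1.cexp
  rw [mul_comm (Complex.exp _)] at h2
  exact h2

/-- conditions on the phase -/
structure Ph (c0 C0 : ℝ) (M J : ℕ) (φ : ℕ → ℝ → ℝ) : Prop where
  der : ∀ m ≤ M + 4, ∀ t ∈ Set.Icc (J : ℝ) (3 * J), HasDerivAt (φ m) (φ (m + 1) t) t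
  bd : ∀ m, 1 ≤ m → m ≤ M + 4 → ∀ t ∈ Set.Icc (J : ℝ) (3 * J),
      c0 ≤ (-1) ^ (m + 1) * φ m t * (J : ℝ) ^ m ∧ (-1) ^ (m + 1) * φ m t * (J : ℝ) ^ m ≤ C0

section

variable {c0 C0 : ℝ} {M J : ℕ} {φ : ℕ → ℝ → ℝ}

lemma Ph.one (h : Ph c0 C0 M J φ) (hJ : 1 ≤ J) {t : ℝ} (ht : t ∈ Set.Icc (J : ℝ) (3 * J)) :
    c0 / J ≤ φ 1 t ∧ φ 1 t ≤ C0 / J := by
  have hJ0 : (0 : ℝ) < J := by exact_mod_cast hJ
  have h1 := h.bd 1 le_rfl (by omega) t ht
  norm_num at h1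
  rw [div_le_iff₀ hJ0, le_div_iff₀ hJ0]
  exact h1

lemma Ph.two (h : Ph c0 C0 M J φ) (hc0 : 0 < c0) (hJ : 1 ≤ J) {t : ℝ}
    (ht : t ∈ Set.Icc (J : ℝ) (3 * J)) : |φ 2 t| ≤ C0 / J ^ 2 := by
  have hJ0 : (0 : ℝ) < J := by exact_mod_cast hJ
  have h1 := h.bd 2 (by norm_num) (by omega) t ht
  norm_num at h1
  rw [le_div_iff₀ (by positivity), ← abs_of_pos (show (0 : ℝ) < (J : ℝ) ^ 2 by positivity), ← abs_mul,
    abs_le]
  constructor <;> linarith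

lemma Ph.lip (h : Ph c0 C0 M J φ) (hc0 : 0 < c0) (hJ : 1 ≤ J) {s t : ℝ} (hs : (J : ℝ) ≤ s) (hst : s ≤ t)
    (ht : t ≤ 3 * J) : |φ 0 t - φ 0 s| ≤ C0 / J * (t - s) := by
  have hJ0 : (0 : ℝ) < J := by exact_mod_cast hJ
  have h1 := Convex.norm_image_sub_le_of_norm_hasDerivWithin_le (f := φ 0) (f' := φ 1)
    (s := Set.Icc (J : ℝ) (3 * J)) (C := C0 / J) (x := s) (y := t)
    (fun x hx => (h.der 0 (by omega) x hx).hasDerivWithinAt)
    (fun x hx => by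
      have h2 := h.one hJ hx
      have h3 : 0 < c0 / J := by positivity
      rw [Real.norm_of_nonneg (by linarith)]
      exact h2.2) (convex_Icc _ _) ⟨hs, hst.trans ht⟩ ⟨hs.trans hst, ht⟩
  rw [Real.norm_eq_abs, Real.norm_of_nonneg (by linarith)] at h1
  exact h1

lemma Ph.cont (h : Ph c0 C0 M J φ) {m : ℕ} (hm : m ≤ M + 4) :
    ContinuousOn (φ m) (Set.Icc (J : ℝ) (3 * J)) :=
  fun x hx => (h.der m hm x hx).continuousAt.continuousWithinAt

/-- low frequencies -/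
lemma low (h : Ph c0 C0 M J φ) (hc0 : 0 < c0) (hC0 : 0 ≤ C0) (hJ : 1 ≤ J) {L : ℕ} {u ξ : ℝ}
    (hu : (J : ℝ) ≤ u) (huL : u + L ≤ 3 * J) (hL : L ≤ J) :
    ‖∑ n ∈ Finset.range L, e (ξ * φ 0 (u + n)) - ∫ t in Set.Ioc (0 : ℝ) L, e (ξ * φ 0 (u + t))‖ ≤
      2 * Real.pi * C0 * |ξ| := by
  have hJ0 : (0 : ℝ) < J := by exact_mod_cast hJ
  have hcont : ContinuousOn (fun t : ℝ => e (ξ * φ 0 (u + t))) (Set.Icc 0 L) := by
    refine continuous_e.comp_continuousOn (continuousOn_const.mul ?_)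
    refine (h.cont (m := 0) (by omega)).comp (by fun_prop) ?_
    intro t ht
    exact ⟨by linarith [ht.1], by linarith [ht.2]⟩
  have hint : ∀ a b : ℝ, 0 ≤ a → a ≤ b → b ≤ L →
      IntervalIntegrable (fun t : ℝ => e (ξ * φ 0 (u + t))) volume a b := by
    intro a b ha hab hb
    refine (hcont.mono ?_).intervalIntegrable
    rw [Set.uIcc_of_le hab]
    exact Set.Icc_subset_Icc ha hb
  have h1 : ∫ t in Set.Ioc (0 : ℝ) L, e (ξ * φ 0 (u + t)) =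
      ∑ n ∈ Finset.range L, ∫ t in (n : ℝ)..((n + 1 : ℕ) : ℝ), e (ξ * φ 0 (u + t)) := by
    rw [intervalIntegral.sum_integral_adjacent_intervals (a := fun k : ℕ => (k : ℝ)) (n := L)]
    · rw [Nat.cast_zero, intervalIntegral.integral_of_le (by positivity)]
    · intro k hk
      refine hint _ _ (by positivity) (by push_cast; linarith) ?_
      exact_mod_cast hk
  rw [h1, ← Finset.sum_sub_distrib]
  have h2 : ∀ n ∈ Finset.range L, ‖e (ξ * φ 0 (u + n)) -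
      ∫ t in (n : ℝ)..((n + 1 : ℕ) : ℝ), e (ξ * φ 0 (u + t))‖ ≤ 2 * Real.pi * |ξ| * (C0 / J) := by
    intro n hn
    have hn' : ((n + 1 : ℕ) : ℝ) ≤ L := by exact_mod_cast Finset.mem_range.1 hn
    have e1 : e (ξ * φ 0 (u + n)) = ∫ t in (n : ℝ)..((n + 1 : ℕ) : ℝ), e (ξ * φ 0 (u + n)) := by
      rw [intervalIntegral.integral_const]
      push_cast
      simp
    rw [e1, ← intervalIntegral.integral_sub intervalIntegrable_const
      (hint _ _ (by positivity) (by push_cast; linarith) hn')]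
    have h3 := intervalIntegral.norm_integral_le_of_norm_le_const (a := (n : ℝ))
      (b := ((n + 1 : ℕ) : ℝ)) (f := fun t => e (ξ * φ 0 (u + n)) - e (ξ * φ 0 (u + t)))
      (C := 2 * Real.pi * |ξ| * (C0 / J)) ?_
    · refine h3.trans (le_of_eq ?_)
      push_cast
      rw [add_sub_cancel_left, abs_one, mul_one]
    · intro t ht
      rw [Set.uIoc_of_le (by push_cast; linarith)] at ht
      have ht1 := ht.1
      have ht2 := ht.2
      push_cast at ht2 hn'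
      refine (norm_e_sub_le _ _).trans ?_
      rw [← mul_sub, abs_mul, mul_assoc, mul_assoc, mul_assoc]
      have hn0 : (0 : ℝ) ≤ n := by positivity
      have h4 := h.lip hc0 hJ (s := u + n) (t := u + t) (by linarith) (by linarith) (by linarith)
      rw [abs_sub_comm] at h4
      have h5 : C0 / J * (u + t - (u + n)) ≤ C0 / J := by
        have : 0 ≤ C0 / J := by positivity
        nlinarith
      have hpi := Real.pi_pos
      gcongr
      linarith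
  calc _ ≤ ∑ n ∈ Finset.range L, 2 * Real.pi * |ξ| * (C0 / J) := norm_sum_le_of_le _ h2
    _ = (L / J) * (2 * Real.pi * C0 * |ξ|) := by
        rw [Finset.sum_const, Finset.card_range, nsmul_eq_mul]
        field_simp
    _ ≤ 1 * (2 * Real.pi * C0 * |ξ|) := by
        have h5 : (L : ℝ) / J ≤ 1 := by
          rw [div_le_one hJ0]
          exact_mod_cast hL
        have hpi := Real.pi_pos
        gcongr
    _ = _ := one_mul _

/-- first derivative test -/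
lemma int_osc (h : Ph c0 C0 M J φ) (hc0 : 0 < c0) (hC0 : 0 ≤ C0) (hJ : 1 ≤ J) {L : ℕ} {u ξ : ℝ}
    (hu : (J : ℝ) ≤ u) (huL : u + L ≤ 3 * J) (hL : L ≤ J) (hξ : ξ ≠ 0) :
    ‖∫ t in Set.Ioc (0 : ℝ) L, e (ξ * φ 0 (u + t))‖ ≤ (2 / c0 + C0 / c0 ^ 2) * (J / |ξ|) := by
  have hJ0 : (0 : ℝ) < J := by exact_mod_cast hJ
  have hL0 : (0 : ℝ) ≤ L := by positivity
  have hL' : (L : ℝ) ≤ J := by exact_mod_cast hL
  have hx0 : 0 < |ξ| := abs_pos.2 hξ
  have hmem : ∀ t ∈ Set.Icc (0 : ℝ) L, u + t ∈ Set.Icc (J : ℝ) (3 * J) := fun t ht =>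
    ⟨by linarith [ht.1], by linarith [ht.2]⟩
  set E : ℝ → ℂ := fun t => e (ξ * φ 0 (u + t)) with hE
  set E' : ℝ → ℂ := fun t => ((2 * Real.pi * (ξ * φ 1 (u + t)) : ℝ) : ℂ) * Complex.I * E t with hE'
  set v : ℝ → ℂ := fun t => (((φ 1 (u + t))⁻¹ : ℝ) : ℂ) with hv
  set v' : ℝ → ℂ := fun t => ((-(φ 2 (u + t)) / (φ 1 (u + t)) ^ 2 : ℝ) : ℂ) with hv'
  have hφ1 : ∀ t ∈ Set.Icc (0 : ℝ) L, 0 < φ 1 (u + t) := fun t ht => by
    have h1 := (h.one hJ (hmem t ht)).1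
    have h2 : 0 < c0 / J := by positivity
    linarith
  have hd0 : ∀ t ∈ Set.Icc (0 : ℝ) L, HasDerivAt (fun t => φ 0 (u + t)) (φ 1 (u + t)) t := fun t ht =>
    HasDerivAt.comp_const_add u t (h.der 0 (by omega) _ (hmem t ht))
  have hd1 : ∀ t ∈ Set.Icc (0 : ℝ) L, HasDerivAt (fun t => φ 1 (u + t)) (φ 2 (u + t)) t := fun t ht =>
    HasDerivAt.comp_const_add u t (h.der 1 (by omega) _ (hmem t ht))
  have hEd : ∀ t ∈ Set.Icc (0 : ℝ) L, HasDerivAt E (E' t) t := fun t ht =>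
    hasDerivAt_e ((hd0 t ht).const_mul ξ)
  have hvd : ∀ t ∈ Set.Icc (0 : ℝ) L, HasDerivAt v (v' t) t := fun t ht =>
    ((hd1 t ht).inv (hφ1 t ht).ne').ofReal_comp
  have hmaps : Set.MapsTo (fun t : ℝ => u + t) (Set.Icc (0 : ℝ) L) (Set.Icc (J : ℝ) (3 * J)) := hmem
  have hc1 : ContinuousOn (fun t => φ 1 (u + t)) (Set.Icc (0 : ℝ) L) :=
    (h.cont (m := 1) (by omega)).comp (by fun_prop) hmaps
  have hc2 : ContinuousOn (fun t => φ 2 (u + t)) (Set.Icc (0 : ℝ) L) :=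
    (h.cont (m := 2) (by omega)).comp (by fun_prop) hmaps
  have hcE : ContinuousOn E (Set.Icc (0 : ℝ) L) := fun t ht => (hEd t ht).continuousAt.continuousWithinAt
  have hcE' : ContinuousOn E' (Set.Icc (0 : ℝ) L) :=
    ((Complex.continuous_ofReal.comp_continuousOn
      (continuousOn_const.mul (continuousOn_const.mul hc1))).mul continuousOn_const).mul hcE
  have hcv' : ContinuousOn v' (Set.Icc (0 : ℝ) L) :=
    Complex.continuous_ofReal.comp_continuousOn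
      (hc2.neg.div (hc1.pow 2) fun t ht => by have := hφ1 t ht; positivity)
  have huI : Set.uIcc (0 : ℝ) (L : ℝ) = Set.Icc (0 : ℝ) (L : ℝ) := Set.uIcc_of_le hL0
  have hibp := intervalIntegral.integral_mul_deriv_eq_deriv_mul (u := v) (v := E) (u' := v') (v' := E')
    (a := 0) (b := (L : ℝ)) (by rw [huI]; exact hvd) (by rw [huI]; exact hEd)
    (by rw [← huI] at hcv'; exact hcv'.intervalIntegrable)
    (by rw [← huI] at hcE'; exact hcE'.intervalIntegrable)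
  have hEq : ∫ t in (0 : ℝ)..L, v t * E' t =
      (((2 * Real.pi * ξ : ℝ) : ℂ) * Complex.I) * ∫ t in (0 : ℝ)..L, E t := by
    rw [← intervalIntegral.integral_const_mul]
    refine intervalIntegral.integral_congr fun t ht => ?_
    rw [huI] at ht
    have h3 : ((φ 1 (u + t) : ℝ) : ℂ) ≠ 0 := by exact_mod_cast (hφ1 t ht).ne'
    simp only [hv, hE']
    push_cast
    field_simp
  have hvb : ∀ t ∈ Set.Icc (0 : ℝ) L, ‖v t‖ ≤ J / c0 := fun t ht => by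
    simp only [hv]
    rw [Complex.norm_real, Real.norm_of_nonneg (by have := hφ1 t ht; positivity),
      inv_le_comm₀ (hφ1 t ht) (by positivity), inv_div]
    exact (h.one hJ (hmem t ht)).1
  have hv'b : ∀ t ∈ Set.Icc (0 : ℝ) L, ‖v' t‖ ≤ C0 / c0 ^ 2 := fun t ht => by
    simp only [hv']
    rw [Complex.norm_real, Real.norm_eq_abs, abs_div, abs_neg, abs_of_pos (by
      have := hφ1 t ht; positivity : 0 < φ 1 (u + t) ^ 2)]
    have h1 := h.two hc0 hJ (hmem t ht)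
    have h2 := (h.one hJ (hmem t ht)).1
    calc |φ 2 (u + t)| / φ 1 (u + t) ^ 2 ≤ (C0 / J ^ 2) / (c0 / J) ^ 2 := by gcongr
      _ = C0 / c0 ^ 2 := by field_simp
  have hnorm : ‖∫ t in (0 : ℝ)..L, v t * E' t‖ ≤ 2 * (J / c0) + (C0 / c0 ^ 2) * L := by
    rw [hibp]
    have hE1 : ∀ t, ‖E t‖ = 1 := fun t => norm_e _
    have h1 : ‖v L * E L - v 0 * E 0‖ ≤ 2 * (J / c0) := by
      refine (norm_sub_le _ _).trans ?_
      rw [norm_mul, norm_mul, hE1, hE1, mul_one, mul_one]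
      have h2 := hvb L ⟨hL0, le_rfl⟩
      have h3 := hvb 0 ⟨le_rfl, hL0⟩
      linarith
    have h2 : ‖∫ t in (0 : ℝ)..L, v' t * E t‖ ≤ (C0 / c0 ^ 2) * L := by
      have := intervalIntegral.norm_integral_le_of_norm_le_const (a := (0 : ℝ)) (b := L)
        (f := fun t => v' t * E t) (C := C0 / c0 ^ 2) ?_
      · rwa [sub_zero, abs_of_nonneg hL0] at this
      · intro t ht
        rw [Set.uIoc_of_le hL0] at ht
        rw [norm_mul, hE1, mul_one]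
        exact hv'b t ⟨ht.1.le, ht.2⟩
    exact (norm_sub_le _ _).trans (add_le_add h1 h2)
  rw [hEq, norm_mul] at hnorm
  have h4 : ‖((2 * Real.pi * ξ : ℝ) : ℂ) * Complex.I‖ = 2 * Real.pi * |ξ| := by
    rw [norm_mul, Complex.norm_I, mul_one, Complex.norm_real, Real.norm_eq_abs, abs_mul,
      abs_of_pos (by positivity)]
  rw [h4] at hnorm
  rw [← intervalIntegral.integral_of_le hL0]
  have hpi := Real.pi_gt_three
  have h5 : 0 ≤ ‖∫ t in (0 : ℝ)..L, E t‖ := norm_nonneg _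
  have h6 : |ξ| * ‖∫ t in (0 : ℝ)..L, E t‖ ≤ (2 / c0 + C0 / c0 ^ 2) * J := by
    have h7 : |ξ| * ‖∫ t in (0 : ℝ)..L, E t‖ ≤ 2 * Real.pi * |ξ| * ‖∫ t in (0 : ℝ)..L, E t‖ := by
      rw [mul_assoc]
      have : 0 ≤ |ξ| * ‖∫ t in (0 : ℝ)..L, E t‖ := by positivity
      nlinarith
    have h8 : 2 * (J / c0) + (C0 / c0 ^ 2) * L ≤ (2 / c0 + C0 / c0 ^ 2) * J := by
      have h9 : (C0 / c0 ^ 2) * (L : ℝ) ≤ (C0 / c0 ^ 2) * J := by gcongr
      have h10 : 2 * ((J : ℝ) / c0) = 2 / c0 * J := by ring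
      linarith
    linarith
  rw [← mul_div_assoc, le_div_iff₀ hx0, mul_comm]
  exact h6

end

/-- **The difference of the sum and the integral.** -/
theorem exp_diff (M : ℕ) (c0 C0 : ℝ) (hc0 : 0 < c0) (hC0 : 0 ≤ C0) : ∃ κ : ℝ, 0 < κ ∧ κ ≤ 1 / 2 ∧
    ∃ C : ℝ, 1 ≤ C ∧ ∀ (J L : ℕ) (u ξ : ℝ) (φ : ℕ → ℝ → ℝ), 1 ≤ J → (J : ℝ) ≤ u → L ≤ J →
    u + L ≤ 3 * J → Ph c0 C0 M J φ → |ξ| ≤ (J : ℝ) ^ M →
    ‖∑ n ∈ Finset.range L, e (ξ * φ 0 (u + n)) - ∫ t in Set.Ioc (0 : ℝ) L, e (ξ * φ 0 (u + t))‖ ≤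
      C * (J : ℝ) ^ (1 - κ) := by
  obtain ⟨η, hη, hη1, C1, hC1, hv⟩ := Pool.Agent.H221R2.FB.vdc_gen M c0 C0 hc0
  refine ⟨min η (1 / 2), lt_min hη (by norm_num), min_le_right _ _,
    1 + 2 * Real.pi * C0 + 2 * C1 + (2 / c0 + C0 / c0 ^ 2), ?_, ?_⟩
  · have hpi := Real.pi_pos
    have : 0 ≤ 2 * Real.pi * C0 + 2 * C1 + (2 / c0 + C0 / c0 ^ 2) := by positivity
    linarith
  intro J L u ξ φ hJ hu hL huL hφ hξ
  have hpi := Real.pi_pos
  have hJ1 : (1 : ℝ) ≤ J := by exact_mod_cast hJ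
  have hJ0 : (0 : ℝ) < J := by linarith
  set κ := min η (1 / 2) with hκ
  have hhalf : (J : ℝ) ^ (1 / 2 : ℝ) ≤ (J : ℝ) ^ (1 - κ) := by
    apply Real.rpow_le_rpow_of_exponent_le hJ1
    have := min_le_right η (1 / 2 : ℝ)
    linarith
  have hetaJ : (J : ℝ) ^ (1 - η) ≤ (J : ℝ) ^ (1 - κ) := by
    apply Real.rpow_le_rpow_of_exponent_le hJ1
    have := min_le_left η (1 / 2 : ℝ)
    linarith
  have hJκ : 0 < (J : ℝ) ^ (1 - κ) := Real.rpow_pos_of_pos hJ0 _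
  rcases le_or_gt |ξ| ((J : ℝ) ^ (1 / 2 : ℝ)) with h1 | h1
  · refine (low hφ hc0 hC0 hJ hu huL hL).trans ?_
    calc 2 * Real.pi * C0 * |ξ| ≤ 2 * Real.pi * C0 * (J : ℝ) ^ (1 - κ) := by
          gcongr
          exact h1.trans hhalf
      _ ≤ _ := by
          refine mul_le_mul_of_nonneg_right ?_ hJκ.le
          have : 0 ≤ 1 + 2 * C1 + (2 / c0 + C0 / c0 ^ 2) := by positivity
          linarith
  · have hs : 1 ≤ (J : ℝ) ^ (1 / 2 : ℝ) := Real.one_le_rpow hJ1 (by norm_num)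
    have hξ1 : 1 ≤ |ξ| := by linarith
    have hξ0 : 0 < |ξ| := by linarith
    have hJξ : (J : ℝ) / |ξ| ≤ (J : ℝ) ^ (1 / 2 : ℝ) := by
      rw [div_le_iff₀ hξ0]
      calc (J : ℝ) = (J : ℝ) ^ (1 / 2 : ℝ) * (J : ℝ) ^ (1 / 2 : ℝ) := by
            rw [← Real.rpow_add hJ0]
            norm_num
        _ ≤ _ := by gcongr
    have h2 := hv J L u ξ φ hJ hu hL huL hφ.der hφ.bd hξ1 hξ
    have h3 := int_osc hφ hc0 hC0 hJ hu huL hL (abs_pos.1 hξ0)
    refine (norm_sub_le _ _).trans ?_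
    have h4 : C1 * ((J : ℝ) ^ (1 - η) + J / |ξ|) ≤ 2 * C1 * (J : ℝ) ^ (1 - κ) := by
      have : (J : ℝ) ^ (1 - η) + J / |ξ| ≤ 2 * (J : ℝ) ^ (1 - κ) := by linarith
      calc C1 * ((J : ℝ) ^ (1 - η) + J / |ξ|) ≤ C1 * (2 * (J : ℝ) ^ (1 - κ)) := by gcongr
        _ = _ := by ring
    have h5 : (2 / c0 + C0 / c0 ^ 2) * (J / |ξ|) ≤ (2 / c0 + C0 / c0 ^ 2) * (J : ℝ) ^ (1 - κ) := by
      have : 0 ≤ 2 / c0 + C0 / c0 ^ 2 := by positivity
      gcongr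
      linarith
    have h6 : 0 ≤ (1 + 2 * Real.pi * C0) * (J : ℝ) ^ (1 - κ) := by positivity
    nlinarith

end Pool.Agent.Y122.MH
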