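import Pool.Agent.Y122.MH.Block

/-! The asymptotic formula. -/

set_option autoImplicit false

namespace Pool.Agent.Y122.MH

open MeasureTheory Polynomial Filter Topology
open Pool.Agent.H305R2 (NN ff VV measurable_ff ff_nonneg ff_le_one VV_nonneg roughPart)

/-- `1 / log` -/
noncomputable def il (t : ℝ) : ℝ := 1 / Real.log t

lemma ii_il {a b : ℝ} (ha : 2 ≤ a) (hb : 2 ≤ b) : IntervalIntegrable il volume a b := by
  apply ContinuousOn.intervalIntegrable
  have : Set.uIcc a b ⊆ Set.Ici 2 := by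
    intro x hx
    rw [Set.mem_uIcc] at hx
    rcases hx with h | h
    · exact ha.trans h.1
    · exact hb.trans h.1
  refine ContinuousOn.mono ?_ this
  unfold il
  refine ContinuousOn.div continuousOn_const ?_ ?_
  · exact Real.continuousOn_log.mono fun x hx => by
      have : (2 : ℝ) ≤ x := hx
      simp only [Set.mem_compl_iff, Set.mem_singleton_iff]
      linarith
  · intro x hx
    have : (2 : ℝ) ≤ x := hx
    exact (Real.log_pos (by linarith)).ne'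

lemma il_nonneg {t : ℝ} (ht : 2 ≤ t) : 0 ≤ il t := by
  unfold il
  have := Real.log_pos (show 1 < t by linarith)
  positivity

lemma li_block {i N : ℕ} (hi : 1 ≤ i) (hN1 : 2 ^ i ≤ N) (hN2 : N ≤ 2 ^ (i + 1)) :
    |(∫ t in ((2 : ℝ) ^ i)..N, il t) - ((N : ℝ) - 2 ^ i) / (Real.log 2 * i)| ≤
      2 ^ i / (Real.log 2 * i * i) := by
  have hl2 : 0 < Real.log 2 := Real.log_pos (by norm_num)
  have hir : (1 : ℝ) ≤ i := by exact_mod_cast hi
  have hi0 : (0 : ℝ) < i := by linarith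
  have hX : (2 : ℝ) ≤ 2 ^ i := by
    calc (2 : ℝ) = 2 ^ 1 := (pow_one _).symm
      _ ≤ 2 ^ i := pow_le_pow_right₀ (by norm_num) hi
  have hN1r : (2 : ℝ) ^ i ≤ N := by exact_mod_cast hN1
  have hN2r : (N : ℝ) ≤ 2 ^ (i + 1) := by exact_mod_cast hN2
  have hII := ii_il hX (hX.trans hN1r)
  have h1 : ∫ t in ((2 : ℝ) ^ i)..N, il t ≤ ∫ t in ((2 : ℝ) ^ i)..N, 1 / (Real.log 2 * i) := by
    refine intervalIntegral.integral_mono_on hN1r hII intervalIntegrable_const fun t ht => ?_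
    unfold il
    have h2 : Real.log 2 * i ≤ Real.log t := by
      rw [mul_comm, ← Real.log_pow]
      exact Real.log_le_log (by positivity) ht.1
    exact one_div_le_one_div_of_le (by positivity) h2
  have h2 : ∫ t in ((2 : ℝ) ^ i)..N, 1 / (Real.log 2 * (i + 1)) ≤ ∫ t in ((2 : ℝ) ^ i)..N, il t := by
    refine intervalIntegral.integral_mono_on hN1r intervalIntegrable_const hII fun t ht => ?_
    unfold il
    have ht0 : 1 < t := by linarith [ht.1]
    have h2 : Real.log t ≤ Real.log 2 * (i + 1) := by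
      have : Real.log t ≤ Real.log ((2 : ℝ) ^ (i + 1)) :=
        Real.log_le_log (by linarith) (ht.2.trans hN2r)
      rw [Real.log_pow] at this
      push_cast at this
      linarith
    exact one_div_le_one_div_of_le (Real.log_pos ht0) h2
  rw [intervalIntegral.integral_const, smul_eq_mul] at h1 h2
  have hw : (N : ℝ) - 2 ^ i ≤ 2 ^ i := by rw [pow_succ] at hN2r; linarith
  have hw0 : 0 ≤ (N : ℝ) - 2 ^ i := by linarith
  have h3 : ((N : ℝ) - 2 ^ i) * (1 / (Real.log 2 * i)) - ((N : ℝ) - 2 ^ i) * (1 / (Real.log 2 * (i + 1))) ≤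
      2 ^ i / (Real.log 2 * i * i) := by
    have e1 : ((N : ℝ) - 2 ^ i) * (1 / (Real.log 2 * i)) - ((N : ℝ) - 2 ^ i) * (1 / (Real.log 2 * (i + 1))) =
        ((N : ℝ) - 2 ^ i) / (Real.log 2 * i * (i + 1)) := by
      field_simp
      ring
    rw [e1]
    calc ((N : ℝ) - 2 ^ i) / (Real.log 2 * i * (i + 1)) ≤ 2 ^ i / (Real.log 2 * i * (i + 1)) := by gcongr
      _ ≤ _ := by
          refine div_le_div_of_nonneg_left (by positivity) (by positivity) ?_
          refine mul_le_mul_of_nonneg_left (by linarith) (by positivity)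
  have e2 : ((N : ℝ) - 2 ^ i) / (Real.log 2 * i) = ((N : ℝ) - 2 ^ i) * (1 / (Real.log 2 * i)) := by ring
  rw [e2, abs_le]
  have h4 : (0 : ℝ) ≤ 2 ^ i / (Real.log 2 * i * i) := by positivity
  constructor <;> linarith

lemma cn_add (f : ℤ[X]) (k : ℕ) (a : ℝ) {A B D : ℕ} (h1 : A ≤ B) (h2 : B ≤ D) :
    cn f k a A B + cn f k a B D = cn f k a A D := by
  unfold cn
  rw [Finset.card_filter, Finset.card_filter, Finset.card_filter]
  exact Finset.sum_Ioc_consecutive _ h1 h2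

lemma cn_le (f : ℤ[X]) (k : ℕ) (a : ℝ) (A B : ℕ) : cn f k a A B ≤ B - A := by
  unfold cn
  refine (Finset.card_filter_le _ _).trans ?_
  rw [Nat.card_Ioc]

/-- the difference of the count and the expected value -/
noncomputable def De (f : ℤ[X]) (L : ℝ) (k : ℕ) (a : ℝ) (A B : ℕ) : ℝ :=
  (cn f k a A B : ℝ) - L / f.natDegree * ∫ t in (A : ℝ)..B, il t

lemma De_add (f : ℤ[X]) (L : ℝ) (k : ℕ) (a : ℝ) {A B D : ℕ} (h0 : 2 ≤ A) (h1 : A ≤ B) (h2 : B ≤ D) :
    De f L k a A B + De f L k a B D = De f L k a A D := by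
  unfold De
  have hA : (2 : ℝ) ≤ A := by exact_mod_cast h0
  have hB : (2 : ℝ) ≤ B := by exact_mod_cast h0.trans h1
  have hD : (2 : ℝ) ≤ D := by exact_mod_cast (h0.trans h1).trans h2
  rw [← intervalIntegral.integral_add_adjacent_intervals (ii_il hA hB) (ii_il hB hD),
    ← cn_add f k a h1 h2]
  push_cast
  ring

/-- one block -/
theorem step1 (f : ℤ[X]) (hd : 1 ≤ f.natDegree) (hlc : 0 < f.leadingCoeff) {L : ℝ}
    (hL : Tendsto (fun k => Dk f k * VV k) atTop (𝓝 L)) :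
    ∃ E : Set ℝ, dimH E < 1 ∧ ∀ a : ℝ, a ∉ E → ∀ ε : ℝ, 0 < ε → ∃ k0 : ℕ, ∀ᶠ i : ℕ in atTop,
      ∀ k : ℕ, k0 ≤ k → 8 * k ≤ i → ∀ N : ℕ, 2 ^ i ≤ N → N ≤ 2 ^ (i + 1) →
        |De f L k a (2 ^ i) N| ≤ ε * (2 ^ i / i) := by
  obtain ⟨η, hη, hη1, E, hE, hb⟩ := block f hd hlc
  refine ⟨E, lt_of_le_of_lt hE ?_, ?_⟩
  · rw [show (1 : ENNReal) = ENNReal.ofReal 1 by simp]
    exact (ENNReal.ofReal_lt_ofReal_iff (by norm_num)).2 (by linarith)
  intro a ha ε hε
  have hl2 : 0 < Real.log 2 := Real.log_pos (by norm_num)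
  have hd0 : (0 : ℝ) < f.natDegree := by exact_mod_cast hd
  set θ : ℝ := f.natDegree * Real.log 2 with hθ
  have hθ0 : 0 < θ := by positivity
  obtain ⟨B, hB⟩ := hL.bddAbove_range
  have hB' : ∀ k, Dk f k * VV k ≤ B := fun k => hB ⟨k, rfl⟩
  set B1 : ℝ := max B 0 + 1 with hB1
  have hB10 : 0 < B1 := by positivity
  have hB1' : ∀ k, Dk f k * VV k ≤ B1 := fun k => (hB' k).trans (by rw [hB1]; linarith [le_max_left B 0])
  set ε1 : ℝ := ε / (4 * B1) with hε1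
  have hε10 : 0 < ε1 := by positivity
  have hε1B : B1 * ε1 = ε / 4 := by rw [hε1]; field_simp
  obtain ⟨k0, hk0⟩ := (Metric.tendsto_atTop.1 hL) (θ * ε / 4) (by positivity)
  refine ⟨k0, ?_⟩
  -- small terms
  have hs1 : ∀ᶠ i : ℕ in atTop, 3 * ((2 : ℝ) ^ i) ^ (1 - η) ≤ ε / 4 * (2 ^ i / i) := by
    have hr : (1 : ℝ) < 2 ^ η := Real.one_lt_rpow (by norm_num) hη
    have h1 := tendsto_pow_const_div_const_pow_of_one_lt 1 hr
    have h2 := h1.eventually_lt_const (show (0 : ℝ) < ε / 12 by positivity)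
    filter_upwards [h2, eventually_ge_atTop 1] with i h3 h4
    have h5 : (1 : ℝ) ≤ i := by exact_mod_cast h4
    have h5' : (0 : ℝ) < i := by linarith
    have h6 : 0 < ((2 : ℝ) ^ η) ^ i := by positivity
    rw [pow_one, div_lt_iff₀ h6] at h3
    have hX0 : (0 : ℝ) < 2 ^ i := by positivity
    have h7 : ((2 : ℝ) ^ i) ^ η = ((2 : ℝ) ^ η) ^ i := by
      rw [← Real.rpow_natCast, ← Real.rpow_natCast, ← Real.rpow_mul (by norm_num),
        ← Real.rpow_mul (by norm_num), mul_comm]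
    rw [Real.rpow_sub hX0, Real.rpow_one, h7, ← mul_div_assoc, div_le_iff₀ h6]
    have h8 : (3 : ℝ) * i ≤ ε / 4 * ((2 : ℝ) ^ η) ^ i := by linarith
    calc 3 * (2 : ℝ) ^ i = (3 * i) * (2 ^ i / i) := by field_simp
      _ ≤ (ε / 4 * ((2 : ℝ) ^ η) ^ i) * (2 ^ i / i) := mul_le_mul_of_nonneg_right h8 (by positivity)
      _ = _ := by ring
  have hs2 : ∀ᶠ i : ℕ in atTop, |L| / θ ≤ ε / 4 * i :=
    ((tendsto_natCast_atTop_atTop (R := ℝ)).const_mul_atTop (by positivity : 0 < ε / 4)).eventually_ge_atTop _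
  filter_upwards [hb a ha ε1 hε10, hs1, hs2, eventually_ge_atTop 1] with i g1 g2 g3 g4 k hk1 hk2 N hN1 hN2
  have h1 := g1 k hk2 N hN1 hN2
  have h2 := li_block g4 hN1 hN2
  have hir : (1 : ℝ) ≤ i := by exact_mod_cast g4
  have hi0 : (0 : ℝ) < i := by linarith
  have hX0 : (0 : ℝ) < 2 ^ i := by positivity
  have hN1r : (2 : ℝ) ^ i ≤ N := by exact_mod_cast hN1
  have hN2r : (N : ℝ) ≤ 2 ^ (i + 1) := by exact_mod_cast hN2
  have hw : (N : ℝ) - 2 ^ i ≤ 2 ^ i := by rw [pow_succ] at hN2r; linarith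
  have hw0 : 0 ≤ (N : ℝ) - 2 ^ i := by linarith
  have h3 := hk0 k hk1
  rw [Real.dist_eq] at h3
  unfold De
  push_cast
  set c := (cn f k a (2 ^ i) N : ℝ) with hc
  set DV := Dk f k * VV k with hDV
  set I := ∫ t in ((2 : ℝ) ^ i)..N, il t with hI
  have e1 : c - L / f.natDegree * I = (c - Dk f k * (VV k / (θ * i) * ((N : ℝ) - 2 ^ i))) +
      (DV - L) * (((N : ℝ) - 2 ^ i) / (θ * i)) -
      L / f.natDegree * (I - ((N : ℝ) - 2 ^ i) / (Real.log 2 * i)) := by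
    rw [hDV, hθ]
    field_simp
    ring
  rw [e1]
  have t1 : |c - Dk f k * (VV k / (θ * i) * ((N : ℝ) - 2 ^ i))| ≤ ε / 2 * (2 ^ i / i) := by
    refine h1.trans ?_
    have e2 : Dk f k * (ε1 * (VV k / i * 2 ^ i)) = DV * ε1 * (2 ^ i / i) := by rw [hDV]; ring
    rw [e2]
    have h4 : DV * ε1 * (2 ^ i / i) ≤ ε / 4 * (2 ^ i / i) := by
      refine mul_le_mul_of_nonneg_right ?_ (by positivity)
      rw [← hε1B]
      exact mul_le_mul_of_nonneg_right (hB1' k) hε10.le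
    linarith
  have t2 : |(DV - L) * (((N : ℝ) - 2 ^ i) / (θ * i))| ≤ ε / 4 * (2 ^ i / i) := by
    rw [abs_mul, abs_of_nonneg (show 0 ≤ ((N : ℝ) - 2 ^ i) / (θ * i) by positivity)]
    calc |DV - L| * (((N : ℝ) - 2 ^ i) / (θ * i)) ≤ (θ * ε / 4) * (2 ^ i / (θ * i)) := by
          gcongr
      _ = _ := by field_simp
  have t3 : |L / f.natDegree * (I - ((N : ℝ) - 2 ^ i) / (Real.log 2 * i))| ≤ ε / 4 * (2 ^ i / i) := by
    rw [abs_mul, abs_div, abs_of_pos hd0]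
    calc |L| / f.natDegree * |I - ((N : ℝ) - 2 ^ i) / (Real.log 2 * i)| ≤
        |L| / f.natDegree * (2 ^ i / (Real.log 2 * i * i)) := by gcongr
      _ = (|L| / θ) * (2 ^ i / (i * i)) := by rw [hθ]; field_simp
      _ ≤ (ε / 4 * i) * (2 ^ i / (i * i)) := by gcongr
      _ = _ := by field_simp
  calc _ ≤ |c - Dk f k * (VV k / (θ * i) * ((N : ℝ) - 2 ^ i)) + (DV - L) * (((N : ℝ) - 2 ^ i) / (θ * i))| +
        |L / f.natDegree * (I - ((N : ℝ) - 2 ^ i) / (Real.log 2 * i))| := abs_sub _ _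
    _ ≤ |c - Dk f k * (VV k / (θ * i) * ((N : ℝ) - 2 ^ i))| + |(DV - L) * (((N : ℝ) - 2 ^ i) / (θ * i))| +
        |L / f.natDegree * (I - ((N : ℝ) - 2 ^ i) / (Real.log 2 * i))| := by
          gcongr
          exact abs_add_le _ _
    _ ≤ _ := by linarith

/-- telescoping -/
lemma step2 (f : ℤ[X]) (L : ℝ) (k : ℕ) (a : ℝ) {ε : ℝ} (hε : 0 ≤ ε) {i1 : ℕ} (hi1 : 1 ≤ i1)
    (h : ∀ i, i1 ≤ i → |De f L k a (2 ^ i) (2 ^ (i + 1))| ≤ ε * (2 ^ i / i)) (I : ℕ) (hI : i1 ≤ I) :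
    |De f L k a (2 ^ i1) (2 ^ I)| ≤ ε * (2 ^ I / i1) := by
  have hi1r : (1 : ℝ) ≤ i1 := by exact_mod_cast hi1
  induction I, hI using Nat.le_induction with
  | base =>
    have : De f L k a (2 ^ i1) (2 ^ i1) = 0 := by
      unfold De cn
      simp
    rw [this, abs_zero]
    positivity
  | succ I hI ih =>
    have h2 : 2 ≤ 2 ^ i1 := by
      calc 2 = 2 ^ 1 := rfl
        _ ≤ 2 ^ i1 := Nat.pow_le_pow_right (by norm_num) hi1
    rw [← De_add f L k a h2 (Nat.pow_le_pow_right (by norm_num) hI)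
      (Nat.pow_le_pow_right (by norm_num) (Nat.le_succ I))]
    refine (abs_add_le _ _).trans ((add_le_add ih (h I hI)).trans ?_)
    have hIr : (i1 : ℝ) ≤ I := by exact_mod_cast hI
    have h3 : (2 : ℝ) ^ I / I ≤ 2 ^ I / i1 := by gcongr
    have h4 : ε * (2 ^ I / I) ≤ ε * (2 ^ I / i1) := mul_le_mul_of_nonneg_left h3 hε
    calc _ ≤ ε * ((2 : ℝ) ^ I / i1) + ε * (2 ^ I / i1) := by linarith
      _ = _ := by rw [pow_succ]; ring

end Pool.Agent.Y122.MH
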