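import Pool.Agent.Y122.MH.Final

/-! The asymptotic formula. -/

set_option autoImplicit false

namespace Pool.Agent.Y122.MH

open MeasureTheory Polynomial Filter Topology
open Pool.Agent.H305R2 (NN ff VV measurable_ff ff_nonneg ff_le_one VV_nonneg roughPart)

lemma il_le {t : ℝ} (ht : 2 ≤ t) : il t ≤ 1 / Real.log 2 := by
  unfold il
  exact one_div_le_one_div_of_le (Real.log_pos (by norm_num)) (Real.log_le_log (by norm_num) ht)

lemma li_up {i : ℕ} (hi : 1 ≤ i) : 0 ≤ ∫ t in (2 : ℝ)..(2 ^ i : ℕ), il t ∧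
    ∫ t in (2 : ℝ)..(2 ^ i : ℕ), il t ≤ 2 * 2 ^ i := by
  have hX : (2 : ℝ) ≤ 2 ^ i := by
    calc (2 : ℝ) = 2 ^ 1 := (pow_one _).symm
      _ ≤ 2 ^ i := pow_le_pow_right₀ (by norm_num) hi
  push_cast
  constructor
  · exact intervalIntegral.integral_nonneg hX fun t ht => il_nonneg ht.1
  · have h1 : ∫ t in (2 : ℝ)..(2 ^ i), il t ≤ ∫ t in (2 : ℝ)..(2 ^ i), 1 / Real.log 2 :=
      intervalIntegral.integral_mono_on hX (ii_il le_rfl hX) intervalIntegrable_const fun t ht => il_le ht.1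
    rw [intervalIntegral.integral_const, smul_eq_mul] at h1
    have h2 : 1 / Real.log 2 ≤ 2 := by
      rw [div_le_iff₀ (Real.log_pos (by norm_num))]
      linarith [Real.log_two_gt_d9]
    calc _ ≤ (2 ^ i - 2) * (1 / Real.log 2) := h1
      _ ≤ 2 ^ i * 2 := by
          refine mul_le_mul (by linarith) h2 ?_ (by positivity)
          have := Real.log_pos (show (1 : ℝ) < 2 by norm_num)
          positivity
      _ = _ := by ring

lemma li_low {I N : ℕ} (hI : 3 ≤ I) (hN1 : 2 ^ I ≤ N) (hN2 : N ≤ 2 ^ (I + 1)) :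
    (2 : ℝ) ^ I / (4 * I) ≤ ∫ t in (2 : ℝ)..N, il t := by
  have hIr : (3 : ℝ) ≤ I := by exact_mod_cast hI
  have hX : (8 : ℝ) ≤ 2 ^ I := by
    calc (8 : ℝ) = 2 ^ 3 := by norm_num
      _ ≤ 2 ^ I := pow_le_pow_right₀ (by norm_num) hI
  have hN1r : (2 : ℝ) ^ I ≤ N := by exact_mod_cast hN1
  have hN2r : (N : ℝ) ≤ 2 ^ (I + 1) := by exact_mod_cast hN2
  have hl2 := Real.log_two_lt_d9
  have hl2p : 0 < Real.log 2 := Real.log_pos (by norm_num)
  have h1 : ∫ t in (2 : ℝ)..N, 1 / (Real.log 2 * (I + 1)) ≤ ∫ t in (2 : ℝ)..N, il t := by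
    refine intervalIntegral.integral_mono_on (by linarith) intervalIntegrable_const
      (ii_il le_rfl (by linarith)) fun t ht => ?_
    unfold il
    have ht0 : 1 < t := by linarith [ht.1]
    have h2 : Real.log t ≤ Real.log 2 * (I + 1) := by
      have : Real.log t ≤ Real.log ((2 : ℝ) ^ (I + 1)) :=
        Real.log_le_log (by linarith) (ht.2.trans hN2r)
      rw [Real.log_pow] at this
      push_cast at this
      linarith
    exact one_div_le_one_div_of_le (Real.log_pos ht0) h2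
  rw [intervalIntegral.integral_const, smul_eq_mul] at h1
  refine le_trans ?_ h1
  rw [mul_one_div, div_le_div_iff₀ (by positivity) (by positivity)]
  have h3 : Real.log 2 * ((I : ℝ) + 1) ≤ I := by nlinarith
  have h4 : (2 : ℝ) ^ I ≤ 4 * ((N : ℝ) - 2) := by linarith
  calc (2 : ℝ) ^ I * (Real.log 2 * (I + 1)) ≤ (4 * ((N : ℝ) - 2)) * I :=
        mul_le_mul h4 h3 (by positivity) (by linarith)
    _ = _ := by ring

lemma log_large (i0 : ℕ) : ∀ᶠ N : ℕ in atTop, i0 ≤ Nat.log 2 N := by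
  filter_upwards [eventually_ge_atTop (2 ^ i0)] with N hN
  exact Nat.le_log_of_pow_le (by norm_num) hN

/-- **The asymptotic formula.** -/
theorem final (f : ℤ[X]) (hd : 1 ≤ f.natDegree) (hlc : 0 < f.leadingCoeff) {L : ℝ}
    (hL : Tendsto (fun k => Dk f k * VV k) atTop (𝓝 L)) :
    ∃ E : Set ℝ, dimH E < 1 ∧ ∀ a : ℝ, a ∉ E → ∀ z : ℕ → ℕ, Tendsto z atTop atTop →
      (∀ᶠ N in atTop, 9 * z N ≤ Nat.log 2 N) →
      Tendsto (fun N : ℕ => (cn f (z N) a 0 N : ℝ) / ∫ t in (2 : ℝ)..N, il t) atTop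
        (𝓝 (L / f.natDegree)) := by
  obtain ⟨E, hE, hstep⟩ := step1 f hd hlc hL
  refine ⟨E, hE, fun a ha z hz hz9 => ?_⟩
  rw [Metric.tendsto_nhds]
  intro ε hε
  set ε1 : ℝ := ε / 20 with hε1
  have hε10 : 0 < ε1 := by positivity
  obtain ⟨k0, hk0⟩ := hstep a ha ε1 hε10
  obtain ⟨i0, hi0⟩ := hk0.exists_forall_of_atTop
  set C1 : ℝ := 1 + |L / f.natDegree| * 2 with hC1
  have hC10 : 0 < C1 := by positivity
  -- the initial part is small
  have hsmall : ∀ᶠ I : ℕ in atTop, C1 * (2 : ℝ) ^ (8 * I / 9) ≤ ε1 * (2 ^ I / I) := by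
    have hr : (1 : ℝ) < (2 : ℝ) ^ (1 / 9 : ℝ) := Real.one_lt_rpow (by norm_num) (by norm_num)
    have h1 := tendsto_pow_const_div_const_pow_of_one_lt 1 hr
    have h2 := h1.eventually_lt_const (show (0 : ℝ) < ε1 / C1 by positivity)
    filter_upwards [h2, eventually_ge_atTop 1] with I h3 h4
    have h5 : (1 : ℝ) ≤ I := by exact_mod_cast h4
    have h5' : (0 : ℝ) < I := by linarith
    have h6 : 0 < ((2 : ℝ) ^ (1 / 9 : ℝ)) ^ I := by positivity
    rw [pow_one, div_lt_iff₀ h6, div_mul_eq_mul_div, lt_div_iff₀ hC10] at h3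
    have h7 : (2 : ℝ) ^ (8 * I / 9) * ((2 : ℝ) ^ (1 / 9 : ℝ)) ^ I ≤ 2 ^ I := by
      rw [← Real.rpow_natCast 2 (8 * I / 9), ← Real.rpow_natCast _ I, ← Real.rpow_natCast 2 I,
        ← Real.rpow_mul (by norm_num), ← Real.rpow_add (by norm_num)]
      refine Real.rpow_le_rpow_of_exponent_le (by norm_num) ?_
      have h8 : (((8 * I / 9 : ℕ)) : ℝ) ≤ ((8 * I : ℕ) : ℝ) / ((9 : ℕ) : ℝ) := Nat.cast_div_le
      push_cast at h8
      linarith
    rw [← mul_div_assoc, le_div_iff₀ h5']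
    calc C1 * (2 : ℝ) ^ (8 * I / 9) * I = (2 : ℝ) ^ (8 * I / 9) * (I * C1) := by ring
      _ ≤ (2 : ℝ) ^ (8 * I / 9) * (ε1 * ((2 : ℝ) ^ (1 / 9 : ℝ)) ^ I) := by gcongr
      _ = ε1 * ((2 : ℝ) ^ (8 * I / 9) * ((2 : ℝ) ^ (1 / 9 : ℝ)) ^ I) := by ring
      _ ≤ ε1 * 2 ^ I := by gcongr
  obtain ⟨I1, hI1⟩ := hsmall.exists_forall_of_atTop
  filter_upwards [hz.eventually_ge_atTop k0, hz9, log_large (2 * i0 + I1 + 3), eventually_ge_atTop 1] with N hN1 hN2
    hN3 hN4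
  set I := Nat.log 2 N with hI
  set k := z N with hk
  have hI3 : 3 ≤ I := by omega
  have hII1 : I1 ≤ I := by omega
  have hNI : 2 ^ I ≤ N := Nat.pow_log_le_self 2 (by omega)
  have hNI2 : N < 2 ^ (I + 1) := Nat.lt_pow_succ_log_self (by norm_num) N
  set i1 := 8 * I / 9 with hi1
  have hi1I : i1 ≤ I := by omega
  have hi1half : I ≤ 2 * i1 := by omega
  have hi11 : 1 ≤ i1 := by omega
  have hi0i1 : i0 ≤ i1 := by omega
  have hk8 : 8 * k ≤ i1 := by omega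
  have hblocks : ∀ i, i1 ≤ i → ∀ M, 2 ^ i ≤ M → M ≤ 2 ^ (i + 1) → |De f L k a (2 ^ i) M| ≤ ε1 * (2 ^ i / i) :=
    fun i hi M h1 h2 => hi0 i (hi0i1.trans hi) k hN1 (hk8.trans hi) M h1 h2
  have h1 := step2 f L k a hε10.le hi11 (fun i hi => hblocks i hi _ (Nat.pow_le_pow_right (by norm_num)
    (Nat.le_succ i)) le_rfl) I hi1I
  have h2 := hblocks I hi1I N hNI hNI2.le
  have h3 := hI1 I hII1
  have hIr : (3 : ℝ) ≤ I := by exact_mod_cast hI3
  have hI0 : (0 : ℝ) < I := by linarith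
  have hi1r : (1 : ℝ) ≤ i1 := by exact_mod_cast hi11
  have hi1h : (I : ℝ) ≤ 2 * i1 := by exact_mod_cast hi1half
  have hX0 : (0 : ℝ) < 2 ^ I := by positivity
  have h4 : ε1 * (2 ^ I / i1) ≤ 2 * (ε1 * ((2 : ℝ) ^ I / I)) := by
    have : (2 : ℝ) ^ I / i1 ≤ 2 * (2 ^ I / I) := by
      rw [← mul_div_assoc, div_le_div_iff₀ (by linarith) hI0]
      nlinarith
    calc ε1 * ((2 : ℝ) ^ I / i1) ≤ ε1 * (2 * (2 ^ I / I)) := by gcongr
      _ = _ := by ring
  -- total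
  set Li := ∫ t in (2 : ℝ)..N, il t with hLi
  have hlow := li_low hI3 hNI hNI2.le
  rw [← hLi] at hlow
  have hLi0 : 0 < Li := lt_of_lt_of_le (by positivity) hlow
  have hpow1 : 2 ≤ 2 ^ i1 := by
    calc 2 = 2 ^ 1 := rfl
      _ ≤ 2 ^ i1 := Nat.pow_le_pow_right (by norm_num) hi11
  have hpowI : 2 ^ i1 ≤ 2 ^ I := Nat.pow_le_pow_right (by norm_num) hi1I
  have htot : (cn f k a 0 N : ℝ) - L / f.natDegree * Li =
      ((cn f k a 0 (2 ^ i1) : ℝ) - L / f.natDegree * ∫ t in (2 : ℝ)..(2 ^ i1 : ℕ), il t) +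
      (De f L k a (2 ^ i1) (2 ^ I) + De f L k a (2 ^ I) N) := by
    rw [De_add f L k a hpow1 hpowI hNI]
    unfold De
    have hA : (2 : ℝ) ≤ ((2 ^ i1 : ℕ) : ℝ) := by exact_mod_cast hpow1
    have hD : (2 : ℝ) ≤ (N : ℝ) := by exact_mod_cast (hpow1.trans hpowI).trans hNI
    rw [hLi, ← intervalIntegral.integral_add_adjacent_intervals (ii_il le_rfl hA) (ii_il hA hD),
      ← cn_add f k a (Nat.zero_le (2 ^ i1)) (hpowI.trans hNI)]
    push_cast
    ring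
  have hfirst : |(cn f k a 0 (2 ^ i1) : ℝ) - L / f.natDegree * ∫ t in (2 : ℝ)..(2 ^ i1 : ℕ), il t| ≤
      ε1 * (2 ^ I / I) := by
    refine le_trans ?_ h3
    obtain ⟨u1, u2⟩ := li_up hi11
    have h5 : ((cn f k a 0 (2 ^ i1) : ℕ) : ℝ) ≤ 2 ^ i1 := by
      have := cn_le f k a 0 (2 ^ i1)
      rw [Nat.sub_zero] at this
      exact_mod_cast this
    have h6 : |L / f.natDegree * ∫ t in (2 : ℝ)..(2 ^ i1 : ℕ), il t| ≤ |L / f.natDegree| * (2 * 2 ^ i1) := by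
      rw [abs_mul, abs_of_nonneg u1]
      gcongr
    refine (abs_sub _ _).trans ?_
    rw [abs_of_nonneg (Nat.cast_nonneg _)]
    calc _ ≤ (2 : ℝ) ^ i1 + |L / f.natDegree| * (2 * 2 ^ i1) := add_le_add h5 h6
      _ = _ := by rw [hC1, hi1]; ring
  have habs : |(cn f k a 0 N : ℝ) - L / f.natDegree * Li| ≤ 4 * (ε1 * (2 ^ I / I)) := by
    rw [htot]
    refine (abs_add_le _ _).trans ?_
    have := abs_add_le (De f L k a (2 ^ i1) (2 ^ I)) (De f L k a (2 ^ I) N)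
    linarith
  rw [Real.dist_eq]
  have e1 : (cn f k a 0 N : ℝ) / Li - L / f.natDegree = ((cn f k a 0 N : ℝ) - L / f.natDegree * Li) / Li := by
    field_simp
  rw [e1, abs_div, abs_of_pos hLi0, div_lt_iff₀ hLi0]
  calc |(cn f k a 0 N : ℝ) - L / f.natDegree * Li| ≤ 4 * (ε1 * (2 ^ I / I)) := habs
    _ = 16 * ε1 * (2 ^ I / (4 * I)) := by ring
    _ ≤ 16 * ε1 * Li := by gcongr
    _ < ε * Li := by
        refine mul_lt_mul_of_pos_right ?_ hLi0
        rw [hε1]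
        linarith

end Pool.Agent.Y122.MH
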