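import Mathlib

/-! Elementary inequalities. -/

set_option autoImplicit false

namespace Pool.Agent.Y122.MH

lemma q1 {ε : ℝ} (h0 : 0 ≤ ε) : 1 - 2 * ε ≤ (1 - ε) / (1 + ε) := by
  rw [le_div_iff₀ (by linarith)]
  nlinarith

lemma q2 {ε : ℝ} (h0 : 0 ≤ ε) (h1 : ε ≤ 1 / 4) : (1 + ε) / (1 - ε) ≤ 1 + 4 * ε := by
  rw [div_le_iff₀ (by linarith)]
  nlinarith

lemma q3 {ε : ℝ} : 1 - 3 * ε ≤ (1 - ε) * (1 - 2 * ε) := by nlinarith [sq_nonneg ε]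

lemma q4 {ε : ℝ} (h0 : 0 ≤ ε) (h1 : ε ≤ 1 / 4) : (1 + ε) * (1 + 4 * ε) ≤ 1 + 6 * ε := by nlinarith

lemma q5 {m j : ℝ} (hm : 0 < m) (hj : 0 ≤ j) : 1 - 1 / m ≤ (m + j) / (m + j + 1) := by
  rw [le_div_iff₀ (by linarith)]
  have h1 : 1 / m * (m + j + 1) = 1 + (j + 1) / m := by field_simp; ring
  have h2 : 0 ≤ (j + 1) / m := by positivity
  have h3 : (1 - 1 / m) * (m + j + 1) = m + j + 1 - 1 / m * (m + j + 1) := by ring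
  rw [h3, h1]
  linarith

lemma q6 {m j : ℝ} (hm : 0 < m) (hj : 0 ≤ j) : (m + j + 1) / (m + j) ≤ 1 + 1 / m := by
  rw [div_le_iff₀ (by linarith)]
  have h1 : 1 / m * (m + j) = 1 + j / m := by field_simp
  have h2 : 0 ≤ j / m := by positivity
  have h3 : (1 + 1 / m) * (m + j) = m + j + 1 / m * (m + j) := by ring
  rw [h3, h1]
  linarith

lemma q7 {m j d ε : ℝ} (hm : 0 < m) (hj1 : j + 1 ≤ m) (hd : 1 ≤ d) (h0 : 0 ≤ ε) :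
    (m + j) / (m * (d * (1 + ε))) ≤ 2 := by
  have h1 : 1 ≤ d * (1 + ε) := by nlinarith
  rw [div_le_iff₀ (by positivity)]
  have h2 : m * 1 ≤ m * (d * (1 + ε)) := mul_le_mul_of_nonneg_left h1 hm.le
  linarith

lemma q8 {m j d ε : ℝ} (hm : 0 < m) (hj1 : j + 1 ≤ m) (hd : 1 ≤ d) (h1 : ε ≤ 1 / 4) :
    (m + j + 1) / (m * (d * (1 - ε))) ≤ 3 := by
  have h2 : 3 / 4 ≤ d * (1 - ε) := by nlinarith
  have h4 : 0 < d * (1 - ε) := by linarith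
  rw [div_le_iff₀ (by positivity)]
  have h3 : m * (3 / 4) ≤ m * (d * (1 - ε)) := mul_le_mul_of_nonneg_left h2 hm.le
  linarith

lemma q9 {m j d ε : ℝ} (hm : 0 < m) (hj : 0 ≤ j) (hd : 0 < d) (h4 : 4 * d ≤ m) (h1 : ε ≤ 1 / 4) :
    d * (1 + ε) / (m + j) ≤ 1 := by
  rw [div_le_one (by linarith)]
  nlinarith

lemma q10 {m j d ε : ℝ} (hm : 0 < m) (hj : 0 ≤ j) (hd : 0 < d) (h4 : 4 * d ≤ m) (h0 : 0 ≤ ε) :
    d * (1 - ε) / (m + j + 1) ≤ 1 := by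
  rw [div_le_one (by linarith)]
  nlinarith

lemma q11 {m j X : ℝ} (hm : 0 < m) (hj1 : j + 1 ≤ m) (hX : 0 < X) : X * (m + j + 1) / m ≤ 2 * X := by
  rw [div_le_iff₀ hm]
  have : X * (m + j + 1) ≤ X * (2 * m) := mul_le_mul_of_nonneg_left (by linarith) hX.le
  linarith

end Pool.Agent.Y122.MH
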