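import Pool.Agent.Y122.MH.Law1
import Pool.Agent.Y122.MH.DimL

/-! The law for the values of a polynomial, outside a set of dimension less than one. -/

set_option autoImplicit false

namespace Pool.Agent.Y122.MH

open MeasureTheory Polynomial Filter Topology
open Pool.Agent.H305R2 (NN measurable_NN mem_Ioc_log ind_eq_sum)

lemma EE_add (g : ℝ[X]) {A B D Q : ℕ} (hAB : A ≤ B) (hBD : B ≤ D) (R : Finset ℕ) (T : Set ℕ) (a : ℝ) :
    EE g A B Q R T a + EE g B D Q R T a = EE g A D Q R T a := by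
  have hI : ∀ u v : ℝ, IntervalIntegrable (fun x => hT T (Real.log (g.eval x) + a)) volume u v := fun u v =>
    ii_of_bdd ((measurable_hT T).comp ((measurable_lg g).add_const a)) (fun _ => hT_nonneg T _)
      (fun _ => hT_le_one T _) _ _
  unfold EE
  rw [← intervalIntegral.integral_add_adjacent_intervals (hI A B) (hI B D),
    Finset.sum_filter, Finset.sum_filter, Finset.sum_filter,
    ← Finset.sum_Ioc_consecutive _ hAB hBD]
  ring

lemma EE_le (g : ℝ[X]) {A B Q : ℕ} (hAB : A ≤ B) (hQ : 1 ≤ Q) {R : Finset ℕ}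
    (hR : R ⊆ Finset.range Q) (T : Set ℕ) (a : ℝ) : |EE g A B Q R T a| ≤ (B : ℝ) - A := by
  have hABr : (A : ℝ) ≤ B := by exact_mod_cast hAB
  have hQ0 : (0 : ℝ) < Q := by exact_mod_cast hQ
  have hcard : (R.card : ℝ) / Q ≤ 1 := by
    rw [div_le_one hQ0]
    have := Finset.card_le_card hR
    rw [Finset.card_range] at this
    exact_mod_cast this
  have h1 : 0 ≤ ∑ n ∈ (Finset.Ioc A B).filter (fun n => n % Q ∈ R), hT T (Real.log (g.eval (n : ℝ)) + a) :=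
    Finset.sum_nonneg fun _ _ => hT_nonneg _ _
  have h2 : ∑ n ∈ (Finset.Ioc A B).filter (fun n => n % Q ∈ R), hT T (Real.log (g.eval (n : ℝ)) + a) ≤
      (B : ℝ) - A := by
    calc _ ≤ ∑ n ∈ (Finset.Ioc A B).filter (fun n => n % Q ∈ R), (1 : ℝ) :=
          Finset.sum_le_sum fun _ _ => hT_le_one _ _
      _ ≤ ∑ n ∈ (Finset.Ioc A B), (1 : ℝ) :=
          Finset.sum_le_sum_of_subset_of_nonneg (Finset.filter_subset _ _) fun _ _ _ => by norm_num
      _ = _ := by rw [Finset.sum_const, Nat.card_Ioc, nsmul_eq_mul, mul_one, Nat.cast_sub hAB]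
  have h3 : 0 ≤ ∫ x in (A : ℝ)..B, hT T (Real.log (g.eval x) + a) :=
    intervalIntegral.integral_nonneg hABr fun _ _ => hT_nonneg _ _
  have h4 : ∫ x in (A : ℝ)..B, hT T (Real.log (g.eval x) + a) ≤ (B : ℝ) - A := by
    have hI := ii_of_bdd ((measurable_hT T).comp ((measurable_lg g).add_const a)) (fun _ => hT_nonneg T _)
      (fun _ => hT_le_one T _) (A : ℝ) B
    calc _ ≤ ∫ x in (A : ℝ)..B, (1 : ℝ) :=
          intervalIntegral.integral_mono hABr hI intervalIntegrable_const fun _ => hT_le_one _ _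
      _ = _ := by rw [intervalIntegral.integral_const, smul_eq_mul, mul_one]
  have h5 : 0 ≤ (R.card : ℝ) / Q := by positivity
  have h6 : (R.card : ℝ) / Q * ∫ x in (A : ℝ)..B, hT T (Real.log (g.eval x) + a) ≤ 1 * ((B : ℝ) - A) :=
    mul_le_mul hcard h4 h3 zero_le_one
  have h7 : 0 ≤ (R.card : ℝ) / Q * ∫ x in (A : ℝ)..B, hT T (Real.log (g.eval x) + a) := mul_nonneg h5 h3
  unfold EE
  rw [abs_le]
  constructor <;> linarith

/-- from the cells to all `N` -/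
lemma all_N (g : ℝ[X]) {i w Q : ℕ} (hw : w ≤ i) (hQ : 1 ≤ Q) {R : Finset ℕ}
    (hR : R ⊆ Finset.range Q) (T : Set ℕ) (a lam : ℝ) (hlam : 0 ≤ lam)
    (h : ∀ j < 2 ^ w, |EE g (2 ^ i + j * 2 ^ (i - w)) (2 ^ i + (j + 1) * 2 ^ (i - w)) Q R T a| ≤ lam)
    {N : ℕ} (hN1 : 2 ^ i ≤ N) (hN2 : N ≤ 2 ^ (i + 1)) :
    |EE g (2 ^ i) N Q R T a| ≤ 2 ^ w * lam + 2 ^ (i - w) := by
  set Lc := 2 ^ (i - w) with hLc
  have hL0 : 0 < Lc := Nat.two_pow_pos _
  have h1 : 2 ^ w * Lc = 2 ^ i := by rw [hLc, ← pow_add]; congr 1; omega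
  set j := (N - 2 ^ i) / Lc with hj
  have hj1 : j * Lc ≤ N - 2 ^ i := Nat.div_mul_le_self _ _
  have hj2 : N - 2 ^ i < (j + 1) * Lc := by
    have := Nat.lt_mul_div_succ (N - 2 ^ i) hL0
    rw [mul_comm]
    exact this
  have h5 : 2 ^ (i + 1) = 2 * 2 ^ i := by ring
  have hj3 : j ≤ 2 ^ w := by
    rw [hj]
    apply Nat.div_le_of_le_mul
    rw [mul_comm, h1]
    omega
  have hpart : ∀ m ≤ j, |EE g (2 ^ i) (2 ^ i + m * Lc) Q R T a| ≤ m * lam := by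
    intro m
    induction m with
    | zero =>
      intro _
      have h2 := EE_le g (le_refl (2 ^ i)) hQ hR T a
      rw [sub_self] at h2
      simpa using h2
    | succ m ih =>
      intro hm
      have h2 := ih (by omega)
      have h3 := h m (by omega)
      have h6 : (m + 1) * Lc = m * Lc + Lc := by ring
      rw [← EE_add g (B := 2 ^ i + m * Lc) (by omega) (by omega) R T a]
      refine (abs_add_le _ _).trans ?_
      push_cast
      linarith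
  have h6 : (j + 1) * Lc = j * Lc + Lc := by ring
  rw [← EE_add g (B := 2 ^ i + j * Lc) (by omega) (by omega) R T a]
  refine (abs_add_le _ _).trans (add_le_add ?_ ?_)
  · refine (hpart j le_rfl).trans ?_
    have : (j : ℝ) ≤ 2 ^ w := by exact_mod_cast hj3
    gcongr
  · refine (EE_le g (by omega) hQ hR T a).trans ?_
    have h7 : N ≤ 2 ^ i + j * Lc + Lc := by omega
    have h8 : (N : ℝ) ≤ ((2 ^ i + j * Lc : ℕ) : ℝ) + (Lc : ℝ) := by exact_mod_cast h7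
    have h9 : (Lc : ℝ) = 2 ^ (i - w) := by rw [hLc]; push_cast; rfl
    rw [← h9]
    linarith

/-- **The law for the values of a polynomial.** -/
theorem law (g : ℝ[X]) (hd : 1 ≤ g.natDegree) (hlc : 0 < g.leadingCoeff) :
    ∃ η : ℝ, 0 < η ∧ η ≤ 1 / 2 ∧ ∀ (M : ℕ → ℕ) (Q : ℕ → ℕ → ℕ) (R : ℕ → ℕ → Finset ℕ) (T : ℕ → ℕ → Set ℕ),
    (∀ᶠ i in atTop, (M i : ℝ) ≤ ((2 : ℝ) ^ i) ^ η) → (∀ᶠ i in atTop, ∀ k < M i, 1 ≤ Q i k) →
    (∀ᶠ i in atTop, ∀ k < M i, (Q i k) ^ 4 ≤ 2 ^ i) →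
    (∀ᶠ i in atTop, ∀ k < M i, R i k ⊆ Finset.range (Q i k)) → (∀ᶠ i in atTop, ∀ k < M i, 0 ∉ T i k) →
    ∃ E : Set ℝ, dimH E ≤ ENNReal.ofReal (1 - η) ∧ ∀ a : ℝ, a ∉ E → ∀ᶠ i in atTop, ∀ k < M i,
      ∀ N : ℕ, 2 ^ i ≤ N → N ≤ 2 ^ (i + 1) →
        |EE g (2 ^ i) N (Q i k) (R i k) (T i k) a| ≤ 3 * ((2 : ℝ) ^ i) ^ (1 - η) := by
  obtain ⟨κ, hκ, hκ1, C1, hC1, hcov⟩ := scale_cover g hd hlc
  set d := g.natDegree with hdd
  set s : ℕ := ⌈8 / κ⌉₊ with hs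
  have hs1 : 8 / κ ≤ s := Nat.le_ceil _
  have hs2 : (s : ℝ) ≤ 16 / κ := by
    have h1 : (s : ℝ) < 8 / κ + 1 := Nat.ceil_lt_add_one (by positivity)
    have h2 : 1 ≤ 8 / κ := by rw [le_div_iff₀ hκ]; linarith
    have h3 : 16 / κ = 8 / κ + 8 / κ := by ring
    linarith
  have hs0 : (0 : ℝ) < s := lt_of_lt_of_le (by positivity) hs1
  have hs0' : 0 < s := by exact_mod_cast hs0
  have hs3 : (1 : ℝ) / s ≤ κ / 8 := by
    rw [div_le_iff₀ hs0]
    calc (1 : ℝ) = κ / 8 * (8 / κ) := by field_simp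
      _ ≤ _ := by gcongr
  have hs4 : κ / 16 ≤ 1 / s := by
    rw [le_div_iff₀ hs0]
    calc κ / 16 * s ≤ κ / 16 * (16 / κ) := by gcongr
      _ = 1 := by field_simp
  set η : ℝ := κ / (16 * (d + 4)) with hη
  have hη0 : 0 < η := by positivity
  have hη1 : η ≤ κ / 64 := by
    rw [hη]
    have : (4 : ℝ) ≤ d + 4 := by linarith [(Nat.cast_nonneg d : (0 : ℝ) ≤ d)]
    exact div_le_div_of_nonneg_left hκ.le (by norm_num) (by linarith)
  have hη2 : (d + 4) * η = κ / 16 := by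
    rw [hη]
    field_simp
  refine ⟨η, hη0, by linarith, ?_⟩
  intro M Q R T hM hQ1 hQ4 hR hT
  set w : ℕ → ℕ := fun i => i / s with hw
  set Bd : ℝ → ℕ → Set ℝ := fun a0 i =>
    BadI g a0 (((2 : ℝ) ^ i) ^ (1 - κ / 4)) i (w i) (M i) (Q i) (R i) (T i) with hBd
  refine ⟨⋃ z : ℤ, {a : ℝ | ∀ i1 : ℕ, ∃ i : ℕ, i1 ≤ i ∧ a ∈ Bd z i}, ?_, ?_⟩
  · rw [dimH_iUnion]
    refine iSup_le fun z => ?_
    obtain ⟨i0, hi0⟩ := hcov z
    obtain ⟨i1, hi1⟩ := (hM.and (hQ1.and (hQ4.and (hR.and hT)))).exists_forall_of_atTop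
    set ρ : ℝ := ((2 : ℝ) ^ (d + 4))⁻¹ with hρ
    have hρ0 : 0 < ρ := by positivity
    have hρ1 : ρ < 1 := inv_lt_one_of_one_lt₀ (one_lt_pow₀ (by norm_num) (by omega))
    set q : ℝ := (2 : ℝ) ^ (-(κ / 8)) with hq
    have hq0 : 0 < q := by positivity
    have hq1 : q < 1 := Real.rpow_lt_one_of_one_lt_of_neg (by norm_num) (by linarith)
    refine dim_limsup (Bd z) (D := 1 - η) (ρ := ρ) (q := q) (C := C1) (by linarith) hρ0 hρ1 hq0 hq1 hC1.le
      ⟨max (max i0 i1) s, fun i hi => ?_⟩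
    obtain ⟨g1, g2, g3, g4, g5⟩ := hi1 i (((le_max_right _ _).trans (le_max_left _ _)).trans hi)
    have hwi : w i ≤ i := Nat.div_le_self _ _
    have hw1 : 1 ≤ w i := (Nat.le_div_iff_mul_le hs0').2 (by
      have := (le_max_right _ _).trans hi; omega)
    obtain ⟨S, hS1, hS2⟩ := hi0 i (((le_max_left _ _).trans (le_max_left _ _)).trans hi) (w i) hw1 hwi (M i)
      (Q i) (R i) (T i) g2 g3 g4 g5
    have hX1 : (1 : ℝ) ≤ (2 : ℝ) ^ i := one_le_pow₀ (by norm_num)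
    have hX0 : (0 : ℝ) < (2 : ℝ) ^ i := by positivity
    have hρi : (((2 : ℝ) ^ i) ^ (d + 4))⁻¹ = ρ ^ i := by
      rw [hρ, inv_pow, ← pow_mul, ← pow_mul, mul_comm]
    refine ⟨S, ?_, ?_⟩
    · have h2w : (2 : ℝ) ^ (w i) ≤ ((2 : ℝ) ^ i) ^ (κ / 8) := by
        rw [← Real.rpow_natCast, ← Real.rpow_natCast, ← Real.rpow_mul (by norm_num)]
        refine Real.rpow_le_rpow_of_exponent_le (by norm_num) ?_
        have h1 : ((w i : ℕ) : ℝ) ≤ (i : ℝ) / s := Nat.cast_div_le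
        calc ((w i : ℕ) : ℝ) ≤ (i : ℝ) / s := h1
          _ = i * (1 / s) := by ring
          _ ≤ i * (κ / 8) := by gcongr
      have hρD : (ρ ^ i) ^ (1 - η) = ((2 : ℝ) ^ i) ^ (-((d + 4) * (1 - η))) := by
        rw [← hρi, ← Real.rpow_natCast, ← Real.rpow_neg hX0.le, ← Real.rpow_mul hX0.le]
        congr 1
        push_cast
        ring
      rw [hρD]
      calc (S.card : ℝ) * ((2 : ℝ) ^ i) ^ (-((d + 4) * (1 - η))) ≤
          (((2 : ℝ) ^ i) ^ η * ((2 : ℝ) ^ i) ^ (κ / 8) * (C1 * ((2 : ℝ) ^ i) ^ ((d + 4 : ℕ) : ℝ) *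
        ((2 : ℝ) ^ i) ^ (-(κ / 2)))) * ((2 : ℝ) ^ i) ^ (-((d + 4) * (1 - η))) := by
            refine mul_le_mul_of_nonneg_right (hS1.trans ?_) (by positivity)
            gcongr
        _ = C1 * (((2 : ℝ) ^ i) ^ η * ((2 : ℝ) ^ i) ^ (κ / 8) * ((2 : ℝ) ^ i) ^ ((d + 4 : ℕ) : ℝ) *
        ((2 : ℝ) ^ i) ^ (-(κ / 2)) * ((2 : ℝ) ^ i) ^ (-((d + 4) * (1 - η)))) := by ring
        _ = C1 * ((2 : ℝ) ^ i) ^ (η + κ / 8 + ((d + 4 : ℕ) : ℝ) + (-(κ / 2)) + (-((d + 4) * (1 - η)))) := by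
            rw [← Real.rpow_add hX0, ← Real.rpow_add hX0, ← Real.rpow_add hX0, ← Real.rpow_add hX0]
        _ ≤ C1 * ((2 : ℝ) ^ i) ^ (-(κ / 8)) := by
            refine mul_le_mul_of_nonneg_left (Real.rpow_le_rpow_of_exponent_le hX1 ?_) hC1.le
            push_cast
            have : (d + 4 : ℝ) * (1 - η) = (d + 4) - κ / 16 := by rw [mul_sub, hη2, mul_one]
            rw [this]
            linarith
        _ = C1 * q ^ i := by
            rw [hq, ← Real.rpow_natCast 2 i, ← Real.rpow_mul (by norm_num),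
              ← Real.rpow_natCast ((2 : ℝ) ^ (-(κ / 8))) i, ← Real.rpow_mul (by norm_num), mul_comm (i : ℝ)]
    · rw [hρi] at hS2
      exact hS2
  · intro a ha
    set z : ℤ := ⌈a⌉ - 1 with hz
    have hz1 : (z : ℝ) < a := by
      rw [hz]
      push_cast
      have := Int.ceil_lt_add_one a
      linarith
    have hz2 : a ≤ (z : ℝ) + 1 := by
      rw [hz]
      push_cast
      have := Int.le_ceil a
      linarith
    have h1 : ¬ ∀ i1 : ℕ, ∃ i : ℕ, i1 ≤ i ∧ a ∈ Bd z i := fun h => ha (Set.mem_iUnion.2 ⟨z, h⟩)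
    push_neg at h1
    obtain ⟨i1, hi1⟩ := h1
    filter_upwards [hQ1, hR, eventually_ge_atTop i1] with i g2 g4 hi k hk N hN1 hN2
    have hnb := hi1 i hi
    have hX1 : (1 : ℝ) ≤ (2 : ℝ) ^ i := one_le_pow₀ (by norm_num)
    have hX0 : (0 : ℝ) < (2 : ℝ) ^ i := by positivity
    have hwi : w i ≤ i := Nat.div_le_self _ _
    set lam : ℝ := ((2 : ℝ) ^ i) ^ (1 - κ / 4) with hlam
    have hlam0 : 0 ≤ lam := by positivity
    have hcells : ∀ j < 2 ^ w i, |EE g (2 ^ i + j * 2 ^ (i - w i)) (2 ^ i + (j + 1) * 2 ^ (i - w i))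
        (Q i k) (R i k) (T i k) a| ≤ lam := by
      intro j hj
      by_contra hcon
      exact hnb ⟨⟨hz1, hz2⟩, k, hk, j, hj, not_le.1 hcon⟩
    refine (all_N g hwi (g2 k hk) (g4 k hk) (T i k) a lam hlam0 hcells hN1 hN2).trans ?_
    have h2w : (2 : ℝ) ^ (w i) ≤ ((2 : ℝ) ^ i) ^ (κ / 8) := by
      rw [← Real.rpow_natCast, ← Real.rpow_natCast, ← Real.rpow_mul (by norm_num)]
      refine Real.rpow_le_rpow_of_exponent_le (by norm_num) ?_
      have h1 : ((w i : ℕ) : ℝ) ≤ (i : ℝ) / s := Nat.cast_div_le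
      calc ((w i : ℕ) : ℝ) ≤ (i : ℝ) / s := h1
        _ = i * (1 / s) := by ring
        _ ≤ i * (κ / 8) := by gcongr
    have h3 : (2 : ℝ) ^ (w i) * lam ≤ ((2 : ℝ) ^ i) ^ (1 - η) := by
      calc (2 : ℝ) ^ (w i) * lam ≤ ((2 : ℝ) ^ i) ^ (κ / 8) * ((2 : ℝ) ^ i) ^ (1 - κ / 4) := by gcongr
        _ = ((2 : ℝ) ^ i) ^ (κ / 8 + (1 - κ / 4)) := (Real.rpow_add hX0 _ _).symm
        _ ≤ _ := Real.rpow_le_rpow_of_exponent_le hX1 (by linarith)
    have h4 : (2 : ℝ) ^ (i - w i) ≤ 2 * ((2 : ℝ) ^ i) ^ (1 - η) := by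
      have h5 : ((i - w i : ℕ) : ℝ) ≤ 1 + i * (1 - η) := by
        rw [Nat.cast_sub hwi]
        have h6 : (i : ℝ) < s * (w i + 1) := by
          have := Nat.lt_mul_div_succ i hs0'
          exact_mod_cast this
        have h7 : (i : ℝ) / s < w i + 1 := by
          rw [div_lt_iff₀ hs0]
          linarith
        have h8 : (i : ℝ) * η ≤ i / s := by
          have : η ≤ 1 / s := by linarith
          calc (i : ℝ) * η ≤ i * (1 / s) := by gcongr
            _ = _ := by ring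
        linarith
      calc (2 : ℝ) ^ (i - w i) = (2 : ℝ) ^ (((i - w i : ℕ)) : ℝ) := (Real.rpow_natCast _ _).symm
        _ ≤ (2 : ℝ) ^ (1 + i * (1 - η)) := Real.rpow_le_rpow_of_exponent_le (by norm_num) h5
        _ = _ := by
            rw [Real.rpow_add (by norm_num), Real.rpow_one, Real.rpow_mul (by norm_num), Real.rpow_natCast]
    linarith

end Pool.Agent.Y122.MH
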