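import Pool.Agent.Y122.MH.Cover

/-! Covering the bad set of one dyadic scale. -/

set_option autoImplicit false

namespace Pool.Agent.Y122.MH

open MeasureTheory Polynomial Filter Topology
open Pool.Agent.H305R2 (NN measurable_NN mem_Ioc_log ind_eq_sum)

lemma NN_le_exp (y : ℝ) : (NN y : ℝ) ≤ Real.exp y := by
  unfold NN
  have h1 : 0 < ⌈Real.exp y⌉₊ := Nat.ceil_pos.2 (Real.exp_pos y)
  have h2 : ⌈Real.exp y⌉₊ - 1 < ⌈Real.exp y⌉₊ := by omega
  exact (Nat.lt_ceil.1 h2).le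

/-- bad parameters at one scale -/
def BadI (g : ℝ[X]) (a0 lam : ℝ) (i w M : ℕ) (Q : ℕ → ℕ) (R : ℕ → Finset ℕ) (T : ℕ → Set ℕ) : Set ℝ :=
  {a | a ∈ Set.Ioc a0 (a0 + 1) ∧ ∃ k < M, ∃ j < 2 ^ w,
    lam < |EE g (2 ^ i + j * 2 ^ (i - w)) (2 ^ i + (j + 1) * 2 ^ (i - w)) (Q k) (R k) (T k) a|}

theorem scale_cover (g : ℝ[X]) (hd : 1 ≤ g.natDegree) (hlc : 0 < g.leadingCoeff) :
    ∃ κ : ℝ, 0 < κ ∧ κ ≤ 1 / 2 ∧ ∃ C1 : ℝ, 0 < C1 ∧ ∀ a0 : ℝ, ∃ i0 : ℕ, ∀ i, i0 ≤ i → ∀ w, 1 ≤ w → w ≤ i →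
    ∀ (M : ℕ) (Q : ℕ → ℕ) (R : ℕ → Finset ℕ) (T : ℕ → Set ℕ), (∀ k < M, 1 ≤ Q k) →
    (∀ k < M, (Q k) ^ 4 ≤ 2 ^ i) → (∀ k < M, R k ⊆ Finset.range (Q k)) → (∀ k < M, 0 ∉ T k) →
    ∃ S : Finset ℝ, (S.card : ℝ) ≤ M * 2 ^ w * (C1 * ((2 : ℝ) ^ i) ^ ((g.natDegree + 4 : ℕ) : ℝ) *
        ((2 : ℝ) ^ i) ^ (-(κ / 2))) ∧
      BadI g a0 (((2 : ℝ) ^ i) ^ (1 - κ / 4)) i w M Q R T ⊆
        ⋃ x ∈ S, Set.Icc x (x + (((2 : ℝ) ^ i) ^ (g.natDegree + 4))⁻¹) := by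
  classical
  obtain ⟨κ, hκ, hκ1, C, hC, hcell⟩ := cell g hd hlc
  set d := g.natDegree with hdd
  refine ⟨κ, hκ, hκ1, 8 * 2 ^ (d + 1) + 16 * C, by positivity, ?_⟩
  intro a0
  obtain ⟨A0, hA0⟩ := hcell a0
  -- growth
  have hgrow : ∀ᶠ x : ℝ in atTop, g.eval x * Real.exp (a0 + 1) ≤ x ^ (d + 1) := by
    have h1 : Tendsto (fun x : ℝ => g.eval x / (X ^ (d + 1) : ℝ[X]).eval x) atTop (𝓝 0) := by
      refine Polynomial.div_tendsto_atTop_zero_of_degree_lt _ _ ?_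
      rw [degree_X_pow]
      have hg0 : g ≠ 0 := fun h => by rw [h] at hlc; simp at hlc
      rw [Polynomial.degree_eq_natDegree hg0, ← hdd]
      exact_mod_cast Nat.lt_succ_self d
    have h2 := h1.eventually_lt_const (show (0 : ℝ) < (Real.exp (a0 + 1))⁻¹ by positivity)
    filter_upwards [h2, eventually_gt_atTop 0] with x h3 hx
    rw [eval_pow, eval_X, div_lt_iff₀ (by positivity)] at h3
    have h4 : 0 < Real.exp (a0 + 1) := by positivity
    calc g.eval x * Real.exp (a0 + 1) ≤ ((Real.exp (a0 + 1))⁻¹ * x ^ (d + 1)) * Real.exp (a0 + 1) :=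
          mul_le_mul_of_nonneg_right h3.le h4.le
      _ = _ := by field_simp
  have hpos : ∀ᶠ x : ℝ in atTop, 1 ≤ g.eval x := by
    have h1 : Tendsto (fun x => g.eval x) atTop atTop := by
      rw [Polynomial.tendsto_atTop_iff_leadingCoeff_nonneg]
      exact ⟨Polynomial.natDegree_pos_iff_degree_pos.1 hd, hlc.le⟩
    exact h1.eventually_ge_atTop 1
  obtain ⟨X1, hX1⟩ := (hgrow.and hpos).exists_forall_of_atTop
  refine ⟨max A0 ⌈X1⌉₊, ?_⟩
  intro i hi w hw hwi M Q R T hQ1 hQ4 hR hT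
  have hii : i < 2 ^ i := Nat.lt_two_pow_self
  have hiA0 : A0 ≤ 2 ^ i := by have := (le_max_left _ _).trans hi; omega
  have hiX1 : X1 ≤ (2 : ℝ) ^ i := by
    have h1 : ⌈X1⌉₊ ≤ 2 ^ i := by have := (le_max_right _ _).trans hi; omega
    exact (Nat.le_ceil _).trans (by exact_mod_cast h1)
  set X : ℝ := (2 : ℝ) ^ i with hX
  have hX1' : 1 ≤ X := one_le_pow₀ (by norm_num)
  have hX0 : 0 < X := by linarith
  set K : ℕ := 2 ^ (i * (d + 4)) with hK
  have hK1 : 1 ≤ K := Nat.one_le_two_pow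
  have hKr : (K : ℝ) = X ^ (d + 4) := by
    rw [hK, hX]
    push_cast
    rw [pow_mul]
  have hK0 : (0 : ℝ) < K := by exact_mod_cast hK1
  set lam : ℝ := X ^ (1 - κ / 4) with hlam
  have hlam1 : 1 ≤ lam := Real.one_le_rpow hX1' (by linarith)
  have hlam0 : 0 < lam := by linarith
  set A : ℕ → ℕ := fun j => 2 ^ i + j * 2 ^ (i - w) with hA
  -- facts about the cells
  have hcf : ∀ j < 2 ^ w, 2 ^ i ≤ A j ∧ A j ≤ A (j + 1) ∧ 2 * A (j + 1) ≤ 3 * A j ∧ A (j + 1) ≤ 2 ^ (i + 1) := by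
    intro j hj
    have h1 : 2 ^ w * 2 ^ (i - w) = 2 ^ i := by rw [← pow_add]; congr 1; omega
    have h2 : 2 * 2 ^ (i - w) ≤ 2 ^ i := by
      rw [← h1]
      refine Nat.mul_le_mul_right _ ?_
      calc 2 = 2 ^ 1 := rfl
        _ ≤ 2 ^ w := Nat.pow_le_pow_right (by norm_num) hw
    have h3 : (j + 1) * 2 ^ (i - w) ≤ 2 ^ i := by
      rw [← h1]
      exact Nat.mul_le_mul_right _ hj
    have h4 : (j + 1) * 2 ^ (i - w) = j * 2 ^ (i - w) + 2 ^ (i - w) := by ring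
    simp only [hA]
    have h5 : 2 ^ (i + 1) = 2 * 2 ^ i := by ring
    refine ⟨by omega, by omega, by omega, by omega⟩
  set Sb : ℕ → ℕ → Finset ℕ := fun k j => (Finset.range K).filter (fun l =>
    ∃ a ∈ Set.Ioc (a0 + l / K) (a0 + (l + 1 : ℕ) / K), lam < |EE g (A j) (A (j + 1)) (Q k) (R k) (T k) a|)
    with hSb
  have hSbc : ∀ k < M, ∀ j < 2 ^ w, ((Sb k j).card : ℝ) ≤
      (8 * 2 ^ (d + 1) + 16 * C) * X ^ ((d + 4 : ℕ) : ℝ) * X ^ (-(κ / 2)) := by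
    intro k hk j hj
    obtain ⟨h1, h2, h3, h4⟩ := hcf j hj
    obtain ⟨h5, h6⟩ := hA0 (A j) (A (j + 1)) (Q k) (hiA0.trans h1) h2 h3 (hQ1 k hk) ((hQ4 k hk).trans h1)
      (R k) (hR k hk) (T k) (hT k hk)
    have h1r : X ≤ (A j : ℝ) := by rw [hX]; exact_mod_cast h1
    have h4r : (A (j + 1) : ℝ) ≤ 2 * X := by
      have : (A (j + 1) : ℝ) ≤ (2 : ℝ) ^ (i + 1) := by exact_mod_cast h4
      rw [pow_succ] at this
      linarith
    have h2r : (A j : ℝ) ≤ A (j + 1) := by exact_mod_cast h2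
    have hm : ∀ x : ℝ, (A j : ℝ) ≤ x → x ≤ A (j + 1) →
        (NN (Real.log (g.eval x) + (a0 + 1)) : ℝ) ≤ (2 * X) ^ (d + 1) := by
      intro x hx1 hx2
      obtain ⟨h7, h8⟩ := hX1 x (by linarith)
      refine (NN_le_exp _).trans ?_
      rw [Real.exp_add, Real.exp_log (by linarith)]
      exact h7.trans (pow_le_pow_left₀ (by linarith) (by linarith) _)
    have h7 := count_bad g h2 (hQ1 k hk) (hR k hk) (T k) a0 hm h5 hK1 hlam0 (Sb k j)
      (Finset.filter_subset _ _) (fun l hl => (Finset.mem_filter.1 hl).2)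
    refine h7.trans ?_
    have h8 : 4 / lam * (2 * (((A (j + 1) : ℝ) - A j) * (2 * X) ^ (d + 1))) ≤
        8 * 2 ^ (d + 1) * (X ^ ((d + 4 : ℕ) : ℝ) * X ^ (-(κ / 2))) := by
      have h9 : 4 / lam ≤ 4 := div_le_self (by norm_num) hlam1
      have h10 : (A (j + 1) : ℝ) - A j ≤ X := by linarith
      have h11 : (0 : ℝ) ≤ (A (j + 1) : ℝ) - A j := by linarith
      have h12 : X ^ (d + 2) ≤ X ^ ((d + 4 : ℕ) : ℝ) * X ^ (-(κ / 2)) := by
        rw [← Real.rpow_natCast X (d + 2), ← Real.rpow_add hX0]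
        refine Real.rpow_le_rpow_of_exponent_le hX1' ?_
        push_cast
        linarith
      calc 4 / lam * (2 * (((A (j + 1) : ℝ) - A j) * (2 * X) ^ (d + 1))) ≤
          4 * (2 * (X * (2 * X) ^ (d + 1))) := by gcongr
        _ = 8 * 2 ^ (d + 1) * X ^ (d + 2) := by rw [mul_pow]; ring
        _ ≤ _ := by gcongr
    have h9 : 4 * K / lam ^ 2 * (∫ a in Set.Ioc a0 (a0 + 1), EE g (A j) (A (j + 1)) (Q k) (R k) (T k) a ^ 2) ≤
        16 * C * (X ^ ((d + 4 : ℕ) : ℝ) * X ^ (-(κ / 2))) := by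
      have h10 : (A j : ℝ) ^ (2 - κ) ≤ 4 * X ^ (2 - κ) := by
        have h11 : (A j : ℝ) ≤ 2 * X := by linarith
        calc (A j : ℝ) ^ (2 - κ) ≤ (2 * X) ^ (2 - κ) :=
              Real.rpow_le_rpow (by positivity) h11 (by linarith)
          _ = 2 ^ (2 - κ) * X ^ (2 - κ) := Real.mul_rpow (by norm_num) hX0.le
          _ ≤ 4 * X ^ (2 - κ) := by
              refine mul_le_mul_of_nonneg_right ?_ (by positivity)
              calc (2 : ℝ) ^ (2 - κ) ≤ (2 : ℝ) ^ (2 : ℝ) :=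
                    Real.rpow_le_rpow_of_exponent_le (by norm_num) (by linarith)
                _ = 4 := by norm_num
      have h12 : X ^ (2 - κ) / lam ^ 2 = X ^ (-(κ / 2)) := by
        rw [hlam, ← Real.rpow_natCast, ← Real.rpow_mul hX0.le, ← Real.rpow_sub hX0]
        congr 1
        push_cast
        ring
      calc _ ≤ 4 * K / lam ^ 2 * (C * (4 * X ^ (2 - κ))) := by
            refine mul_le_mul_of_nonneg_left (h6.trans ?_) (by positivity)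
            gcongr
        _ = 16 * C * (K * (X ^ (2 - κ) / lam ^ 2)) := by ring
        _ = _ := by rw [h12, hKr, Real.rpow_natCast]
    calc _ ≤ 8 * 2 ^ (d + 1) * (X ^ ((d + 4 : ℕ) : ℝ) * X ^ (-(κ / 2))) +
          16 * C * (X ^ ((d + 4 : ℕ) : ℝ) * X ^ (-(κ / 2))) := add_le_add h8 h9
      _ = _ := by ring
  refine ⟨(Finset.range M ×ˢ Finset.range (2 ^ w)).biUnion (fun p => (Sb p.1 p.2).image
    (fun l : ℕ => a0 + (l : ℝ) / K)), ?_, ?_⟩
  · calc ((((Finset.range M ×ˢ Finset.range (2 ^ w)).biUnion (fun p => (Sb p.1 p.2).image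
        (fun l : ℕ => a0 + (l : ℝ) / K))).card : ℕ) : ℝ) ≤
        ∑ p ∈ Finset.range M ×ˢ Finset.range (2 ^ w), (((Sb p.1 p.2).image
          (fun l : ℕ => a0 + (l : ℝ) / K)).card : ℝ) := by exact_mod_cast Finset.card_biUnion_le
      _ ≤ ∑ p ∈ Finset.range M ×ˢ Finset.range (2 ^ w),
          ((8 * 2 ^ (d + 1) + 16 * C) * X ^ ((d + 4 : ℕ) : ℝ) * X ^ (-(κ / 2))) := by
          refine Finset.sum_le_sum fun p hp => ?_
          rw [Finset.mem_product, Finset.mem_range, Finset.mem_range] at hp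
          refine le_trans ?_ (hSbc p.1 hp.1 p.2 hp.2)
          exact_mod_cast Finset.card_image_le
      _ = _ := by
          rw [Finset.sum_const, Finset.card_product, Finset.card_range, Finset.card_range, nsmul_eq_mul]
          push_cast
          ring
  · rintro a ⟨ha, k, hk, j, hj, hl⟩
    set l := ⌈(a - a0) * K⌉₊ - 1 with hldef
    have hc1 : 0 < (a - a0) * K := mul_pos (by linarith [ha.1]) hK0
    have hc2 : 0 < ⌈(a - a0) * K⌉₊ := Nat.ceil_pos.2 hc1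
    have hc3 : ⌈(a - a0) * K⌉₊ ≤ K := by
      rw [Nat.ceil_le]
      have : a - a0 ≤ 1 := by linarith [ha.2]
      nlinarith
    have hl1 : l < K := by omega
    have hl2 : (l : ℝ) < (a - a0) * K := by
      have : l < ⌈(a - a0) * K⌉₊ := by omega
      exact Nat.lt_ceil.1 this
    have hl3 : (a - a0) * K ≤ ((l + 1 : ℕ) : ℝ) := by
      have : ⌈(a - a0) * K⌉₊ ≤ l + 1 := by omega
      exact Nat.ceil_le.1 this
    have hl4 : a0 + (l : ℝ) / K < a := by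
      have : (l : ℝ) / K < a - a0 := by rwa [div_lt_iff₀ hK0]
      linarith
    have hl5 : a ≤ a0 + ((l + 1 : ℕ) : ℝ) / K := by
      have : a - a0 ≤ ((l + 1 : ℕ) : ℝ) / K := by rwa [le_div_iff₀ hK0]
      linarith
    simp only [Set.mem_iUnion, exists_prop]
    refine ⟨a0 + (l : ℝ) / K, ?_, hl4.le, ?_⟩
    · rw [Finset.mem_biUnion]
      refine ⟨(k, j), Finset.mem_product.2 ⟨Finset.mem_range.2 hk, Finset.mem_range.2 hj⟩, ?_⟩
      rw [Finset.mem_image]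
      exact ⟨l, Finset.mem_filter.2 ⟨Finset.mem_range.2 hl1, a, ⟨hl4, hl5⟩, hl⟩, rfl⟩
    · rw [← hKr]
      refine hl5.trans (le_of_eq ?_)
      push_cast
      field_simp
      ring

end Pool.Agent.Y122.MH
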