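import Pool.Agent.Y122.MH.Piece

/-! The main term for numbers with a prime rough part, all endpoints. -/

set_option autoImplicit false

namespace Pool.Agent.Y122.MH

open MeasureTheory Polynomial Filter Topology
open Pool.Agent.H305R2 (NN ff VV measurable_ff ff_nonneg ff_le_one VV_nonneg)

/-- **The main term.** -/
theorem main_term (g : ℝ[X]) (hd : 1 ≤ g.natDegree) (hlc : 0 < g.leadingCoeff) (a : ℝ) {ε : ℝ}
    (hε : 0 < ε) : ∀ᶠ i : ℕ in atTop, ∀ k : ℕ, k ≤ i → ∀ v : ℝ, (2 : ℝ) ^ i ≤ v → v ≤ 2 * 2 ^ i →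
      |(∫ x in ((2 : ℝ) ^ i)..v, ff k (Real.log (g.eval x) + a)) -
        VV k / (g.natDegree * Real.log 2 * i) * (v - 2 ^ i)| ≤ ε * (VV k / i * 2 ^ i) := by
  obtain ⟨C, hC, hpiece⟩ := piece g hd hlc a
  have hd0 : (0 : ℝ) < g.natDegree := by exact_mod_cast hd
  have hl2 : 0 < Real.log 2 := Real.log_pos (by norm_num)
  set θ : ℝ := g.natDegree * Real.log 2 with hθ
  have hθ0 : 0 < θ := by positivity
  set m : ℕ := max (4 * g.natDegree) ⌈(1 / θ + C) / ε⌉₊ with hm
  have hm1 : 4 * g.natDegree ≤ m := le_max_left _ _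
  have hm0 : 0 < m := by omega
  have hmr : (0 : ℝ) < m := by exact_mod_cast hm0
  have hm2 : (1 / θ + C) / ε ≤ m := (Nat.le_ceil _).trans (by exact_mod_cast le_max_right _ _)
  filter_upwards [hpiece m hm1, eventually_ge_atTop 1] with i hi hi1 k hk v hv1 hv2
  have hir : (1 : ℝ) ≤ i := by exact_mod_cast hi1
  have hi0 : (0 : ℝ) < i := by linarith
  have hV0 : 0 ≤ VV k := VV_nonneg k
  have hmeas : Measurable (fun x : ℝ => ff k (Real.log (g.eval x) + a)) :=
    (measurable_ff k).comp ((measurable_lg g).add_const a)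
  have h1 := pieces (F := fun x => ff k (Real.log (g.eval x) + a)) (fun _ => ff_nonneg _ _)
    (fun a b => ii_of_bdd hmeas (fun _ => ff_nonneg _ _) (fun _ => ff_le_one _ _) a b)
    (show (0 : ℝ) < 2 ^ i by positivity) (c := VV k / (θ * i)) (by positivity) hm0 (hi k hk) hv1 hv2
  refine h1.trans ?_
  have e1 : VV k / (θ * i) * (2 ^ i / m) + m * (C / m ^ 2 * (VV k / i * 2 ^ i)) =
      (1 / θ + C) / m * (VV k / i * 2 ^ i) := by
    field_simp
  rw [e1]
  refine mul_le_mul_of_nonneg_right ?_ (by positivity)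
  rw [div_le_iff₀ hmr]
  rw [div_le_iff₀ hε] at hm2
  linarith

end Pool.Agent.Y122.MH
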