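import Pool.Agent.Y122.MH.Win
import Pool.Agent.Y122.MH.Cov
import Pool.Agent.Y122.MH.Cell3
import Pool.Agent.Y122.MH.Ineq

/-! The main term for numbers with a prime rough part. -/

set_option autoImplicit false

namespace Pool.Agent.Y122.MH

open MeasureTheory Polynomial Filter Topology
open Pool.Agent.H305R2 (NN ff VV measurable_ff ff_nonneg ff_le_one VV_nonneg)

/-- the derivative of `log g` -/
lemma Fc_one (g : ℝ[X]) (hd : 1 ≤ g.natDegree) (hlc : 0 < g.leadingCoeff) {ε : ℝ} (hε : 0 < ε) :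
    ∀ᶠ x : ℝ in atTop, (g.natDegree : ℝ) * (1 - ε) ≤ x * Fc g 1 x ∧
      x * Fc g 1 x ≤ (g.natDegree : ℝ) * (1 + ε) ∧ HasDerivAt (fun x => Real.log (g.eval x)) (Fc g 1 x) x := by
  have hd0 : (0 : ℝ) < g.natDegree := by exact_mod_cast hd
  obtain ⟨c0, C0, X0, _, _, _, _, hder, _⟩ := chain g hd hlc 0
  have h1 : Tendsto (fun x : ℝ => x * Fc g 1 x) atTop (𝓝 (g.natDegree : ℝ)) := by
    have h2 := tendsto_Sg (g.map (algebraMap ℝ ℂ)).roots 1
    have hcard : Multiset.card (g.map (algebraMap ℝ ℂ)).roots = g.natDegree := by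
      rw [← (IsAlgClosed.splits (g.map (algebraMap ℝ ℂ))).natDegree_eq_card_roots, natDegree_map]
    rw [hcard] at h2
    refine h2.congr fun x => ?_
    show x ^ 1 * Sg _ 1 x = x * ((-1) ^ 0 * ((Nat.factorial 0 : ℕ) : ℝ) * Sg _ (0 + 1) x)
    simp
  have h3 := h1.eventually_const_lt (show (g.natDegree : ℝ) * (1 - ε) < g.natDegree by nlinarith)
  have h4 := h1.eventually_lt_const (show (g.natDegree : ℝ) < g.natDegree * (1 + ε) by nlinarith)
  filter_upwards [h3, h4, eventually_ge_atTop X0] with x h5 h6 h7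
  exact ⟨h5.le, h6.le, hder 0 (by omega) x h7⟩

/-- the size of `log g` -/
lemma log_near (g : ℝ[X]) (hd : 1 ≤ g.natDegree) (hlc : 0 < g.leadingCoeff) (a : ℝ) :
    ∃ C : ℝ, ∀ᶠ i : ℕ in atTop, ∀ x : ℝ, (2 : ℝ) ^ i ≤ x → x ≤ 2 * 2 ^ i →
      |Real.log (g.eval x) + a - (g.natDegree * Real.log 2) * i| ≤ C := by
  have hd0 : (0 : ℝ) < g.natDegree := by exact_mod_cast hd
  set lc := g.leadingCoeff with hlcd
  have hg0 : g ≠ 0 := fun h => by rw [h] at hd; simp at hd
  have h1 : Tendsto (fun x : ℝ => g.eval x / (X ^ g.natDegree : ℝ[X]).eval x) atTop (𝓝 (lc / 1)) := by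
    have h2 := Polynomial.div_tendsto_atTop_leadingCoeff_div_of_degree_eq g (X ^ g.natDegree) (by
      rw [degree_X_pow, Polynomial.degree_eq_natDegree hg0])
    rw [leadingCoeff_X_pow] at h2
    exact h2
  rw [div_one] at h1
  have h3 := h1.eventually_const_lt (show lc / 2 < lc by linarith)
  have h4 := h1.eventually_lt_const (show lc < 2 * lc by linarith)
  obtain ⟨X1, hX1⟩ := (h3.and (h4.and (eventually_ge_atTop (1 : ℝ)))).exists_forall_of_atTop
  refine ⟨|Real.log (lc / 2)| + |Real.log (2 * lc)| + |a| + g.natDegree * Real.log 2, ?_⟩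
  have hpow : Tendsto (fun i : ℕ => (2 : ℝ) ^ i) atTop atTop := tendsto_pow_atTop_atTop_of_one_lt (by norm_num)
  filter_upwards [hpow.eventually_ge_atTop X1] with i hi x hx1 hx2
  obtain ⟨h5, h6, h7⟩ := hX1 x (hi.trans hx1)
  have hx0 : 0 < x := by linarith
  have hp0 : 0 < x ^ g.natDegree := by positivity
  rw [eval_pow, eval_X, lt_div_iff₀ hp0] at h5
  rw [eval_pow, eval_X, div_lt_iff₀ hp0] at h6
  have hgp : 0 < g.eval x := lt_trans (by positivity) h5
  have h8 : Real.log (lc / 2) + g.natDegree * Real.log x ≤ Real.log (g.eval x) := by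
    rw [← Real.log_pow, ← Real.log_mul (by positivity) (by positivity)]
    exact Real.log_le_log (by positivity) h5.le
  have h9 : Real.log (g.eval x) ≤ Real.log (2 * lc) + g.natDegree * Real.log x := by
    rw [← Real.log_pow, ← Real.log_mul (by positivity) (by positivity)]
    exact Real.log_le_log hgp h6.le
  have h10 : (i : ℝ) * Real.log 2 ≤ Real.log x := by
    rw [← Real.log_pow]
    exact Real.log_le_log (by positivity) hx1
  have h11 : Real.log x ≤ Real.log 2 + i * Real.log 2 := by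
    rw [← Real.log_pow, ← Real.log_mul (by norm_num) (by positivity)]
    exact Real.log_le_log hx0 hx2
  have h12 : (g.natDegree : ℝ) * (i * Real.log 2) ≤ g.natDegree * Real.log x :=
    mul_le_mul_of_nonneg_left h10 hd0.le
  have h13 : (g.natDegree : ℝ) * Real.log x ≤ g.natDegree * (Real.log 2 + i * Real.log 2) :=
    mul_le_mul_of_nonneg_left h11 hd0.le
  have k1 := neg_abs_le (Real.log (lc / 2))
  have k2 := le_abs_self (Real.log (2 * lc))
  have k3 := neg_abs_le a
  have k4 := le_abs_self a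
  have k5 := abs_nonneg (Real.log (lc / 2))
  have k6 := abs_nonneg (Real.log (2 * lc))
  have k7 : 0 ≤ (g.natDegree : ℝ) * Real.log 2 := by
    have := Real.log_pos (show (1 : ℝ) < 2 by norm_num)
    positivity
  rw [abs_le]
  constructor <;> nlinarith

/-- **One piece.** -/
theorem piece (g : ℝ[X]) (hd : 1 ≤ g.natDegree) (hlc : 0 < g.leadingCoeff) (a : ℝ) :
    ∃ C : ℝ, 0 ≤ C ∧ ∀ m : ℕ, 4 * g.natDegree ≤ m → ∀ᶠ i : ℕ in atTop, ∀ k : ℕ, k ≤ i → ∀ j < m,
      |(∫ x in ((2 : ℝ) ^ i + j * (2 ^ i / m))..((2 : ℝ) ^ i + (j + 1 : ℕ) * (2 ^ i / m)),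
        ff k (Real.log (g.eval x) + a)) -
        VV k / (g.natDegree * Real.log 2 * i) * (2 ^ i / m)| ≤
      C / m ^ 2 * (VV k / i * 2 ^ i) := by
  have hd0 : (0 : ℝ) < g.natDegree := by exact_mod_cast hd
  have hd1 : (1 : ℝ) ≤ g.natDegree := by exact_mod_cast hd
  have hl2 : 0 < Real.log 2 := Real.log_pos (by norm_num)
  set d : ℝ := (g.natDegree : ℝ) with hdd
  set θ : ℝ := d * Real.log 2 with hθ
  have hθ0 : 0 < θ := by positivity
  obtain ⟨C1, hC1⟩ := log_near g hd hlc a
  refine ⟨20 / θ + 12, by positivity, ?_⟩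
  intro m hm
  have hm4 : 4 ≤ m := by omega
  have hmr : (4 : ℝ) ≤ m := by exact_mod_cast hm4
  have hm0 : (0 : ℝ) < m := by linarith
  have hmd : 4 * d ≤ m := by rw [hdd]; exact_mod_cast hm
  set ε : ℝ := 1 / m with hε
  have hε0 : 0 < ε := by positivity
  have hε4 : ε ≤ 1 / 4 := by
    rw [hε]
    exact one_div_le_one_div_of_le (by norm_num) hmr
  set ε2 : ℝ := 1 / m ^ 2 with hε2
  have hε20 : 0 < ε2 := by positivity
  have hpow : Tendsto (fun i : ℕ => (2 : ℝ) ^ i) atTop atTop := tendsto_pow_atTop_atTop_of_one_lt (by norm_num)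
  obtain ⟨X1, hX1⟩ := (Fc_one g hd hlc hε0).exists_forall_of_atTop
  -- the window lemma for all needed lengths
  have hlen : ∀ j ∈ Finset.range m, ∀ᶠ i : ℕ in atTop, ∀ k : ℕ, k ≤ i → ∀ y : ℝ, |y - θ * i| ≤ C1 →
      |(∫ t in Set.Ioc y (y + d * (1 + ε) / (m + j)), ff k t) - VV k * (d * (1 + ε) / (m + j) / (θ * i))| ≤
        ε2 * (VV k / i) ∧
      |(∫ t in Set.Ioc y (y + d * (1 - ε) / (m + j + 1)), ff k t) -
        VV k * (d * (1 - ε) / (m + j + 1) / (θ * i))| ≤ ε2 * (VV k / i) := by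
    intro j _
    have hj0 : (0 : ℝ) ≤ j := Nat.cast_nonneg j
    have l1 : d * (1 + ε) / (m + j) ≤ 1 := q9 hm0 hj0 hd0 hmd hε4
    have l2 : d * (1 - ε) / (m + j + 1) ≤ 1 := q10 hm0 hj0 hd0 hmd hε0.le
    have l3 : 0 < 1 - ε := by linarith
    filter_upwards [win (C := C1) hθ0 (show 0 < d * (1 + ε) / (m + j) by positivity) l1 hε20,
      win (C := C1) hθ0 (show 0 < d * (1 - ε) / (m + j + 1) by positivity) l2 hε20] with i h1 h2 k hk y hy
    exact ⟨h1 k hk y hy, h2 k hk y hy⟩
  have hall := (Finset.eventually_all (Finset.range m)).2 hlen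
  filter_upwards [hall, hC1, hpow.eventually_ge_atTop (max X1 1), eventually_ge_atTop 1] with i g1 g2 g3 g4 k hk j hj
  have hi1 : (1 : ℝ) ≤ i := by exact_mod_cast g4
  have hi0 : (0 : ℝ) < i := by linarith
  have hX1i : X1 ≤ 2 ^ i := (le_max_left _ _).trans g3
  have hj0 : (0 : ℝ) ≤ j := Nat.cast_nonneg j
  have hjm : (j : ℝ) + 1 ≤ m := by exact_mod_cast hj
  set Xi : ℝ := (2 : ℝ) ^ i with hXi
  have hXi0 : 0 < Xi := by positivity
  set u : ℝ := Xi + j * (Xi / m) with hu
  set v : ℝ := Xi + (j + 1 : ℕ) * (Xi / m) with hv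
  have hu' : u = Xi * (m + j) / m := by rw [hu]; field_simp
  have hv' : v = Xi * (m + j + 1) / m := by rw [hv]; push_cast; field_simp; ring
  have hvu : v - u = Xi / m := by rw [hu, hv]; push_cast; ring
  have hXm : 0 < Xi / m := by positivity
  have huv : u ≤ v := by linarith
  have hXu : Xi ≤ u := by
    rw [hu]
    have : 0 ≤ (j : ℝ) * (Xi / m) := by positivity
    linarith
  have hv2 : v ≤ 2 * Xi := by
    rw [hv']
    exact q11 hm0 hjm hXi0
  have hu0 : 0 < u := by linarith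
  have hv0 : 0 < v := by linarith
  -- bounds for the derivative
  have l3 : 0 < 1 - ε := by linarith
  set p : ℝ := d * (1 - ε) / v with hp
  set P : ℝ := d * (1 + ε) / u with hP
  have hp0 : 0 < p := by positivity
  have hP0 : 0 < P := by positivity
  have hb : ∀ x ∈ Set.Icc u v, p ≤ Fc g 1 x ∧ Fc g 1 x ≤ P := by
    intro x hx
    obtain ⟨k1, k2, _⟩ := hX1 x (by linarith [hx.1])
    have hx0 : 0 < x := by linarith [hx.1]
    constructor
    · rw [hp, div_le_iff₀ hv0]
      have h1 : 0 ≤ Fc g 1 x := by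
        by_contra h
        have : x * Fc g 1 x < 0 := mul_neg_of_pos_of_neg hx0 (not_le.1 h)
        have : 0 < d * (1 - ε) := by positivity
        linarith
      calc d * (1 - ε) ≤ x * Fc g 1 x := k1
        _ ≤ v * Fc g 1 x := mul_le_mul_of_nonneg_right hx.2 h1
        _ = _ := mul_comm _ _
    · rw [hP, le_div_iff₀ hu0]
      rcases le_or_gt 0 (Fc g 1 x) with h1 | h1
      · calc Fc g 1 x * u ≤ Fc g 1 x * x := mul_le_mul_of_nonneg_left hx.1 h1
          _ ≤ _ := by rw [mul_comm]; exact k2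
      · have : Fc g 1 x * u < 0 := mul_neg_of_neg_of_pos h1 hu0
        have : 0 < d * (1 + ε) := by positivity
        linarith
  set F : ℝ → ℝ := fun t => ff k (t + a) with hF
  have hFm : Measurable F := (measurable_ff k).comp (measurable_id.add_const a)
  have hcov := cov_bounds (y := fun x => Real.log (g.eval x)) (y' := Fc g 1) huv hp0
    (fun x hx => (hX1 x (by linarith [hx.1])).2.2) hb hFm (fun x => ff_nonneg _ _) (fun x => ff_le_one _ _)
  set yu := Real.log (g.eval u) with hyu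
  set yv := Real.log (g.eval v) with hyv
  obtain ⟨c1, c2, c3, c4⟩ := hcov
  have hshift : ∀ s t : ℝ, s ≤ t → ∫ x in Set.Ioc s t, F x = ∫ x in Set.Ioc (s + a) (t + a), ff k x := by
    intro s t hst
    rw [← intervalIntegral.integral_of_le hst, ← intervalIntegral.integral_of_le (by linarith), hF,
      intervalIntegral.integral_comp_add_right (fun x => ff k x) a]
  have hIff : ∀ s t : ℝ, IntegrableOn (ff k) (Set.Ioc s t) := Pool.Agent.H305R2.integrableOn_ff k
  -- lengths
  have hlp : P * (v - u) = d * (1 + ε) / (m + j) := by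
    rw [hP, hvu, hu']
    field_simp
  have hlm : p * (v - u) = d * (1 - ε) / (m + j + 1) := by
    rw [hp, hvu, hv']
    field_simp
  rw [hlp] at c2
  rw [hlm] at c1
  have hlm0 : 0 ≤ d * (1 - ε) / (m + j + 1) := by positivity
  have hyuv : yu ≤ yv := by linarith
  have hwin := g1 j (Finset.mem_range.2 hj) k hk (yu + a) (g2 u hXu (by linarith))
  obtain ⟨w1, w2⟩ := hwin
  rw [abs_le] at w1 w2
  have hI1 : ∫ x in Set.Ioc yu yv, F x ≤ ∫ t in Set.Ioc (yu + a) (yu + a + d * (1 + ε) / (m + j)), ff k t := by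
    rw [hshift yu yv hyuv]
    refine setIntegral_mono_set (hIff _ _) (Eventually.of_forall fun x => ff_nonneg _ _) ?_
    exact (Set.Ioc_subset_Ioc_right (by linarith)).eventuallyLE
  have hI2 : ∫ t in Set.Ioc (yu + a) (yu + a + d * (1 - ε) / (m + j + 1)), ff k t ≤
      ∫ x in Set.Ioc yu yv, F x := by
    rw [hshift yu yv hyuv]
    refine setIntegral_mono_set (hIff _ _) (Eventually.of_forall fun x => ff_nonneg _ _) ?_
    exact (Set.Ioc_subset_Ioc_right (by linarith)).eventuallyLE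
  rw [intervalIntegral.integral_of_le huv]
  set W := ∫ x in Set.Ioc u v, ff k (Real.log (g.eval x) + a) with hW
  set V := VV k / i with hV
  have hV0 : 0 < V := by
    have := one_le_VV k
    positivity
  have hup : W * p ≤ V * (d * (1 + ε) / (m + j) / θ) + ε2 * V := by
    have e1 : VV k * (d * (1 + ε) / (m + j) / (θ * i)) = V * (d * (1 + ε) / (m + j) / θ) := by
      rw [hV]; field_simp
    rw [e1] at w1
    linarith [w1.2, mul_comm p W]
  have hdn : V * (d * (1 - ε) / (m + j + 1) / θ) - ε2 * V ≤ W * P := by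
    have e1 : VV k * (d * (1 - ε) / (m + j + 1) / (θ * i)) = V * (d * (1 - ε) / (m + j + 1) / θ) := by
      rw [hV]; field_simp
    rw [e1] at w2
    linarith [w2.1, mul_comm P W]
  have htarget : VV k / (θ * i) * (Xi / m) = V * Xi / (θ * m) := by
    rw [hV]; field_simp
  rw [htarget]
  have hr : C1 = C1 := rfl
  rw [abs_le]
  constructor
  · -- lower bound
    have h1 : V * Xi / (θ * m) - (20 / θ + 12) / m ^ 2 * (V * Xi) ≤
        (V * (d * (1 - ε) / (m + j + 1) / θ) - ε2 * V) / P := by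
      have h2 : (V * (d * (1 - ε) / (m + j + 1) / θ) - ε2 * V) / P =
          V * Xi * ((m + j) / (m + j + 1) * ((1 - ε) / (1 + ε)) / (θ * m) - ε2 * ((m + j) / (m * (d * (1 + ε))))) := by
        rw [hP, hu']
        field_simp
      rw [h2]
      have h3 : 1 - ε ≤ (m + j : ℝ) / (m + j + 1) := q5 hm0 hj0
      have h4 : 1 - 2 * ε ≤ (1 - ε) / (1 + ε) := q1 hε0.le
      have h5 : 1 - 3 * ε ≤ (m + j : ℝ) / (m + j + 1) * ((1 - ε) / (1 + ε)) :=
        q3.trans (mul_le_mul h3 h4 (by linarith) (by positivity))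
      have h6 : (m + j : ℝ) / (m * (d * (1 + ε))) ≤ 2 := q7 hm0 hjm hd1 hε0.le
      have h7 : (1 - 3 * ε) / (θ * m) ≤ (m + j : ℝ) / (m + j + 1) * ((1 - ε) / (1 + ε)) / (θ * m) := by
        gcongr
      have h8 : V * Xi / (θ * m) - (20 / θ + 12) / m ^ 2 * (V * Xi) ≤
          V * Xi * ((1 - 3 * ε) / (θ * m) - ε2 * 2) := by
        have e2 : V * Xi * ((1 - 3 * ε) / (θ * m) - ε2 * 2) = V * Xi / (θ * m) -
            (3 / θ + 2) / m ^ 2 * (V * Xi) := by
          rw [hε, hε2]
          field_simp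
          ring
        rw [e2]
        have h9 : (3 / θ + 2) / m ^ 2 * (V * Xi) ≤ (20 / θ + 12) / m ^ 2 * (V * Xi) := by
          have : 3 / θ ≤ 20 / θ := by gcongr; norm_num
          gcongr
          linarith
        linarith
      refine h8.trans (mul_le_mul_of_nonneg_left ?_ (by positivity))
      have h10 : ε2 * ((m + j : ℝ) / (m * (d * (1 + ε)))) ≤ ε2 * 2 := by gcongr
      linarith
    have h2 : (V * (d * (1 - ε) / (m + j + 1) / θ) - ε2 * V) / P ≤ W := by
      rw [div_le_iff₀ hP0]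
      exact hdn
    linarith
  · have h1 : (V * (d * (1 + ε) / (m + j) / θ) + ε2 * V) / p ≤
        V * Xi / (θ * m) + (20 / θ + 12) / m ^ 2 * (V * Xi) := by
      have h2 : (V * (d * (1 + ε) / (m + j) / θ) + ε2 * V) / p =
          V * Xi * ((m + j + 1) / (m + j) * ((1 + ε) / (1 - ε)) / (θ * m) + ε2 * ((m + j + 1) / (m * (d * (1 - ε))))) := by
        rw [hp, hv']
        field_simp
      rw [h2]
      have h3 : (m + j + 1 : ℝ) / (m + j) ≤ 1 + ε := q6 hm0 hj0
      have h4 : (1 + ε) / (1 - ε) ≤ 1 + 4 * ε := q2 hε0.le hε4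
      have h5 : (m + j + 1 : ℝ) / (m + j) * ((1 + ε) / (1 - ε)) ≤ 1 + 6 * ε :=
        (mul_le_mul h3 h4 (by positivity) (by positivity)).trans (q4 hε0.le hε4)
      have h6 : (m + j + 1 : ℝ) / (m * (d * (1 - ε))) ≤ 3 := q8 hm0 hjm hd1 hε4
      have h7 : (m + j + 1 : ℝ) / (m + j) * ((1 + ε) / (1 - ε)) / (θ * m) ≤ (1 + 6 * ε) / (θ * m) := by
        gcongr
      have h8 : V * Xi * ((1 + 6 * ε) / (θ * m) + ε2 * 3) ≤
          V * Xi / (θ * m) + (20 / θ + 12) / m ^ 2 * (V * Xi) := by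
        have e2 : V * Xi * ((1 + 6 * ε) / (θ * m) + ε2 * 3) = V * Xi / (θ * m) +
            (6 / θ + 3) / m ^ 2 * (V * Xi) := by
          rw [hε, hε2]
          field_simp
          ring
        rw [e2]
        have h9 : (6 / θ + 3) / m ^ 2 * (V * Xi) ≤ (20 / θ + 12) / m ^ 2 * (V * Xi) := by
          have : 6 / θ ≤ 20 / θ := by gcongr; norm_num
          gcongr
          linarith
        linarith
      refine le_trans (mul_le_mul_of_nonneg_left ?_ (by positivity)) h8
      have h10 : ε2 * ((m + j + 1 : ℝ) / (m * (d * (1 - ε)))) ≤ ε2 * 3 := by gcongr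
      linarith
    have h2 : W ≤ (V * (d * (1 + ε) / (m + j) / θ) + ε2 * V) / p := by
      rw [le_div_iff₀ hp0]
      exact hup
    linarith

end Pool.Agent.Y122.MH
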