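import Pool.Agent.Y122.MH.Conv3
import Pool.Agent.Y122.MH.Exp
import Pool.Agent.H305R2.Window

/-! The mean square law along one progression. -/

set_option autoImplicit false

namespace Pool.Agent.Y122.MH

open MeasureTheory
open Pool.Agent.H469R2.NK (e norm_e e_add)
open Pool.Agent.H305R2 (NN measurable_NN mem_Ioc_log ind_eq_sum)

/-- indicator of `NN y ∈ F` -/
noncomputable def hF (F : Finset ℕ) (y : ℝ) : ℝ := if NN y ∈ F then 1 else 0

lemma measurable_hF (F : Finset ℕ) : Measurable (hF F) :=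
  (measurable_from_nat (f := fun n : ℕ => if n ∈ F then (1 : ℝ) else 0)).comp measurable_NN

lemma hF_nonneg (F : Finset ℕ) (y : ℝ) : 0 ≤ hF F y := by unfold hF; split_ifs <;> norm_num

lemma hF_le_one (F : Finset ℕ) (y : ℝ) : hF F y ≤ 1 := by unfold hF; split_ifs <;> norm_num

lemma norm_hF_le (F : Finset ℕ) (y : ℝ) : ‖((hF F y : ℝ) : ℂ)‖ ≤ 1 := by
  rw [Complex.norm_real, Real.norm_of_nonneg (hF_nonneg F y)]
  exact hF_le_one F y

lemma hF_le_ind {F : Finset ℕ} (hF1 : ∀ m ∈ F, 1 ≤ m) {m1 : ℕ} (hm1 : ∀ m ∈ F, m ≤ m1) (y : ℝ) :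
    hF F y ≤ (Set.Ioc (0 : ℝ) (Real.log ((m1 + 1 : ℕ) : ℝ))).indicator (fun _ => (1 : ℝ)) y := by
  unfold hF
  split_ifs with h
  · have h1 := hF1 _ h
    have h2 := (mem_Ioc_log h1 (t := y)).2 rfl
    rw [Set.indicator_of_mem]
    refine ⟨lt_of_le_of_lt (Real.log_nonneg (by exact_mod_cast h1)) h2.1, h2.2.trans ?_⟩
    refine Real.log_le_log (by positivity) ?_
    exact_mod_cast Nat.succ_le_succ (hm1 _ h)
  · exact Set.indicator_nonneg (fun _ _ => zero_le_one) _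

lemma integrable_hF {F : Finset ℕ} (hF1 : ∀ m ∈ F, 1 ≤ m) : Integrable (hF F) := by
  have h1 : Integrable ((Set.Ioc (0 : ℝ) (Real.log ((F.sup id + 1 : ℕ) : ℝ))).indicator
      (fun _ => (1 : ℝ))) := by
    rw [integrable_indicator_iff measurableSet_Ioc]
    exact integrableOn_const (by simp)
  refine h1.mono' (measurable_hF F).aestronglyMeasurable (Filter.Eventually.of_forall fun y => ?_)
  rw [Real.norm_of_nonneg (hF_nonneg F y)]
  exact hF_le_ind hF1 (fun m hm => Finset.le_sup (f := id) hm) y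

lemma int_hF_le {F : Finset ℕ} (hF1 : ∀ m ∈ F, 1 ≤ m) {m1 : ℕ} (hm1 : ∀ m ∈ F, m ≤ m1) :
    ∫ y, ‖((hF F y : ℝ) : ℂ)‖ ≤ Real.log ((m1 + 1 : ℕ) : ℝ) := by
  have h0 : 0 ≤ Real.log ((m1 + 1 : ℕ) : ℝ) := Real.log_nonneg (by push_cast; linarith [(Nat.cast_nonneg m1 : (0 : ℝ) ≤ m1)])
  have h1 : Integrable ((Set.Ioc (0 : ℝ) (Real.log ((m1 + 1 : ℕ) : ℝ))).indicator
      (fun _ => (1 : ℝ))) := by
    rw [integrable_indicator_iff measurableSet_Ioc]
    exact integrableOn_const (by simp)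
  calc ∫ y, ‖((hF F y : ℝ) : ℂ)‖ ≤
      ∫ y, (Set.Ioc (0 : ℝ) (Real.log ((m1 + 1 : ℕ) : ℝ))).indicator (fun _ => (1 : ℝ)) y := by
        refine integral_mono (integrable_hF hF1).ofReal.norm h1 fun y => ?_
        show ‖((hF F y : ℝ) : ℂ)‖ ≤ _
        rw [Complex.norm_real, Real.norm_of_nonneg (hF_nonneg F y)]
        exact hF_le_ind hF1 hm1 y
    _ = _ := by
        rw [integral_indicator measurableSet_Ioc, setIntegral_const, smul_eq_mul, mul_one,
          Real.volume_real_Ioc_of_le h0, sub_zero]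

lemma ind_shift {a b s x : ℝ} (hs : 0 ≤ s) :
    |(Set.Ioc a b).indicator (fun _ => (1 : ℝ)) x - (Set.Ioc a b).indicator (fun _ => (1 : ℝ)) (s + x)| ≤
      (Set.Ioc (a - s) a).indicator (fun _ => (1 : ℝ)) x +
      (Set.Ioc (b - s) b).indicator (fun _ => (1 : ℝ)) x := by
  simp only [Set.indicator_apply, Set.mem_Ioc]
  have h1 : (0 : ℝ) ≤ (if a - s < x ∧ x ≤ a then (1 : ℝ) else 0) := by split_ifs <;> norm_num
  have h2 : (0 : ℝ) ≤ (if b - s < x ∧ x ≤ b then (1 : ℝ) else 0) := by split_ifs <;> norm_num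
  by_cases h3 : a < x ∧ x ≤ b
  · by_cases h4 : a < s + x ∧ s + x ≤ b
    · rw [if_pos h3, if_pos h4, sub_self, abs_zero]
      positivity
    · rw [if_pos h3, if_neg h4]
      have h5 : b - s < x ∧ x ≤ b := by
        refine ⟨?_, h3.2⟩
        by_contra h6
        exact h4 ⟨by linarith [h3.1], by linarith [not_lt.1 h6]⟩
      rw [if_pos h5]
      simp only [sub_zero, abs_one]
      linarith
  · by_cases h4 : a < s + x ∧ s + x ≤ b
    · rw [if_neg h3, if_pos h4]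
      have h5 : a - s < x ∧ x ≤ a := by
        refine ⟨by linarith [h4.1], ?_⟩
        by_contra h6
        exact h3 ⟨not_le.1 h6, by linarith [h4.2]⟩
      rw [if_pos h5]
      simp only [zero_sub, abs_neg, abs_one]
      linarith
    · rw [if_neg h3, if_neg h4, sub_self, abs_zero]
      positivity

lemma hF_var {F : Finset ℕ} (hF1 : ∀ m ∈ F, 1 ≤ m) {s : ℝ} (hs : 0 ≤ s) :
    ∫ x, ‖((hF F x : ℝ) : ℂ) - ((hF F (s + x) : ℝ) : ℂ)‖ ≤ 2 * F.card * s := by
  have hI : ∀ a b : ℝ, Integrable ((Set.Ioc a b).indicator (fun _ => (1 : ℝ))) := fun a b => by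
    rw [integrable_indicator_iff measurableSet_Ioc]
    exact integrableOn_const (by simp)
  have hv : ∀ a : ℝ, ∫ x, (Set.Ioc (a - s) a).indicator (fun _ => (1 : ℝ)) x = s := fun a => by
    rw [integral_indicator measurableSet_Ioc, setIntegral_const, smul_eq_mul, mul_one,
          Real.volume_real_Ioc_of_le (by linarith)]
    ring
  set G : ℝ → ℝ := fun x => ∑ m ∈ F, ((Set.Ioc (Real.log m - s) (Real.log m)).indicator (fun _ => (1 : ℝ)) x +
      (Set.Ioc (Real.log ((m + 1 : ℕ) : ℝ) - s) (Real.log ((m + 1 : ℕ) : ℝ))).indicator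
        (fun _ => (1 : ℝ)) x) with hG
  have hI2 : ∀ m ∈ F, Integrable (fun x => (Set.Ioc (Real.log m - s) (Real.log m)).indicator (fun _ => (1 : ℝ)) x +
      (Set.Ioc (Real.log ((m + 1 : ℕ) : ℝ) - s) (Real.log ((m + 1 : ℕ) : ℝ))).indicator
        (fun _ => (1 : ℝ)) x) := fun m _ => (hI _ _).add (hI _ _)
  have hGi : Integrable G := integrable_finsetSum _ hI2
  have hD : Integrable (fun x => ((hF F x : ℝ) : ℂ) - ((hF F (s + x) : ℝ) : ℂ)) :=
    (integrable_hF hF1).ofReal.sub ((integrable_hF hF1).comp_add_left s).ofReal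
  calc ∫ x, ‖((hF F x : ℝ) : ℂ) - ((hF F (s + x) : ℝ) : ℂ)‖ ≤ ∫ x, G x := by
        refine integral_mono hD.norm hGi fun x => ?_
        show ‖((hF F x : ℝ) : ℂ) - ((hF F (s + x) : ℝ) : ℂ)‖ ≤ G x
        rw [← Complex.ofReal_sub, Complex.norm_real, Real.norm_eq_abs]
        unfold hF
        rw [ind_eq_sum F hF1, ind_eq_sum F hF1, ← Finset.sum_sub_distrib]
        exact (Finset.abs_sum_le_sum_abs _ _).trans (Finset.sum_le_sum fun m _ => ind_shift hs)
    _ = ∑ m ∈ F, (s + s) := by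
        rw [hG, integral_finsetSum _ hI2]
        refine Finset.sum_congr rfl fun m _ => ?_
        rw [integral_add (hI _ _) (hI _ _), hv, hv]
    _ = _ := by
        rw [Finset.sum_const, nsmul_eq_mul]
        ring

/-- **One progression.** -/
theorem prog (M : ℕ) (c0 C0 : ℝ) (hc0 : 0 < c0) (hC0 : 0 ≤ C0) : ∃ κ : ℝ, 0 < κ ∧ κ ≤ 1 / 2 ∧
    ∃ C : ℝ, 1 ≤ C ∧ ∀ (J L : ℕ) (u : ℝ) (φ : ℕ → ℝ → ℝ) (F : Finset ℕ) (m1 : ℕ), 1 ≤ J →
    (J : ℝ) ≤ u → L ≤ J → u + L ≤ 3 * J → Ph c0 C0 M J φ → (∀ m ∈ F, 1 ≤ m) → (∀ m ∈ F, m ≤ m1) →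
    2 * ((m1 : ℝ) + 1) * (J : ℝ) ^ 3 ≤ (J : ℝ) ^ M →
    Integrable (fun a => (∑ n ∈ Finset.range L, hF F (φ 0 (u + n) + a) -
      ∫ t in Set.Ioc (0 : ℝ) L, hF F (φ 0 (u + t) + a)) ^ 2) ∧
    ∫ a, (∑ n ∈ Finset.range L, hF F (φ 0 (u + n) + a) -
      ∫ t in Set.Ioc (0 : ℝ) L, hF F (φ 0 (u + t) + a)) ^ 2 ≤
      2 * (C * (J : ℝ) ^ (1 - κ)) ^ 2 * Real.log ((m1 + 1 : ℕ) : ℝ) + 16 := by
  obtain ⟨κ, hκ, hκ1, C, hC, hmain⟩ := exp_diff M c0 C0 hc0 hC0
  refine ⟨κ, hκ, hκ1, C, hC, ?_⟩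
  intro J L u φ F m1 hJ hu hL huL hφ hF1 hFm hV
  have hJ1 : (1 : ℝ) ≤ J := by exact_mod_cast hJ
  have hJ0 : (0 : ℝ) < J := by linarith
  have hL' : (L : ℝ) ≤ J := by exact_mod_cast hL
  set h : ℝ → ℂ := fun y => ((hF F y : ℝ) : ℂ) with hh
  have hmeas : Measurable h := Complex.measurable_ofReal.comp (measurable_hF F)
  -- the measures
  set μ : Measure ℝ := ∑ n ∈ Finset.range L, Measure.dirac (φ 0 (u + n)) with hμ
  set w : ℝ → ℝ := fun t => φ 0 (u + t) with hw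
  set ν : Measure ℝ := (volume.restrict (Set.Ioc (0 : ℝ) L)).map w with hν
  have hwc : ContinuousOn w (Set.Ioc (0 : ℝ) L) := by
    refine (hφ.cont (m := 0) (by omega)).comp (by fun_prop) ?_
    intro t ht
    exact ⟨by linarith [ht.1], by linarith [ht.2]⟩
  have hwm : AEMeasurable w (volume.restrict (Set.Ioc (0 : ℝ) L)) := hwc.aemeasurable measurableSet_Ioc
  have hμf : IsFiniteMeasure μ := by
    rw [hμ]
    infer_instance
  have hνf : IsFiniteMeasure ν := by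
    rw [hν]
    infer_instance
  have hμu : μ.real Set.univ ≤ J := by
    rw [Measure.real, hμ, Measure.finsetSum_apply]
    simp only [measure_univ, Finset.sum_const, Finset.card_range, nsmul_eq_mul, mul_one,
      ENNReal.toReal_natCast]
    exact hL'
  have hνu : ν.real Set.univ ≤ J := by
    rw [Measure.real, hν, Measure.map_apply_of_aemeasurable hwm MeasurableSet.univ, Set.preimage_univ,
      Measure.restrict_apply_univ, Real.volume_Ioc, sub_zero, ENNReal.toReal_ofReal (by positivity)]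
    exact hL'
  have e1 : ∀ G : ℝ → ℂ, ∫ y, G y ∂μ = ∑ n ∈ Finset.range L, G (φ 0 (u + n)) := fun G => by
    rw [hμ, integral_finsetSum_measure]
    · refine Finset.sum_congr rfl fun n _ => ?_
      rw [integral_dirac]
    · intro n _
      exact integrable_dirac (by simp)
  have e2 : ∀ G : ℝ → ℂ, Measurable G → ∫ y, G y ∂ν = ∫ t in Set.Ioc (0 : ℝ) L, G (φ 0 (u + t)) :=
    fun G hG => by
    rw [hν, integral_map hwm hG.aestronglyMeasurable]
  have hcvμ : ∀ a, cv h μ a = ((∑ n ∈ Finset.range L, hF F (φ 0 (u + n) + a) : ℝ) : ℂ) := fun a => by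
    unfold cv
    rw [e1 (fun y => h (y + a))]
    push_cast
    rfl
  have hcvν : ∀ a, cv h ν a = ((∫ t in Set.Ioc (0 : ℝ) L, hF F (φ 0 (u + t) + a) : ℝ) : ℂ) := fun a => by
    unfold cv
    rw [e2 (fun y => h (y + a)) (hmeas.comp (measurable_id.add_const a))]
    exact integral_ofReal
  have hms := mean_sq (h := h) (integrable_hF hF1).ofReal (norm_hF_le F)
    (W := Real.log ((m1 + 1 : ℕ) : ℝ)) (V := 2 * ((m1 : ℝ) + 1)) (J := J) (Bd := C * (J : ℝ) ^ (1 - κ))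
    (int_hF_le hF1 hFm) (by linarith [(Nat.cast_nonneg m1 : (0 : ℝ) ≤ m1)])
    (fun s hs => (hF_var hF1 hs).trans (by
      have h1 : (F.card : ℝ) ≤ (m1 : ℝ) + 1 := by
        have h2 : F ⊆ Finset.range (m1 + 1) := fun m hm => Finset.mem_range.2 (Nat.lt_succ_of_le (hFm m hm))
        have h3 := Finset.card_le_card h2
        rw [Finset.card_range] at h3
        exact_mod_cast h3
      gcongr)) hJ1 (μ := μ) (ν := ν) hμu hνu (by
        have h1 := Real.one_le_rpow hJ1 (show (0 : ℝ) ≤ 1 - κ by linarith)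
        nlinarith) (fun ξ hξ => by
        unfold ch
        rw [e1 (fun y => e (ξ * y)), e2 (fun y => e (ξ * y))
          (continuous_e.measurable.comp (measurable_const.mul measurable_id))]
        exact hmain J L u ξ φ hJ hu hL huL hφ (hξ.trans hV))
  have hfun : (fun a => ‖cv h μ a - cv h ν a‖ ^ 2) = fun a =>
      (∑ n ∈ Finset.range L, hF F (φ 0 (u + n) + a) -
      ∫ t in Set.Ioc (0 : ℝ) L, hF F (φ 0 (u + t) + a)) ^ 2 := by
    funext a
    rw [hcvμ, hcvν, ← Complex.ofReal_sub, Complex.norm_real, Real.norm_eq_abs, sq_abs]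
  rw [hfun] at hms
  exact hms

end Pool.Agent.Y122.MH
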