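import Pool.Agent.H447R2.ML.Q3

/-! Windows for numbers with a prime rough part, uniformly in the position of the window. -/

set_option autoImplicit false

namespace Pool.Agent.Y122.MH

open MeasureTheory Filter Topology
open Pool.Agent.H305R2 (ff VV ZZ VV_nonneg ZZ_nonneg ZZ_le_exp)
open Pool.Agent.H447R2.ML (RL RL_tendsto TL TL_upper TL_lower window_le_TL TL_le_window)

lemma one_le_VV (p : ℕ) : 1 ≤ VV p := by
  unfold Pool.Agent.H305R2.VV
  refine Finset.one_le_prod fun r hr => ?_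
  have h1 : (2 : ℝ) ≤ r := by exact_mod_cast (Finset.mem_filter.1 hr).2.two_le
  have h2 : (r : ℝ)⁻¹ ≤ 1 / 2 := by
    rw [inv_le_comm₀ (by linarith) (by norm_num)]
    linarith
  have h3 : 0 < (r : ℝ)⁻¹ := by positivity
  rw [one_le_inv₀ (by linarith)]
  linarith

lemma exp_small {c : ℝ} (hc : 0 < c) : Tendsto (fun i : ℕ => (i : ℝ) * Real.exp (-(c * i))) atTop (𝓝 0) := by
  have := Real.tendsto_pow_mul_exp_neg_atTop_nhds_zero 1
  have h2 := (this.comp ((tendsto_natCast_atTop_atTop (R := ℝ)).const_mul_atTop hc)).const_mul (c⁻¹)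
  rw [mul_zero] at h2
  refine h2.congr fun x => ?_
  simp only [Function.comp]
  field_simp

lemma ZZ_exp {c : ℝ} (hc : 0 < c) : ∃ B : ℝ, 0 < B ∧ ∀ k : ℕ, ZZ k ≤ B * Real.exp (c * k) := by
  obtain ⟨K0, hK0⟩ := (ZZ_le_exp hc).exists_forall_of_atTop
  have hs : 0 ≤ ∑ k ∈ Finset.range K0, ZZ k := Finset.sum_nonneg fun k _ => ZZ_nonneg k
  refine ⟨1 + ∑ k ∈ Finset.range K0, ZZ k, by linarith, fun k => ?_⟩
  have h1 : 1 ≤ Real.exp (c * k) := Real.one_le_exp (by positivity)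
  rcases Nat.lt_or_ge k K0 with h | h
  · have h2 : ZZ k ≤ ∑ k ∈ Finset.range K0, ZZ k :=
      Finset.single_le_sum (f := fun k => ZZ k) (fun k _ => ZZ_nonneg k) (Finset.mem_range.2 h)
    have h3 : 0 ≤ ZZ k := ZZ_nonneg k
    nlinarith
  · have h2 := hK0 k h
    nlinarith

/-- **Windows.** -/
theorem win {θ C l ε : ℝ} (hθ : 0 < θ) (hl : 0 < l) (hl1 : l ≤ 1) (hε : 0 < ε) :
    ∀ᶠ i : ℕ in atTop, ∀ k : ℕ, k ≤ i → ∀ y : ℝ, |y - θ * i| ≤ C →
      |(∫ t in Set.Ioc y (y + l), ff k t) - VV k * (l / (θ * i))| ≤ ε * (VV k / i) := by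
  -- choose δ
  have hδ : ∃ δ : ℝ, 0 < δ ∧ δ < l ∧ (l + δ) / ((1 - δ) * θ) < l / θ + ε / 4 ∧
      l / θ - ε / 4 < (l - δ) / θ := by
    have h1 : Tendsto (fun δ : ℝ => (l + δ) / ((1 - δ) * θ)) (𝓝[>] 0) (𝓝 (l / θ)) := by
      have : ContinuousAt (fun δ : ℝ => (l + δ) / ((1 - δ) * θ)) 0 :=
        ContinuousAt.div (by fun_prop) (by fun_prop) (by simpa using hθ.ne')
      have h2 := this.tendsto.mono_left (nhdsWithin_le_nhds (s := Set.Ioi 0))
      simpa using h2
    have h2 : Tendsto (fun δ : ℝ => (l - δ) / θ) (𝓝[>] 0) (𝓝 (l / θ)) := by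
      have : ContinuousAt (fun δ : ℝ => (l - δ) / θ) 0 := by fun_prop
      have h2 := this.tendsto.mono_left (nhdsWithin_le_nhds (s := Set.Ioi 0))
      simpa using h2
    have h3 := h1.eventually_lt_const (show l / θ < l / θ + ε / 4 by linarith)
    have h4 := h2.eventually_const_lt (show l / θ - ε / 4 < l / θ by linarith)
    have h5 : ∀ᶠ δ : ℝ in 𝓝[>] 0, δ < l :=
      (eventually_lt_nhds hl).filter_mono nhdsWithin_le_nhds
    obtain ⟨δ, hδ⟩ := ((self_mem_nhdsWithin (a := (0 : ℝ)) (s := Set.Ioi 0)) |>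
      fun h => (h3.and (h4.and (h5.and h))).exists)
    exact ⟨δ, hδ.2.2.2, hδ.2.2.1, hδ.1, hδ.2.1⟩
  obtain ⟨δ, hδ0, hδl, hup, hlow⟩ := hδ
  have hδ1 : δ < 1 := lt_of_lt_of_le hδl hl1
  have h1δ : 0 < 1 - δ := by linarith
  obtain ⟨X, hX⟩ : ∃ X : ℝ, ∀ x, X ≤ x → |RL l x * Real.log x - l| < δ := by
    have := (Metric.tendsto_nhds.1 (RL_tendsto hl)) δ hδ0
    simp only [Real.dist_eq] at this
    exact this.exists_forall_of_atTop
  set X' := max X 2 with hX'
  have hX1 : 1 < X' := lt_of_lt_of_le (by norm_num) (le_max_right _ _)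
  have hRRu : ∀ x, X' ≤ x → RL l x * Real.log x ≤ l + δ := fun x hx => by
    have := abs_lt.1 (hX x ((le_max_left _ _).trans hx)); linarith [this.2]
  have hRRl : ∀ x, X' ≤ x → l - δ ≤ RL l x * Real.log x := fun x hx => by
    have := abs_lt.1 (hX x ((le_max_left _ _).trans hx)); linarith [this.1]
  have hi : Tendsto (fun i : ℕ => (i : ℝ)) atTop atTop := tendsto_natCast_atTop_atTop
  have hinv : Tendsto (fun i : ℕ => ((i : ℝ))⁻¹) atTop (𝓝 0) := tendsto_inv_atTop_zero.comp hi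
  -- limits
  have hU : Tendsto (fun i : ℕ => (l + δ) / ((1 - δ) * (θ - C * (i : ℝ)⁻¹))) atTop
      (𝓝 ((l + δ) / ((1 - δ) * θ))) := by
    have h1 : Tendsto (fun i : ℕ => (1 - δ) * (θ - C * (i : ℝ)⁻¹)) atTop (𝓝 ((1 - δ) * (θ - C * 0))) :=
      (tendsto_const_nhds.sub (hinv.const_mul C)).const_mul _
    rw [mul_zero, sub_zero] at h1
    exact tendsto_const_nhds.div h1 (by positivity)
  have hL : Tendsto (fun i : ℕ => (l - δ) / (θ + C * (i : ℝ)⁻¹)) atTop (𝓝 ((l - δ) / θ)) := by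
    have h1 : Tendsto (fun i : ℕ => (θ + C * (i : ℝ)⁻¹)) atTop (𝓝 (θ + C * 0)) :=
      (tendsto_const_nhds.add (hinv.const_mul C))
    rw [mul_zero, add_zero] at h1
    exact tendsto_const_nhds.div h1 hθ.ne'
  set c : ℝ := δ * θ / 8 with hc
  have hc0 : 0 < c := by positivity
  have hE1 := exp_small hc0
  have hE2 := exp_small (show 0 < θ / 2 by positivity)
  obtain ⟨B, hB0, hB⟩ := ZZ_exp hc0
  have hE : Tendsto (fun i : ℕ => (3 * B) * ((i : ℝ) * Real.exp (-(c * i))) +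
      4 * ((i : ℝ) * Real.exp (-(θ / 2 * i)))) atTop (𝓝 ((3 * B) * 0 + 4 * 0)) :=
    (hE1.const_mul (3 * B)).add (hE2.const_mul 4)
  have hE' := hE.eventually_lt_const (show (3 * B : ℝ) * 0 + 4 * 0 < ε / 4 by linarith)
  have hU' := hU.eventually_lt_const hup
  have hL' := hL.eventually_const_lt hlow
  have hC : ∀ᶠ i : ℕ in atTop, |C| + 1 ≤ θ / 2 * i :=
    (hi.const_mul_atTop (by positivity : 0 < θ / 2)).eventually_ge_atTop _
  have hcond1 : ∀ᶠ i : ℕ in atTop, X' ≤ Real.exp ((1 - δ) * (θ / 2 * i)) :=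
    (Real.tendsto_exp_atTop.comp ((hi.const_mul_atTop (by positivity : 0 < θ / 2)).const_mul_atTop
      h1δ)).eventually_ge_atTop X'
  have hcond3 : ∀ᶠ i : ℕ in atTop, (i : ℝ) + 1 ≤ Real.exp ((1 - δ) * (θ / 2 * i)) := by
    set c2 : ℝ := (1 - δ) * (θ / 2) with hc2
    have hc20 : 0 < c2 := by positivity
    have h1 := exp_small hc20
    have h2 := h1.eventually_lt_const (show (0 : ℝ) < 1 / 2 by norm_num)
    filter_upwards [h2, eventually_ge_atTop 1] with i h3 h4
    have h5 : (1 : ℝ) ≤ i := by exact_mod_cast h4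
    rw [Real.exp_neg, mul_inv_lt_iff₀ (Real.exp_pos _)] at h3
    rw [show (1 - δ) * (θ / 2 * i) = c2 * i by rw [hc2]; ring]
    linarith
  filter_upwards [hE', hU', hL', hC, hcond1, hcond3, eventually_ge_atTop 1] with i k1 k2 k3 k4 k5
    k6 k9 k k8 y hy
  have k7 := hB k
  have hi1 : (1 : ℝ) ≤ i := by exact_mod_cast k9
  have hi0 : (0 : ℝ) < i := by linarith
  have hyb := abs_le.1 hy
  have hCa := le_abs_self C
  have hy1 : θ / 2 * i ≤ y := by linarith
  have hy0 : 0 < y := by nlinarith [abs_nonneg C]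
  have hy2 : 1 ≤ y := by linarith [abs_nonneg C]
  have hV1 := one_le_VV k
  have hV0 : 0 < VV k := by linarith
  have hZ0 := ZZ_nonneg k
  have hYr : ((k : ℕ) : ℝ) ≤ i := by exact_mod_cast k8
  have hcd1 : X' ≤ Real.exp ((1 - δ) * y) := k5.trans (Real.exp_le_exp.2 (by gcongr))
  have hcd3 : Real.exp (δ * y) * ((k : ℕ) + 1) ≤ Real.exp y := by
    calc Real.exp (δ * y) * ((k : ℕ) + 1) ≤ Real.exp (δ * y) * Real.exp ((1 - δ) * y) := by
          refine mul_le_mul_of_nonneg_left ?_ (Real.exp_pos _).le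
          calc ((k : ℕ) : ℝ) + 1 ≤ i + 1 := by linarith
            _ ≤ _ := k6.trans (Real.exp_le_exp.2 (by gcongr))
      _ = Real.exp y := by rw [← Real.exp_add]; congr 1; ring
  have hTu := TL_upper (p := k) hl1 (by linarith : 0 ≤ l + δ) hδ0 hδ1 hX1 hRRu hcd1 hy0
  have hTl := TL_lower (p := k) hl.le (by linarith : 0 ≤ l - δ) (by linarith) hδ0 hδ1 hX1 hRRl hcd1 hy0 hcd3
  have hWu := window_le_TL (p := k) hl.le hy0.le
  have hWl := TL_le_window (p := k) hl.le hy0.le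
  -- the errors
  have herr : 3 * (Real.exp (-(δ * y / 2)) * ZZ k) + 4 * Real.exp (-y) ≤ ε / 4 / i := by
    have h1 : Real.exp (-(δ * y / 2)) * ZZ k ≤ B * Real.exp (-(c * i)) := by
      calc Real.exp (-(δ * y / 2)) * ZZ k ≤ Real.exp (-(2 * (c * i))) * (B * Real.exp (c * i)) := by
            refine mul_le_mul (Real.exp_le_exp.2 ?_) (k7.trans (mul_le_mul_of_nonneg_left
              (Real.exp_le_exp.2 (by gcongr)) hB0.le)) hZ0 (Real.exp_pos _).le
            rw [hc]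
            nlinarith
        _ = B * (Real.exp (-(2 * (c * i))) * Real.exp (c * i)) := by ring
        _ = B * Real.exp (-(c * i)) := by rw [← Real.exp_add]; congr 2; ring
    have h2 : Real.exp (-y) ≤ Real.exp (-(θ / 2 * i)) := Real.exp_le_exp.2 (by linarith)
    rw [le_div_iff₀ hi0]
    calc _ ≤ ((3 * B) * Real.exp (-(c * i)) + 4 * Real.exp (-(θ / 2 * i))) * i := by
          refine mul_le_mul_of_nonneg_right ?_ hi0.le
          linarith
      _ = (3 * B) * ((i : ℝ) * Real.exp (-(c * i))) + 4 * ((i : ℝ) * Real.exp (-(θ / 2 * i))) := by ring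
      _ ≤ _ := k1.le
  have hVi : ε / 4 / i ≤ ε / 4 * (VV k / i) := by
    rw [div_eq_mul_inv, div_eq_mul_inv (VV k)]
    have : (i : ℝ)⁻¹ ≤ VV k * (i : ℝ)⁻¹ := le_mul_of_one_le_left (by positivity) hV1
    exact mul_le_mul_of_nonneg_left this (by positivity)
  have hbound1 : (l + δ) / ((1 - δ) * y) ≤ (l / θ + ε / 4) / i := by
    have h1 : (l + δ) / ((1 - δ) * y) ≤ (l + δ) / ((1 - δ) * (θ * i - C)) := by
      refine div_le_div_of_nonneg_left (by linarith) ?_ ?_
      · have : 0 < θ * i - C := by nlinarith [abs_nonneg C]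
        positivity
      · refine mul_le_mul_of_nonneg_left (by linarith) h1δ.le
    refine h1.trans ?_
    rw [le_div_iff₀ hi0]
    refine le_trans (le_of_eq ?_) k2.le
    have h3 : θ * i - C = (θ - C * (i : ℝ)⁻¹) * i := by field_simp
    rw [h3]
    have h4 : θ - C * (i : ℝ)⁻¹ ≠ 0 := by
      intro h5
      rw [h5, zero_mul] at h3
      nlinarith [abs_nonneg C]
    field_simp
  have hbound2 : (l / θ - ε / 4) / i ≤ (l - δ) / y := by
    have h1 : (l - δ) / (θ * i + C) ≤ (l - δ) / y := by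
      refine div_le_div_of_nonneg_left (by linarith) hy0 (by linarith)
    refine le_trans ?_ h1
    rw [div_le_iff₀ hi0]
    refine k3.le.trans (le_of_eq ?_)
    have h3 : θ * i + C = (θ + C * (i : ℝ)⁻¹) * i := by field_simp
    rw [h3]
    have h4 : θ + C * (i : ℝ)⁻¹ ≠ 0 := by
      intro h5
      rw [h5, zero_mul] at h3
      have := neg_abs_le C
      nlinarith [abs_nonneg C]
    field_simp
  have hmain : VV k * (l / (θ * i)) = (l / θ) / i * VV k := by
    field_simp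
  rw [abs_le]
  constructor
  · have e1 : 1 / y * (Real.exp (-(δ * y / 2)) * ZZ k) ≤ 3 * (Real.exp (-(δ * y / 2)) * ZZ k) := by
      refine mul_le_mul_of_nonneg_right ?_ (by positivity)
      rw [div_le_iff₀ hy0]
      linarith
    have e2 : (l / θ - ε / 4) / i * VV k ≤ (l - δ) / y * VV k :=
      mul_le_mul_of_nonneg_right hbound2 hV0.le
    have e3 : (l / θ - ε / 4) / i * VV k = (l / θ) / i * VV k - ε / 4 * (VV k / i) := by ring
    have e4 : 0 < ε * (VV k / i) := by positivity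
    linarith
  · have e2 : (l + δ) / ((1 - δ) * y) * VV k ≤ (l / θ + ε / 4) / i * VV k :=
      mul_le_mul_of_nonneg_right hbound1 hV0.le
    have e3 : (l / θ + ε / 4) / i * VV k = (l / θ) / i * VV k + ε / 4 * (VV k / i) := by ring
    have e4 : 0 < ε * (VV k / i) := by positivity
    have e5 : 0 < Real.exp (-y) := Real.exp_pos _
    linarith

end Pool.Agent.Y122.MH
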